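import Pool.Agent.W_448so_h17.AsE
import Pool.Agent.W_448so_h64.SoL

/-!
S9, row 476, ASSEMBLY at energy five (`PS5`): the window sums of a part with closed pairs or flip.
-/

namespace Pool.Agent.GaussPoset.Win.SO

set_option linter.unusedSectionVars false

open Finset

universe u

section abstract

variable {P : Type u} [Fintype P] [DecidableEq P]
variable {c c' : P → Finset P} {t t' : P → ℕ} {V Sd Sd' : Finset P} {psi : P → P} {e : P → ℕ}
variable {w x x' s w' y y' s' z p : P}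

/-- closed pair, the explicit labels -/
def CloF (c : P → Finset P) (t : P → ℕ) (Sd : Finset P) (e : P → ℕ) : Prop :=
  ∃ w w' x x' s, TD c t Sd w x x' s ∧ TD c t Sd w' x x' s ∧ w ≠ w' ∧
    ((∀ y, e y = if y = w then 2 else if y = w' ∨ y = x ∨ y = x' then 1 else 0) ∨
      On e {w, w', x, x', s})

/-- flip, the explicit labels -/
def FlpF (c c' : P → Finset P) (t t' : P → ℕ) (Sd Sd' : Finset P) (e : P → ℕ) : Prop :=
  ∃ p y p' u s, Pen c t Sd p y ∧ Pen c' t' Sd' p' u ∧ c y ∩ c' u = {s} ∧ On e {p, y, s, u, p'}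

/-- properties of the explicit configurations of energy five -/
structure Ex5 (c c' : P → Finset P) (t t' : P → ℕ) (Sd Sd' : Finset P) (e : P → ℕ) : Prop where
  E : 5 ≤ ∑ x, e x
  f : ∀ x ∈ Sd, t x = 1 → 0 < e x → ∃ z ∈ c' x, 0 < e z
  g : ∀ x ∈ Sd', t' x = 1 → 0 < e x → ∃ z ∈ c x, 0 < e z

lemma Ex5.symm (h : Ex5 c c' t t' Sd Sd' e) : Ex5 c' c t' t Sd' Sd e := ⟨h.E, h.g, h.f⟩

theorem TPp.ex (W : Two c c' t t' V Sd Sd' psi) (h : TPp c t Sd e) :
    Ex5 c c' t t' Sd Sd' e ∧ (∀ v ∈ V, e v = 0) ∧ ∀ x, e x ≤ 1 := by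
  obtain ⟨w, x, x', s, p, y, T, T', hd, on⟩ := h
  obtain ⟨m1, t1, m2, t2, d1, d2, -⟩ := T.facts W.s1
  obtain ⟨n1, u1, f1⟩ := T'.facts W.s1
  have tw := T.tw
  have tp := T'.tp
  have k := ne_disj (y := y) hd T.sx T.sx' (Subset.refl _)
  have hne : ∀ a b : P, t a ≠ t b → a ≠ b := fun a b h h' => h (congrArg t h')
  have hwp : w ≠ p := by
    rintro rfl
    have h1 : x ∈ c w := by rw [T.cw]; exact mem_insert_self _ _
    rw [T'.cp, mem_singleton] at h1
    exact k.1 h1
  have hS : ∀ a, 0 < e a → a ∈ Sd := by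
    intro a ha
    have := on.mem ha
    simp only [mem_insert, mem_singleton] at this
    rcases this with rfl | rfl | rfl | rfl | rfl
    exacts [T.m, m1, m2, T'.m, n1]
  refine ⟨⟨?_, ?_, ?_⟩, ?_, on.le⟩
  · refine five_of (a := w) (b := x) (d := x') (f := p) (g := y) ?_
      (hne _ _ (by omega)) (hne _ _ (by omega)) T.ne (hne _ _ (by omega)) ?_
    · rw [disjoint_left]
      intro a ha hb
      simp only [mem_insert, mem_singleton] at ha hb
      rcases ha with rfl | rfl | rfl <;> rcases hb with hb | hb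
      · exact hwp hb
      · exact hne _ _ (by omega) hb
      · exact hne _ _ (by omega) hb
      · exact k.1 hb
      · exact hne _ _ (by omega) hb
      · exact k.2 hb
    · refine ⟨?_, ?_, ?_, ?_, ?_⟩ <;> exact on.pos (by simp)
  · intro a _ ta ha
    have := on.mem ha
    simp only [mem_insert, mem_singleton] at this
    rcases this with rfl | rfl | rfl | rfl | rfl
    · omega
    · exact ⟨w, d1, on.pos (by simp)⟩
    · exact ⟨w, d2, on.pos (by simp)⟩
    · omega
    · exact ⟨p, f1, on.pos (by simp)⟩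
  · intro a ha _ h
    exact absurd ha (disjoint_left.1 W.d3 (hS a h))
  · intro v hv
    by_contra h
    exact (disjoint_left.1 W.d1 (hS v (by omega))) hv

theorem TQp.ex (W : Two c c' t t' V Sd Sd' psi) (h : TQp c c' t t' Sd Sd' e) :
    Ex5 c c' t t' Sd Sd' e ∧ (∀ v ∈ V, e v = 0) ∧ ∀ x, e x ≤ 1 := by
  obtain ⟨w, x, x', s, p, y, T, T', hd, on⟩ := h
  obtain ⟨m1, t1, m2, t2, d1, d2, -⟩ := T.facts W.s1
  obtain ⟨n1, u1, f1⟩ := T'.facts W.s2
  have tw := T.tw
  have tp := T'.tp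
  have hne : ∀ a b : P, t a ≠ t b → a ≠ b := fun a b h h' => h (congrArg t h')
  have hne' : ∀ a b : P, t' a ≠ t' b → a ≠ b := fun a b h h' => h (congrArg t' h')
  have hside : ∀ a ∈ Sd, 0 < e a → a = w ∨ a = x ∨ a = x' := by
    intro a ha h
    have := on.mem h
    simp only [mem_insert, mem_singleton] at this
    rcases this with h | h | h | rfl | rfl
    · exact Or.inl h
    · exact Or.inr (Or.inl h)
    · exact Or.inr (Or.inr h)
    · exact absurd T'.m (disjoint_left.1 W.d3 ha)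
    · exact absurd n1 (disjoint_left.1 W.d3 ha)
  have hside' : ∀ a ∈ Sd', 0 < e a → a = p ∨ a = y := by
    intro a ha h
    have := on.mem h
    simp only [mem_insert, mem_singleton] at this
    rcases this with rfl | rfl | rfl | h | h
    · exact absurd ha (disjoint_left.1 W.d3 T.m)
    · exact absurd ha (disjoint_left.1 W.d3 m1)
    · exact absurd ha (disjoint_left.1 W.d3 m2)
    · exact Or.inl h
    · exact Or.inr h
  refine ⟨⟨?_, ?_, ?_⟩, ?_, on.le⟩
  · refine five_of (a := w) (b := x) (d := x') (f := p) (g := y) ?_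
      (hne _ _ (by omega)) (hne _ _ (by omega)) T.ne (hne' _ _ (by omega)) ?_
    · refine Disjoint.mono ?_ ?_ W.d3
      · intro a ha
        simp only [mem_insert, mem_singleton] at ha
        rcases ha with rfl | rfl | rfl
        exacts [T.m, m1, m2]
      · intro a ha
        simp only [mem_insert, mem_singleton] at ha
        rcases ha with rfl | rfl
        exacts [T'.m, n1]
    · refine ⟨?_, ?_, ?_, ?_, ?_⟩ <;> exact on.pos (by simp)
  · intro a ha ta h
    rcases hside a ha h with rfl | rfl | rfl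
    · omega
    · exact ⟨w, d1, on.pos (by simp)⟩
    · exact ⟨w, d2, on.pos (by simp)⟩
  · intro a ha ta h
    rcases hside' a ha h with rfl | rfl
    · omega
    · exact ⟨p, f1, on.pos (by simp)⟩
  · intro v hv
    by_contra h
    have := on.mem (show 0 < e v by omega)
    simp only [mem_insert, mem_singleton] at this
    rcases this with rfl | rfl | rfl | rfl | rfl
    · exact (disjoint_left.1 W.d1 T.m) hv
    · exact (disjoint_left.1 W.d1 m1) hv
    · exact (disjoint_left.1 W.d1 m2) hv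
    · exact (disjoint_left.1 W.d2 T'.m) hv
    · exact (disjoint_left.1 W.d2 n1) hv

theorem LO5.ex (W : Two c c' t t' V Sd Sd' psi) (h : LO5 c c' t t' Sd Sd' e) :
    Ex5 c c' t t' Sd Sd' e ∧ (∀ v ∈ V, e v = 0) ∧ ∀ x, e x ≤ 1 := by
  rcases h with h | h | h | h
  · exact h.ex W
  · obtain ⟨h1, h2, h3⟩ := TPp.ex W.symm h
    exact ⟨h1.symm, h2, h3⟩
  · exact h.ex W
  · obtain ⟨h1, h2, h3⟩ := TQp.ex W.symm h
    exact ⟨h1.symm, h2, h3⟩

theorem CloF.ex (W : Two c c' t t' V Sd Sd' psi) (h : CloF c t Sd e) :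
    Ex5 c c' t t' Sd Sd' e ∧ Clo c t Sd e := by
  obtain ⟨w, w', x, x', s, T, T', hww, he⟩ := h
  obtain ⟨m1, t1, m2, t2, d1, d2, sV⟩ := T.facts W.s1
  obtain ⟨-, -, -, -, d1', d2', -⟩ := T'.facts W.s1
  have tw := T.tw
  have tw' := T'.tw
  have ts := W.s1.tV s sV
  have hne : ∀ a b : P, t a ≠ t b → a ≠ b := fun a b h h' => h (congrArg t h')
  have n1 : x ≠ w := hne _ _ (by omega)
  have n2 : x' ≠ w := hne _ _ (by omega)
  have n3 : w' ≠ x := hne _ _ (by omega)
  have n4 : w' ≠ x' := hne _ _ (by omega)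
  have n5 : w ≠ s := hne _ _ (by omega)
  have n6 : w' ≠ s := hne _ _ (by omega)
  have n7 : x ≠ s := hne _ _ (by omega)
  have n8 : x' ≠ s := hne _ _ (by omega)
  have key : 1 ≤ e w ∧ 1 ≤ e w' ∧ 5 ≤ ∑ x, e x ∧
      ∀ a, 0 < e a → a = w ∨ a = w' ∨ a = x ∨ a = x' ∨ a = s := by
    rcases he with he | on
    · have e1 : e w = 2 := by rw [he w, if_pos rfl]
      have e2 : e w' = 1 := by rw [he w', if_neg hww.symm, if_pos (Or.inl rfl)]
      have e3 : e x = 1 := by rw [he x, if_neg n1, if_pos (Or.inr (Or.inl rfl))]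
      have e4 : e x' = 1 := by rw [he x', if_neg n2, if_pos (Or.inr (Or.inr rfl))]
      have e5 := four_le (e := e) hww n1.symm n2.symm n3 n4 T.ne
      refine ⟨by omega, by omega, by omega, ?_⟩
      intro a ha
      rw [he a] at ha
      split_ifs at ha with h1 h2
      · tauto
      · tauto
      · omega
    · refine ⟨on.pos (by simp), on.pos (by simp), ?_, ?_⟩
      · refine five_of (a := w) (b := x) (d := x') (f := w') (g := s) ?_ n1.symm n2.symm T.ne
          n6 ?_
        · rw [disjoint_left]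
          intro a ha hb
          simp only [mem_insert, mem_singleton] at ha hb
          rcases ha with rfl | rfl | rfl <;> rcases hb with hb | hb
          · exact hww hb
          · exact n5 hb
          · exact n3 hb.symm
          · exact n7 hb
          · exact n4 hb.symm
          · exact n8 hb
        · refine ⟨?_, ?_, ?_, ?_, ?_⟩ <;> exact on.pos (by simp)
      · intro a ha
        have := on.mem ha
        simp only [mem_insert, mem_singleton] at this
        exact this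
  obtain ⟨k1, k2, k3, k4⟩ := key
  refine ⟨⟨k3, ?_, ?_⟩, w, w', x, x', T.m, T'.m, tw, tw', hww, T.ne, T.cw, T'.cw, T.cx, T.cx',
    k1, k2⟩
  · intro a _ ta ha
    rcases k4 a ha with rfl | rfl | rfl | rfl | rfl
    · omega
    · omega
    · exact ⟨w, d1, k1⟩
    · exact ⟨w, d2, k1⟩
    · omega
  · intro a ha ta h
    exfalso
    rcases k4 a h with rfl | rfl | rfl | rfl | rfl
    · exact absurd ha (disjoint_left.1 W.d3 T.m)
    · exact absurd ha (disjoint_left.1 W.d3 T'.m)
    · exact absurd ha (disjoint_left.1 W.d3 m1)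
    · exact absurd ha (disjoint_left.1 W.d3 m2)
    · exact absurd sV (disjoint_left.1 W.d2 ha)

theorem FlpF.ex (W : Two c c' t t' V Sd Sd' psi) (h : FlpF c c' t t' Sd Sd' e) :
    Ex5 c c' t t' Sd Sd' e ∧
      (∀ x ∈ Sd, ∀ x' ∈ Sd, t x = 1 → t x' = 1 → 0 < e x → 0 < e x' → x = x') ∧
      (∀ x ∈ Sd', ∀ x' ∈ Sd', t' x = 1 → t' x' = 1 → 0 < e x → 0 < e x' → x = x') := by
  obtain ⟨p, y, p', u, s, T, T', hs, on⟩ := h
  obtain ⟨n1, u1, f1⟩ := T.facts W.s1
  obtain ⟨n1', u1', f1'⟩ := T'.facts W.s2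
  have tp := T.tp
  have tp' := T'.tp
  have hsy : s ∈ c y ∩ c' u := by rw [hs]; exact mem_singleton_self _
  rw [mem_inter] at hsy
  have sV : s ∈ V := by
    obtain ⟨a1, a2⟩ := W.s1.cin y n1 s hsy.1
    rcases a1 with h | h
    · have := W.s1.tS s h
      omega
    · exact h
  have ts := W.s1.tV s sV
  have ts' := W.s2.tV s sV
  have hne : ∀ a b : P, t a ≠ t b → a ≠ b := fun a b h h' => h (congrArg t h')
  have hne' : ∀ a b : P, t' a ≠ t' b → a ≠ b := fun a b h h' => h (congrArg t' h')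
  have hside : ∀ a ∈ Sd, 0 < e a → a = p ∨ a = y := by
    intro a ha h
    have := on.mem h
    simp only [mem_insert, mem_singleton] at this
    rcases this with h | h | rfl | rfl | rfl
    · exact Or.inl h
    · exact Or.inr h
    · exact absurd sV (disjoint_left.1 W.d1 ha)
    · exact absurd n1' (disjoint_left.1 W.d3 ha)
    · exact absurd T'.m (disjoint_left.1 W.d3 ha)
  have hside' : ∀ a ∈ Sd', 0 < e a → a = p' ∨ a = u := by
    intro a ha h
    have := on.mem h
    simp only [mem_insert, mem_singleton] at this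
    rcases this with rfl | rfl | rfl | h | h
    · exact absurd ha (disjoint_left.1 W.d3 T.m)
    · exact absurd ha (disjoint_left.1 W.d3 n1)
    · exact absurd sV (disjoint_left.1 W.d2 ha)
    · exact Or.inr h
    · exact Or.inl h
  refine ⟨⟨?_, ?_, ?_⟩, ?_, ?_⟩
  · refine five_of (a := p) (b := y) (d := s) (f := u) (g := p') ?_
      (hne _ _ (by omega)) (hne _ _ (by omega)) (hne _ _ (by omega)) (hne' _ _ (by omega)) ?_
    · rw [disjoint_left]
      intro a ha hb
      simp only [mem_insert, mem_singleton] at ha hb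
      have h1 : a ∈ Sd' := by
        rcases hb with rfl | rfl
        · exact n1'
        · exact T'.m
      rcases ha with rfl | rfl | rfl
      · exact (disjoint_left.1 W.d3 T.m) h1
      · exact (disjoint_left.1 W.d3 n1) h1
      · exact (disjoint_left.1 W.d2 h1) sV
    · refine ⟨?_, ?_, ?_, ?_, ?_⟩ <;> exact on.pos (by simp)
  · intro a ha ta h
    rcases hside a ha h with rfl | rfl
    · omega
    · exact ⟨p, f1, on.pos (by simp)⟩
  · intro a ha ta h
    rcases hside' a ha h with rfl | rfl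
    · omega
    · exact ⟨p', f1', on.pos (by simp)⟩
  · intro a ha b hb ta tb h h'
    rcases hside a ha h with rfl | rfl <;> rcases hside b hb h' with rfl | rfl
    · rfl
    · omega
    · omega
    · rfl
  · intro a ha b hb ta tb h h'
    rcases hside' a ha h with rfl | rfl <;> rcases hside' b hb h' with rfl | rfl
    · rfl
    · omega
    · omega
    · rfl

end abstract

section concrete

open Pool.Agent.GaussPoset.Win.I2 (lS uS mem_lS mem_uS)
open Pool.Agent.GaussPoset.Win.So (TogL TogU RefL RefU RefD TgP spt_pa asm_N asm_R J ZC_sub be_sum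
  ZC_dvd2)

variable {P : Type u} [Fintype P] [PartialOrder P] [DecidableEq P] {r i : ℕ} {psi : P → P}
  {e : P → ℕ} {C : Finset P} {w s w1 s1 y p u p' : P}

/-- the special classes are invariant under toggles -/
lemma K1.tg (H : Gr P r) (T : TgP i e w s) (h : K1 i (So.tg w s e)) : K1 i e := by
  have ls := T.ls H
  have k1 : ∀ z, lev z ≠ i → (1 ≤ So.tg w s e z ↔ 1 ≤ e z) := fun z hz => by
    have := T.pos (z := z) (by rintro rfl; exact hz ls)
    omega
  rcases h with ⟨a, a', x, x', h1, h2, h3, h4, h5, h6, h7, h8, h9, h10, h11, h12⟩ |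
    ⟨p, y, p', u, s', h1, h2, h3, h4, h5⟩
  · have l1 := mem_lS.1 h1
    have l2 := mem_lS.1 h2
    exact Or.inl ⟨a, a', x, x', h1, h2, h3, h4, h5, h6, h7, h8, h9, h10,
      (k1 a (by omega)).1 h11, (k1 a' (by omega)).1 h12⟩
  · have l1 := mem_lS.1 h1.m
    have l2 := mem_uS.1 h2.m
    exact Or.inr ⟨p, y, p', u, s', h1, h2, (k1 p (by omega)).1 h3, (k1 p' (by omega)).1 h4, h5⟩

lemma PS5.unique (Q : PS5 r i psi C) (hs : Spt C e) (h : ¬ K1 i e) (hE : ∑ x, e x ≤ 6)
    (T : TgP i e w s) (T1 : TgP i e w1 s1) : w1 = w ∧ s1 = s := by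
  refine tgp_unique Q.H hE ?_ ?_ T T1
  · intro w w' x x' a1 a2 a3 a4 a5 a6 a7 a8
    by_contra hne
    have l1 := lev_uc Q.H (x := w) (v := x) (by rw [a3]; exact mem_insert_self _ _)
    have l2 := lev_uc Q.H (x := w') (v := x) (by rw [a4]; exact mem_insert_self _ _)
    exact h (Or.inl ⟨w, w', x, x', (lS_two a1).1, (lS_two (by omega)).1, (lS_two a1).2,
      (lS_two (by omega)).2, hne, a2, a3, a4, a5, a6, a7, a8⟩)
  · intro w w' x x' a1 a2 a3 a4 a5 a6 a7 a8
    exact Q.ncu w (mem_of_spt hs a7) w' (mem_of_spt hs a8) x x' a1 a2 a3 a4 a5 a6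

/-- CLASSIFICATION for the cores of a general part, energy at most five -/
theorem PS5.cls' (Q : PS5 r i psi C) (hs : Spt C e) (hc : IsCore i ∅ psi e)
    (hE : ∑ x, e x ≤ 5) :
    Cheap 1 i e ∨ (K1 i e ∧ (Clx i e ∨ Flx i e)) ∨
      (¬ K1 i e ∧ Cheap 2 i e ∧ ∃ w s, TgP i e w s) ∨
      (AdmL i e ∧ AdmU i e ∧ Disjoint (AL i e) (AU i e) ∧ ¬ K1 i e ∧
        LO5 uc dc (tL (P := P) i) (tU i) (lS P i) (uS P i) e) := by
  classical
  by_cases hA : AdmL i e
  swap
  · exact Or.inl (Or.inl hA)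
  by_cases hB : AdmU i e
  swap
  · exact Or.inl (Or.inr (Or.inl hB))
  by_cases hd : Disjoint (AL i e) (AU i e)
  swap
  · exact Or.inl (Or.inr (Or.inr (Or.inl hd)))
  have hir := Q.hi2
  have hcf := cfg_of Q.H Q.hi2 Q.hM hc hA hB hd
  by_cases hK : K1 i e
  · rcases hK with hK | ⟨p, y, p', u, s, g1, g2, g3, g4, g5⟩
    · rcases clo5 Q.two hcf hE hK with h | h
      · exact Or.inl (cheap_of h)
      · exact Or.inr (Or.inl ⟨Or.inl hK, Or.inl h⟩)
    · have h := flip5 Q.two hcf hE g1 g2 g3 g4 g5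
      exact Or.inr (Or.inl ⟨Or.inr ⟨p, y, p', u, s, g1, g2, g3, g4, g5⟩,
        Or.inr ⟨p, y, p', u, s, g1, g2, g5, h⟩⟩)
  rcases classify Q.two hcf (Q.pdx hs) (Q.pux hs) (by omega) with
    h | h | h | h | h | h | h
  · exact Or.inl (cheap_of h)
  · exact absurd (Or.inl h) hK
  · exact absurd h (Q.noCloU hs)
  · obtain ⟨p, y, p', u, h1, h2, h3, h4, h5⟩ := h
    obtain ⟨g1, g2, g3, g4, g5⟩ := pen_low Q.H h1
    obtain ⟨k1, k2, k3, k4, k5⟩ := pen_up Q.H h2
    rcases Q.fl p (mem_of_spt hs h3) p' (mem_of_spt hs h4) y u g1 k1 g4 k4 with h6 | ⟨s, h6⟩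
    · exact absurd h6 h5
    · exact absurd (Or.inr ⟨p, y, p', u, s, h1, h2, h3, h4, h6⟩) hK
  · right; right; left
    refine ⟨hK, cheap_of h.1, ?_⟩
    rcases h.2 with ⟨w, x, x', s, T⟩ | ⟨w, x, x', s, T⟩
    · obtain ⟨a, b, h1, h2⟩ := togL_of Q.H Q.hM T
      exact ⟨w, s, Or.inl ⟨x, x', a, b, h1, h2⟩⟩
    · obtain ⟨a, b, h1, h2⟩ := togU_of Q.H Q.hM T
      exact ⟨w, s, Or.inr ⟨x, x', a, b, h1, h2⟩⟩
  · right; right; right
    exact ⟨hA, hB, hd, hK, h.2 hE⟩
  · exfalso
    have := (LO6.ex Q.two h).E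
    omega

/-- the remaining class at energy five -/
def D5 (i : ℕ) (psi : P → P) (e : P → ℕ) : Prop :=
  IsCore i ∅ psi e ∧ ¬ Cheap 1 i e ∧ (¬ K1 i e → ∀ w s, ¬ TgP i e w s)

/-- the remaining class at energy five, explicitly -/
theorem D5.cases (Q : PS5 r i psi C) (hs : Spt C e) (hE : ∑ x, e x ≤ 5) (h : D5 i psi e) :
    (K1 i e ∧ (Clx i e ∨ Flx i e)) ∨
      (AdmL i e ∧ AdmU i e ∧ Disjoint (AL i e) (AU i e) ∧ ¬ K1 i e ∧
        LO5 uc dc (tL (P := P) i) (tU i) (lS P i) (uS P i) e) := by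
  obtain ⟨h1, h2, h3⟩ := h
  rcases Q.cls' hs h1 hE with h | h | h | h
  · exact absurd h h2
  · exact Or.inl h
  · obtain ⟨a1, -, w, s, T⟩ := h
    exact absurd T (h3 a1 w s)
  · exact Or.inr h

/-- the explicit configurations have energy five -/
lemma D5.five (Q : PS5 r i psi C) (hs : Spt C e) (h : D5 i psi e) : 5 ≤ ∑ x, e x := by
  by_contra hlt
  rcases h.cases Q hs (by omega) with ⟨-, h | h⟩ | h
  · have := (CloF.ex Q.two (show CloF uc (tL (P := P) i) (lS P i) e from h)).1.E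
    omega
  · have := (FlpF.ex Q.two
      (show FlpF uc dc (tL (P := P) i) (tU i) (lS P i) (uS P i) e from h)).1.E
    omega
  · have := (LO5.ex Q.two h.2.2.2.2).1.E
    omega

open Classical in
theorem PS5.level (Q : PS5 r i psi C) {q : ℕ} (hq : q ≤ 5) (m : ℕ) :
    dd ^ ((st i C).card - 1) ∣
      ∑ e ∈ (C.piAntidiag q).filter (IsCore i ∅ psi), J i psi C m e -
        ∑ e ∈ (C.piAntidiag q).filter (D5 i psi), J i psi C m e := by
  have hsum : ∀ e ∈ C.piAntidiag q, ∑ x, e x = q := fun e he => by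
    rw [I2.mem_pa] at he
    exact he.1
  have h1 := asm_N Q.H Q.hi Q.hi2 Q.hM Q.hC (q := q) m
    (fun _ => True) (fun e => ¬ K1 i e) (D5 i psi)
    (fun _ _ _ _ _ => trivial)
    (fun _ _ _ T h h' => h (K1.tg Q.H T h'))
    (fun e he _ _ hn w s w1 s1 T T1 =>
      Q.unique (spt_pa he) hn (by rw [hsum e he]; omega) T T1)
    (fun e he hc _ hn w s T => by
      rcases Q.cls' (spt_pa he) hc (by rw [hsum e he]; exact hq) with h | h | h | h
      · exact Cheap.mono (by omega) h
      · exact absurd h.1 hn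
      · exact h.2.1
      · obtain ⟨h1, h2, h3⟩ := LO5.ex Q.two h.2.2.2.2
        exact absurd T (no_tgp Q.H h2 (Fin1.on h3 h1.f) (Fin1.on h3 h1.g)))
    (fun e he hc _ ht hL => by
      by_contra hch
      exact hL ⟨hc, hch, ht⟩)
    (fun e he hL => ⟨hL.1, trivial, hL.2.2⟩)
  simp only [and_true] at h1
  exact h1

open Classical in
/-- ASSEMBLY (A5) -/
theorem PS5.main (Q : PS5 r i psi C) {n : ℕ} (hn : n ≤ 5) :
    dd ^ ((st i C).card - 1) ∣ ZC i C n -
      ∑ e ∈ (C.piAntidiag n).filter (D5 i psi), tC i C e := by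
  have hi2 := Q.hi2
  refine ZC_sub (psi := psi) Q.H (by omega) Q.hC.pred _ ?_ ?_
  · intro q hq e he hL
    have h1 := hL.five Q (spt_pa he)
    rw [I2.mem_pa] at he
    omega
  · intro q hq
    exact Q.level (by omega) _

/-- energies up to four -/
theorem PS5.le_four (Q : PS5 r i psi C) {n : ℕ} (hn : n ≤ 4) :
    dd ^ ((st i C).card - 1) ∣ ZC i C n := by
  classical
  have h := Q.main (n := n) (by omega)
  rw [Finset.filter_eq_empty_iff.2, Finset.sum_empty, sub_zero] at h
  · exact h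
  · intro e he hL
    have h1 := hL.five Q (spt_pa he)
    rw [I2.mem_pa] at he
    omega

open Classical in
theorem PS5.be_five (Q : PS5 r i psi C) (hb : 1 ≤ (st i C).card) :
    I2.be 5 (st i C).card (ZS i C) =
      ∑ e ∈ (C.piAntidiag 5).filter (D5 i psi),
        PowerSeries.coeff (st i C).card (dd ^ 2 * tC i C e : A) :=
  be_sum _ hb (Q.main le_rfl)

theorem PS5.dvd_five (Q : PS5 r i psi C)
    (h2 : ∀ e ∈ C.piAntidiag 5, D5 i psi e → dd ^ ((st i C).card - 2) ∣ tC i C e) :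
    dd ^ ((st i C).card - 2) ∣ ZC i C 5 := by
  classical
  exact ZC_dvd2 _ (Q.main le_rfl) h2

/-! ### the negative form at energy six -/

/-- the remaining class at energy six -/
def D6 (r i : ℕ) (psi : P → P) (C : Finset P) (e : P → ℕ) : Prop :=
  IsCore i ∅ psi e ∧ ¬ Cheap 1 i e ∧ (∀ w s, ¬ TgP i e w s) ∧
    ¬ ∃ y p u p', p ∈ C ∧ p' ∈ C ∧ psi y = u ∧ RefD r i y p u p' ∧
      (RefL e y p u p' ∨ RefU e y p u p')

/-- the remaining class at energy six, explicitly -/
theorem D6.cases (Q : PS6 r i psi C) (hs : Spt C e) (hE : ∑ x, e x ≤ 6) (h : D6 r i psi C e) :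
    AdmL i e ∧ AdmU i e ∧ Disjoint (AL i e) (AU i e) ∧
      LO6 uc dc (tL (P := P) i) (tU i) (lS P i) (uS P i) e := by
  obtain ⟨h1, h2, h3, h4⟩ := h
  rcases Q.cls hs h1 hE with h | h | h | h
  · exact absurd h h2
  · exfalso
    rcases h.2 with ⟨w, x, x', a, s, b, T, hab⟩ | ⟨w, x, x', a, s, b, T, hab⟩
    · exact h3 w s (Or.inl ⟨x, x', a, b, T, hab⟩)
    · exact h3 w s (Or.inr ⟨x, x', a, b, T, hab⟩)
  · exact absurd h h4
  · exact h

/-- the two forms of the list of energy six differ by cheap configurations -/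
theorem LO6.D6 (Q : PS6 r i psi C)
    (h : LO6 uc dc (tL (P := P) i) (tU i) (lS P i) (uS P i) e) (hch : ¬ Cheap 1 i e) :
    SO.D6 r i psi C e := by
  have h5 := LO6.ex Q.two h
  refine ⟨core_of_f1 Q.H h5.a1.f1 h5.b1.f1, hch, fun w s => no_tgp Q.H h5.v0 h5.a1 h5.b1, ?_⟩
  rintro ⟨y, p, u, p', -, -, -, D, h6 | h6⟩
  · exact no_refL Q.H D h5.a2 h6
  · exact no_refU Q.H D h5.b2 h6

/-- cheap configurations do not count -/
lemma cheap_tC (Q : PSO r i psi C) (hs : Spt C e) (hch : Cheap 1 i e) :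
    dd ^ ((st i C).card - 1) ∣ tC i C e := by
  rw [← So.IV_Fe Q.H Q.hC.pred hs]
  exact So.Rk_IV (So.Rk_sub (So.st_sub i C) (Rk_of_cheap hch))

open Classical in
/-- ASSEMBLY (A6), negative form -/
theorem PS6.mainD (Q : PS6 r i psi C) {n : ℕ} (hn : n ≤ 6) :
    dd ^ ((st i C).card - 1) ∣ ZC i C n -
      ∑ e ∈ (C.piAntidiag n).filter (D6 r i psi C), tC i C e := by
  have h := Q.main hn
  have h1 : ∑ e ∈ (C.piAntidiag n).filter
      (LO6 uc dc (tL (P := P) i) (tU i) (lS P i) (uS P i)), tC i C e =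
      ∑ e ∈ ((C.piAntidiag n).filter
        (LO6 uc dc (tL (P := P) i) (tU i) (lS P i) (uS P i))).filter (Cheap 1 i), tC i C e +
      ∑ e ∈ (C.piAntidiag n).filter (D6 r i psi C), tC i C e := by
    rw [← Finset.sum_filter_add_sum_filter_not _ (Cheap 1 i)]
    congr 1
    refine Finset.sum_congr ?_ fun _ _ => rfl
    ext e
    rw [mem_filter, mem_filter, mem_filter]
    constructor
    · rintro ⟨⟨a1, a2⟩, a3⟩
      exact ⟨a1, a2.D6 Q a3⟩
    · rintro ⟨a1, a2⟩
      refine ⟨⟨a1, ?_⟩, a2.2.1⟩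
      refine (a2.cases Q (spt_pa a1) ?_).2.2.2
      rw [I2.mem_pa] at a1
      omega
  have h2 : dd ^ ((st i C).card - 1) ∣ ∑ e ∈ ((C.piAntidiag n).filter
        (LO6 uc dc (tL (P := P) i) (tU i) (lS P i) (uS P i))).filter (Cheap 1 i),
          tC i C e := by
    refine Finset.dvd_sum fun e he => ?_
    obtain ⟨a1, a2⟩ := mem_filter.1 he
    exact cheap_tC Q.toPSO (spt_pa (mem_filter.1 a1).1) a2
  rw [h1] at h
  have h3 := dvd_add h h2
  convert h3 using 1
  ring

open Classical in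
theorem PS6.be_sixD (Q : PS6 r i psi C) (hb : 1 ≤ (st i C).card) :
    I2.be 6 (st i C).card (ZS i C) =
      ∑ e ∈ (C.piAntidiag 6).filter (D6 r i psi C),
        PowerSeries.coeff (st i C).card (dd ^ 2 * tC i C e : A) :=
  be_sum _ hb (Q.mainD le_rfl)

theorem PS6.dvd_sixD (Q : PS6 r i psi C)
    (h2 : ∀ e ∈ C.piAntidiag 6, D6 r i psi C e → dd ^ ((st i C).card - 2) ∣ tC i C e) :
    dd ^ ((st i C).card - 2) ∣ ZC i C 6 := by
  classical
  exact ZC_dvd2 _ (Q.mainD le_rfl) h2

end concrete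

end Pool.Agent.GaussPoset.Win.SO
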