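import Pool.Agent.W_448so_h17.AsD

/-!
S9, row 476, ASSEMBLY at energy six (`PS6`): the window sums of a part without closed pair and
without flip.
-/

namespace Pool.Agent.GaussPoset.Win.SO

set_option linter.unusedSectionVars false

open Finset
open Pool.Agent.GaussPoset.Win.I2 (lS uS mem_lS mem_uS)
open Pool.Agent.GaussPoset.Win.So

universe u

variable {P : Type u} [Fintype P] [PartialOrder P] [DecidableEq P] {r i : ℕ} {psi : P → P}
  {e : P → ℕ} {C : Finset P} {w s w1 s1 y p u p' : P}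

lemma lS_one {x : P} (h : lev x = i + 1) : x ∈ lS P i ∧ tL i x = 1 := by
  refine ⟨mem_lS.2 (by omega), ?_⟩
  unfold tL
  omega

lemma lS_two {x : P} (h : lev x = i + 2) : x ∈ lS P i ∧ tL i x = 2 := by
  refine ⟨mem_lS.2 (by omega), ?_⟩
  unfold tL
  omega

lemma uS_one {x : P} (h : lev x + 1 = i) : x ∈ uS P i ∧ tU i x = 1 := by
  refine ⟨mem_uS.2 (by omega), ?_⟩
  unfold tU
  omega

lemma uS_two {x : P} (h : lev x + 2 = i) : x ∈ uS P i ∧ tU i x = 2 := by
  refine ⟨mem_uS.2 (by omega), ?_⟩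
  unfold tU
  omega

/-- configurations with touched near elements are cores -/
lemma core_of_f1 (H : Gr P r)
    (h1 : ∀ x ∈ lS P i, tL i x = 1 → 0 < e x → ∃ z ∈ dc x, 0 < e z)
    (h2 : ∀ x ∈ uS P i, tU i x = 1 → 0 < e x → ∃ z ∈ uc x, 0 < e z) :
    IsCore i ∅ psi e := by
  intro x hx
  obtain ⟨a1, -, a3, -⟩ := mem_Rst.1 hx
  by_contra h
  apply a3
  rw [mem_Tch]
  rcases mem_near.1 a1 with h3 | h3
  · obtain ⟨z, hz, hz'⟩ := h1 x (lS_one h3).1 (lS_one h3).2 (by omega)
    exact Or.inl ⟨h3, z, mem_dc.1 hz, hz'⟩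
  · obtain ⟨z, hz, hz'⟩ := h2 x (uS_one h3).1 (uS_one h3).2 (by omega)
    exact Or.inr ⟨h3, z, mem_uc.1 hz, hz'⟩

/-- no toggle if the sites have label zero and the labels at distance two are small -/
lemma no_tgp (H : Gr P r) (v0 : ∀ v ∈ lv P i, e v = 0)
    (h1 : Fin1 uc dc (tL (P := P) i) (lS P i) e) (h2 : Fin1 dc uc (tU (P := P) i) (uS P i) e) :
    ¬ TgP i e w s := by
  rintro (⟨x, x', a, c, T, -⟩ | ⟨x, x', a, c, T, -⟩)
  · have h3 := v0 s (mem_lv.2 (T.ls H))
    have h4 := T.st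
    have h5 := T.hx
    have h6 := T.hx'
    obtain ⟨z, hz, hz'⟩ := h1.f2 w (lS_two T.lw).1 (lS_two T.lw).2 (by omega)
    have h7 := T.cw z (mem_dc.1 hz)
    omega
  · have h3 := v0 s (mem_lv.2 (T.ls H))
    have h4 := T.st
    have h5 := T.hx
    have h6 := T.hx'
    obtain ⟨z, hz, hz'⟩ := h2.f2 w (uS_two T.lw).1 (uS_two T.lw).2 (by omega)
    have h7 := T.cw z (mem_uc.1 hz)
    omega

lemma no_refL (H : Gr P r) (D : RefD r i y p u p')
    (h1 : Fin2 uc dc (tL (P := P) i) (lS P i) e) : ¬ RefL e y p u p' := by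
  intro R
  have lp := D.lp H
  obtain ⟨z, hz, hz'⟩ := h1 p (lS_two lp).1 (lS_two lp).2
    (by rw [D.cp]; exact card_singleton _) R.hp
  have := R.chp z (mem_dc.1 hz)
  omega

lemma no_refU (H : Gr P r) (D : RefD r i y p u p')
    (h1 : Fin2 dc uc (tU (P := P) i) (uS P i) e) : ¬ RefU e y p u p' := by
  intro R
  have lp := D.lp' H
  obtain ⟨z, hz, hz'⟩ := h1 p' (uS_two lp).1 (uS_two lp).2
    (by rw [D.dp]; exact card_singleton _) R.hp
  have := R.abp z (mem_uc.1 hz)
  omega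

/-! ### uniqueness of the toggles -/

lemma togL_site {x x' a c x1 x1' a1 c1 : P} (T : TogL i e w x x' a s c) (h : a ≠ c)
    (T1 : TogL i e w1 x1 x1' a1 s1 c1) (hx : ({x, x'} : Finset P) = {x1, x1'}) : s1 = s := by
  have h1 : s1 ∈ uc x1 := by rw [T1.ux]; exact mem_insert_of_mem (mem_singleton_self _)
  have h2 : s1 ∈ uc x1' := by rw [T1.ux']; exact mem_insert_self _ _
  have h3 : s1 ∈ uc x ∧ s1 ∈ uc x' := by
    have e1 : x1 ∈ ({x, x'} : Finset P) := by rw [hx]; exact mem_insert_self _ _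
    have e2 : x1' ∈ ({x, x'} : Finset P) := by
      rw [hx]; exact mem_insert_of_mem (mem_singleton_self _)
    rw [mem_insert, mem_singleton] at e1 e2
    have e3 := T1.xx'
    rcases e1 with rfl | rfl <;> rcases e2 with rfl | rfl
    · exact absurd rfl e3
    · exact ⟨h1, h2⟩
    · exact ⟨h2, h1⟩
    · exact absurd rfl e3
  rw [T.ux, T.ux', mem_insert, mem_singleton, mem_insert, mem_singleton] at h3
  obtain ⟨h4 | h4, h5 | h5⟩ := h3
  · exact h5
  · exact absurd (h4.symm.trans h5) h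
  · exact h4
  · exact h4

lemma togU_site {x x' a c x1 x1' a1 c1 : P} (T : TogU i e w x x' a s c) (h : a ≠ c)
    (T1 : TogU i e w1 x1 x1' a1 s1 c1) (hx : ({x, x'} : Finset P) = {x1, x1'}) : s1 = s := by
  have h1 : s1 ∈ dc x1 := by rw [T1.ux]; exact mem_insert_of_mem (mem_singleton_self _)
  have h2 : s1 ∈ dc x1' := by rw [T1.ux']; exact mem_insert_self _ _
  have h3 : s1 ∈ dc x ∧ s1 ∈ dc x' := by
    have e1 : x1 ∈ ({x, x'} : Finset P) := by rw [hx]; exact mem_insert_self _ _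
    have e2 : x1' ∈ ({x, x'} : Finset P) := by
      rw [hx]; exact mem_insert_of_mem (mem_singleton_self _)
    rw [mem_insert, mem_singleton] at e1 e2
    have e3 := T1.xx'
    rcases e1 with rfl | rfl <;> rcases e2 with rfl | rfl
    · exact absurd rfl e3
    · exact ⟨h1, h2⟩
    · exact ⟨h2, h1⟩
    · exact absurd rfl e3
  rw [T.ux, T.ux', mem_insert, mem_singleton, mem_insert, mem_singleton] at h3
  obtain ⟨h4 | h4, h5 | h5⟩ := h3
  · exact h5
  · exact absurd (h4.symm.trans h5) h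
  · exact h4
  · exact h4

/-- two toggles at energy at most six: the same, or a closed pair -/
theorem tgp_unique (H : Gr P r) (hE : ∑ x, e x ≤ 6)
    (h1 : ∀ w w' x x', lev w = i + 2 → x ≠ x' → uc w = {x, x'} → uc w' = {x, x'} →
      (uc x).card = 2 → (uc x').card = 2 → 0 < e w → 0 < e w' → w = w')
    (h2 : ∀ w w' x x', lev w + 2 = i → x ≠ x' → dc w = {x, x'} → dc w' = {x, x'} →
      (dc x).card = 2 → (dc x').card = 2 → 0 < e w → 0 < e w' → w = w')
    (T : TgP i e w s) (T1 : TgP i e w1 s1) : w1 = w ∧ s1 = s := by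
  rcases T with ⟨x, x', a, c, T, hac⟩ | ⟨x, x', a, c, T, hac⟩ <;>
    rcases T1 with ⟨x1, x1', a1, c1, T1, hac1⟩ | ⟨x1, x1', a1, c1, T1, hac1⟩
  · have hw : w = w1 := by
      rcases togL_unique H hE T T1 with h | h
      · exact h
      · refine h1 w w1 x x' T.lw T.xx' T.uw (by rw [T1.uw, h]) ?_ ?_ T.hw T1.hw
        · rw [T.ux, card_pair T.as]
        · rw [T.ux', card_pair T.sc]
    subst hw
    refine ⟨rfl, togL_site T hac T1 ?_⟩
    rw [← T.uw, ← T1.uw]
  · exact (togLU H hE T T1).elim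
  · exact (togLU H hE T1 T).elim
  · have hw : w = w1 := by
      rcases togU_unique H hE T T1 with h | h
      · exact h
      · refine h2 w w1 x x' T.lw T.xx' T.uw (by rw [T1.uw, h]) ?_ ?_ T.hw T1.hw
        · rw [T.ux, card_pair T.as]
        · rw [T.ux', card_pair T.sc]
    subst hw
    refine ⟨rfl, togU_site T hac T1 ?_⟩
    rw [← T.uw, ← T1.uw]

theorem PS6.unique (Q : PS6 r i psi C) (hs : Spt C e) (hE : ∑ x, e x ≤ 6)
    (T : TgP i e w s) (T1 : TgP i e w1 s1) : w1 = w ∧ s1 = s := by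
  refine tgp_unique Q.H hE ?_ ?_ T T1
  · intro w w' x x' a1 a2 a3 a4 a5 a6 a7 a8
    exact Q.ncl w (mem_of_spt hs a7) w' (mem_of_spt hs a8) x x' a1 a2 a3 a4 a5 a6
  · intro w w' x x' a1 a2 a3 a4 a5 a6 a7 a8
    exact Q.ncu w (mem_of_spt hs a7) w' (mem_of_spt hs a8) x x' a1 a2 a3 a4 a5 a6

/-! ### the reduced configuration -/

lemma RefD.pd (H : Gr P r) (D : RefD r i y p u p') : p ∈ PD P i :=
  mem_PD.2 ⟨D.lp H, by rw [D.cp]; exact card_singleton _, y, D.py, D.two⟩

lemma RefD.pu (H : Gr P r) (D : RefD r i y p u p') : p' ∈ PU P i :=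
  mem_PU.2 ⟨D.lp' H, by rw [D.dp]; exact card_singleton _, u, D.up, by rw [D.yu]; exact D.two⟩

/-- the reflection data of a part are unique -/
lemma PS6.ref_unique (Q : PS6 r i psi C) (D : RefD r i y p u p') (hpC : p ∈ C) (hpC' : p' ∈ C)
    {y1 p1 u1 p1' : P} (D1 : RefD r i y1 p1 u1 p1') (h1 : p1 ∈ C) (h1' : p1' ∈ C) :
    y1 = y ∧ p1 = p ∧ u1 = u ∧ p1' = p' := by
  have e1 : p1 = p := Q.pd p1 h1 p hpC (RefD.pd Q.H D1) (RefD.pd Q.H D)
  have e2 : p1' = p' := Q.pu p1' h1' p' hpC' (RefD.pu Q.H D1) (RefD.pu Q.H D)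
  subst e1
  subst e2
  refine ⟨?_, rfl, ?_, rfl⟩
  · have := D1.cp
    rw [D.cp, singleton_inj] at this
    exact this.symm
  · have := D1.dp
    rw [D.dp, singleton_inj] at this
    exact this.symm

theorem PS6.c4 (Q : PS6 r i psi C) (D : RefD r i y p u p') (hp : psi y = u)
    (hpC : p ∈ C) (hpC' : p' ∈ C) (R : RefL e y p u p') (hs : Spt C e)
    (hc : IsCore i ∅ psi e) (hE : ∑ x, e x ≤ 6) :
    Cheap 1 i (red y p e) ∨ (Cheap 2 i (red y p e) ∧ ∃ w s, TgP i (red y p e) w s) := by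
  have hpy : y ≠ p := D.py.lt.ne'
  have r1 : red y p e y = 0 := by
    unfold red
    exact up2_y _ _ _ _ _
  have r2 : red y p e p = 0 := by
    unfold red
    exact up2_p D.py.lt.ne _ _ _
  have hlt : ∑ x, red y p e x < ∑ x, e x := by
    apply Finset.sum_lt_sum
    · exact fun x _ => red_le y p e x
    · refine ⟨p, mem_univ _, ?_⟩
      rw [r2]
      exact R.hp
  rcases Q.cls (spt_red hs y p) (R.red_core Q.H D Q.hM hp hc) (by omega) with
    h | h | h | h
  · exact Or.inl h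
  · refine Or.inr ⟨h.1, ?_⟩
    rcases h.2 with ⟨w, x, x', a, s, b, T, hab⟩ | ⟨w, x, x', a, s, b, T, hab⟩
    · exact ⟨w, s, Or.inl ⟨x, x', a, b, T, hab⟩⟩
    · exact ⟨w, s, Or.inr ⟨x, x', a, b, T, hab⟩⟩
  · exfalso
    obtain ⟨y1, p1, u1, p1', h1, h1', -, D1, h3⟩ := h
    obtain ⟨rfl, rfl, rfl, rfl⟩ := Q.ref_unique D hpC hpC' D1 h1 h1'
    rcases h3 with h3 | h3
    · have := h3.hy
      omega
    · have h4 := h3.hu
      have h5 := red_le y1 p1 e u1
      have h6 := R.eu
      omega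
  · exfalso
    have := (LO6.ex Q.two h.2.2.2).E
    omega

/-! ### the sum over the cores -/

open Classical in
theorem PS6.level (Q : PS6 r i psi C) {q : ℕ} (hq : q ≤ 6) (m : ℕ) :
    dd ^ ((st i C).card - 1) ∣
      ∑ e ∈ (C.piAntidiag q).filter (IsCore i ∅ psi), J i psi C m e -
        ∑ e ∈ (C.piAntidiag q).filter
          (LO6 uc dc (tL (P := P) i) (tU i) (lS P i) (uS P i)), J i psi C m e := by
  have hsum : ∀ e ∈ C.piAntidiag q, ∑ x, e x = q := fun e he => by
    rw [I2.mem_pa] at he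
    exact he.1
  by_cases hD : ∃ y p u p', p ∈ C ∧ p' ∈ C ∧ psi y = u ∧ RefD r i y p u p'
  · obtain ⟨y, p, u, p', hpC, hpC', hp, D⟩ := hD
    rw [core_split (fun e => RefL e y p u p' ∨ RefU e y p u p')]
    have h1 := asm_N Q.H Q.hi Q.hi2 Q.hM Q.hC (q := q) m
      (fun e => ¬ (RefL e y p u p' ∨ RefU e y p u p')) (fun _ => True)
      (LO6 uc dc (tL (P := P) i) (tU i) (lS P i) (uS P i))
      (fun e w s T h => by
        rw [refL_tg Q.H D T, refU_tg Q.H D T]
        exact h)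
      (fun _ _ _ _ _ => trivial)
      (fun e he _ _ _ w s w1 s1 T T1 =>
        Q.unique (spt_pa he) (by rw [hsum e he]; exact hq) T T1)
      (fun e he hc hn _ w s T => by
        rcases Q.cls (spt_pa he) hc (by rw [hsum e he]; exact hq) with h | h | h | h
        · exact Cheap.mono (by omega) h
        · exact h.1
        · exfalso
          obtain ⟨y1, p1, u1, p1', h1, h1', -, D1, h3⟩ := h
          obtain ⟨rfl, rfl, rfl, rfl⟩ := Q.ref_unique D hpC hpC' D1 h1 h1'
          exact hn h3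
        · have h5 := LO6.ex Q.two h.2.2.2
          exact absurd T (no_tgp Q.H h5.v0 h5.a1 h5.b1))
      (fun e he hc hn ht hL => by
        rcases Q.cls (spt_pa he) hc (by rw [hsum e he]; exact hq) with h | h | h | h
        · exact h
        · exfalso
          rcases h.2 with ⟨w, x, x', a, s, b, T, hab⟩ | ⟨w, x, x', a, s, b, T, hab⟩
          · exact ht trivial w s (Or.inl ⟨x, x', a, b, T, hab⟩)
          · exact ht trivial w s (Or.inr ⟨x, x', a, b, T, hab⟩)
        · exfalso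
          obtain ⟨y1, p1, u1, p1', h1, h1', -, D1, h3⟩ := h
          obtain ⟨rfl, rfl, rfl, rfl⟩ := Q.ref_unique D hpC hpC' D1 h1 h1'
          exact hn h3
        · exact absurd h.2.2.2 hL)
      (fun e he hL => by
        have h5 := LO6.ex Q.two hL
        refine ⟨core_of_f1 Q.H h5.a1.f1 h5.b1.f1, ?_, fun _ w s => no_tgp Q.H h5.v0 h5.a1 h5.b1⟩
        rintro (h | h)
        · exact no_refL Q.H D h5.a2 h
        · exact no_refU Q.H D h5.b2 h)
    have h2 := asm_R Q.H Q.hi Q.hi2 Q.hM Q.hC D hp hpC hpC' (q := q) m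
      (fun e he hc R => Q.c4 D hp hpC hpC' R (spt_pa he) hc (by rw [hsum e he]; exact hq))
      (fun e he hc R w s w1 s1 T T1 => by
        refine Q.unique (spt_red (spt_pa he) y p) ?_ T T1
        have h3 : ∑ x, red y p e x ≤ ∑ x, e x :=
          Finset.sum_le_sum fun x _ => red_le y p e x
        rw [hsum e he] at h3
        omega)
    have h3 := dvd_add h1 h2
    convert h3 using 1
    rw [add_sub_right_comm]
    congr!
  · have h1 := asm_N Q.H Q.hi Q.hi2 Q.hM Q.hC (q := q) m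
      (fun _ => True) (fun _ => True)
      (LO6 uc dc (tL (P := P) i) (tU i) (lS P i) (uS P i))
      (fun _ _ _ _ _ => trivial)
      (fun _ _ _ _ _ => trivial)
      (fun e he _ _ _ w s w1 s1 T T1 =>
        Q.unique (spt_pa he) (by rw [hsum e he]; exact hq) T T1)
      (fun e he hc hn _ w s T => by
        rcases Q.cls (spt_pa he) hc (by rw [hsum e he]; exact hq) with h | h | h | h
        · exact Cheap.mono (by omega) h
        · exact h.1
        · exfalso
          obtain ⟨y1, p1, u1, p1', h1, h1', h2, D1, h3⟩ := h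
          exact hD ⟨y1, p1, u1, p1', h1, h1', h2, D1⟩
        · have h5 := LO6.ex Q.two h.2.2.2
          exact absurd T (no_tgp Q.H h5.v0 h5.a1 h5.b1))
      (fun e he hc hn ht hL => by
        rcases Q.cls (spt_pa he) hc (by rw [hsum e he]; exact hq) with h | h | h | h
        · exact h
        · exfalso
          rcases h.2 with ⟨w, x, x', a, s, b, T, hab⟩ | ⟨w, x, x', a, s, b, T, hab⟩
          · exact ht trivial w s (Or.inl ⟨x, x', a, b, T, hab⟩)
          · exact ht trivial w s (Or.inr ⟨x, x', a, b, T, hab⟩)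
        · exfalso
          obtain ⟨y1, p1, u1, p1', h1, h1', h2, D1, h3⟩ := h
          exact hD ⟨y1, p1, u1, p1', h1, h1', h2, D1⟩
        · exact absurd h.2.2.2 hL)
      (fun e he hL => by
        have h5 := LO6.ex Q.two hL
        exact ⟨core_of_f1 Q.H h5.a1.f1 h5.b1.f1, trivial,
          fun _ w s => no_tgp Q.H h5.v0 h5.a1 h5.b1⟩)
    simp only [and_true] at h1
    exact h1

open Classical in
/-- ASSEMBLY (A6) -/
theorem PS6.main (Q : PS6 r i psi C) {n : ℕ} (hn : n ≤ 6) :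
    dd ^ ((st i C).card - 1) ∣ ZC i C n -
      ∑ e ∈ (C.piAntidiag n).filter (LO6 uc dc (tL (P := P) i) (tU i) (lS P i) (uS P i)),
        tC i C e := by
  have hi2 := Q.hi2
  refine ZC_sub (psi := psi) Q.H (by omega) Q.hC.pred _ ?_ ?_
  · intro q hq e he hL
    rw [I2.mem_pa] at he
    have := (LO6.ex Q.two hL).E
    omega
  · intro q hq
    exact Q.level (by omega) _

/-- energies up to five -/
theorem PS6.le_five (Q : PS6 r i psi C) {n : ℕ} (hn : n ≤ 5) :
    dd ^ ((st i C).card - 1) ∣ ZC i C n := by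
  classical
  have h := Q.main (n := n) (by omega)
  rw [Finset.filter_eq_empty_iff.2, Finset.sum_empty, sub_zero] at h
  · exact h
  · intro e he hL
    rw [I2.mem_pa] at he
    have := (LO6.ex Q.two hL).E
    omega

open Classical in
theorem PS6.be_six (Q : PS6 r i psi C) (hb : 1 ≤ (st i C).card) :
    I2.be 6 (st i C).card (ZS i C) =
      ∑ e ∈ (C.piAntidiag 6).filter (LO6 uc dc (tL (P := P) i) (tU i) (lS P i) (uS P i)),
        PowerSeries.coeff (st i C).card (dd ^ 2 * tC i C e : A) :=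
  be_sum _ hb (Q.main le_rfl)

theorem PS6.dvd_six (Q : PS6 r i psi C)
    (h2 : ∀ e ∈ C.piAntidiag 6, LO6 uc dc (tL (P := P) i) (tU i) (lS P i) (uS P i) e →
      dd ^ ((st i C).card - 2) ∣ tC i C e) :
    dd ^ ((st i C).card - 2) ∣ ZC i C 6 := by
  classical
  exact ZC_dvd2 _ (Q.main le_rfl) h2

end Pool.Agent.GaussPoset.Win.SO
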