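import Pool.Agent.W_448so_h17.CrC

/-!
S9, cross part: sums over the configurations which excite an element outside the extended
components, the total identities (5,2), (6,2) at the window `i` with the components of `P_(≤ i+2)`.
-/

namespace Pool.Agent.GaussPoset.Win.So

set_option linter.unusedSectionVars false

open Finset I2

universe u

variable {P : Type u} [Fintype P] [PartialOrder P] [DecidableEq P] {r i l : ℕ}

variable {ι : Type*} [DecidableEq ι] {κ : P → ι} {e : P → ℕ} {psi : P → P}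

variable {v p p' : P}

open Classical in
/-- joins of the level `i + 3` with three elements of level `i + 1` and five sites above -/
noncomputable def N5s (i : ℕ) (κ : P → ι) : Finset P :=
  univ.filter (fun v => lev v = i + 3 ∧ v ∉ cuni (i + 2) κ ∧ up (i + 1) v = 3 ∧ up i v = 5)

lemma mem_N5s {v : P} : v ∈ N5s i κ ↔ lev v = i + 3 ∧ v ∉ cuni (i + 2) κ ∧ up (i + 1) v = 3 ∧
    up i v = 5 := by
  classical
  unfold N5s
  rw [mem_filter]
  simp

lemma eN_core (H : Gr P r) (hv : i + 1 < lev v) : IsCore i ∅ psi (eN i v) := by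
  apply isCore_of
  intro x hx h0
  have h1 : v ≤ x ∧ i < lev x := by
    by_contra h
    apply h0
    unfold eN
    rw [if_neg h]
  have h2 : lev x = i + 1 := by
    rcases mem_near.1 hx with h | h <;> omega
  rw [mem_Tch]
  left
  refine ⟨h2, ?_⟩
  obtain ⟨z, hz1, hz2, hz3⟩ := exists_mid H h1.1 (k := i + 2) (by omega) (by omega)
  have h3 : z < x := by
    refine lt_of_le_of_ne hz2 ?_
    rintro rfl
    omega
  refine ⟨z, H.covBy_iff.2 ⟨h3, by omega⟩, ?_⟩
  unfold eN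
  rw [if_pos ⟨hz1, by omega⟩]
  exact one_pos

lemma eN_sum (H : Gr P r) (hκ : Split (i + 2) κ) {v : P} (hv : v ∈ N5s i κ) :
    ∑ x, eN i v x = 6 := by
  classical
  obtain ⟨h1, h2, h3, h4⟩ := mem_N5s.1 hv
  obtain ⟨p, p', hk, huc⟩ := two_labels H hκ h2 (by omega)
  have D : CrV i κ v p p' := ⟨h1, huc, hk⟩
  have h5 : ∀ x, eN i v x = if x ∈ CrV.T v p p' then 1 else 0 := by
    intro x
    unfold eN
    by_cases hx : x ∈ CrV.T v p p'
    · rw [if_pos hx, if_pos ((D.T_iff H).1 hx)]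
    · rw [if_neg hx, if_neg (fun h => hx ((D.T_iff H).2 h))]
  rw [Finset.sum_congr rfl (fun x _ => h5 x), Finset.sum_ite_mem, univ_inter, Finset.sum_const,
    smul_eq_mul, mul_one, D.card_T H hκ, ← D.up1 H hκ, h3]

lemma eN_inj {v v' : P} (h1 : lev v = lev v') (hi : i < lev v) (h : eN i v = eN i v') :
    v = v' := by
  classical
  have h2 : eN i v' v = 1 := by
    rw [← h]
    unfold eN
    rw [if_pos ⟨le_rfl, hi⟩]
  have h3 : v' ≤ v ∧ i < lev v := by
    unfold eN at h2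
    by_contra h3
    rw [if_neg h3] at h2
    omega
  by_contra hne
  have := lev_strictAnti (lt_of_le_of_ne h3.1 (fun h => hne h.symm))
  omega

lemma eN_trm (H : Gr P r) (hir : i ≤ r) {v : P} (h1 : lev v = i + 3)
    (h3 : up (i + 1) v = 3) (h4 : up i v = 5) :
    trm i (eN i v) = xx ^ 5 * dd ^ ((lv P i).card - 2) ∧ 5 ≤ (lv P i).card := by
  classical
  obtain ⟨a1, a2, a3, a4, a5, a6, a7⟩ := cone_data H hir (v := v)
  obtain ⟨a8, a9⟩ := a7 (by omega)
  rw [if_neg (by omega)] at a8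
  have a10 : (AL i (eN i v)).card = 5 := by rw [a9, ← up_eq, h4]
  have a11 : 5 ≤ (lv P i).card := by
    rw [← a10, a9]
    exact card_le_card (filter_subset _ _)
  refine ⟨?_, a11⟩
  unfold trm
  rw [a6, if_pos (disjoint_empty_right _), a10, card_empty]
  unfold cw
  rw [if_pos ⟨a1, a2⟩, a3, a4, a5, a8, h3]
  have h5 : dd ^ ((lv P i).card - 2) = dd ^ 3 * dd ^ ((lv P i).card - 5 - 0) := by
    rw [← pow_add]
    congr 1
    omega
  rw [h5]
  ring

open Classical in
/-- energy at most five: one deficit -/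
theorem rest5 (H : Gr P r) (hi : 1 ≤ i) (hi2 : i + 1 ≤ r) (hg : Good P i)
    (hκ : Split (i + 2) κ)
    (hZ : ∀ v, lev v = i + 3 → v ∉ cuni (i + 2) κ → up (i + 1) v = 2 → up i v ≤ 3)
    {n : ℕ} (hn : n ≤ 5) :
    dd ^ ((lv P i).card - 1) ∣
      ∑ e ∈ ((univ : Finset P).piAntidiag n).filter (CrO i κ), trm i e := by
  obtain ⟨psi, hM⟩ := good_mat H hg
  have key : ∀ e : P → ℕ, IsCore i ∅ psi e → CrO i κ e → ∑ x, e x ≤ 5 →
      Rk (lv P i) 1 (Fe i e) := by
    intro e hc hQ hs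
    rcases cross_core H hi hi2 hg hκ hM hZ hc hQ (by omega) with h | h
    · exact Rk_of_cheap h
    · omega
  have h := core_sum_Q H hi hi2 hM n 1 (CrO i κ) (CrO_add H hκ)
    (fun e hc hQ hs => key e hc hQ (by omega)) ∅ (fun e he => absurd he (notMem_empty e))
    (fun e hc hQ hs _ => key e hc hQ (by omega))
  rwa [Finset.sum_empty, sub_zero] at h

open Classical in
/-- energy six: up to one deficit only the joins of `N5s`, with the coefficient `-1` -/
theorem rest6 (H : Gr P r) (hi : 1 ≤ i) (hi2 : i + 1 ≤ r) (hg : Good P i)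
    (hκ : Split (i + 2) κ)
    (hZ : ∀ v, lev v = i + 3 → v ∉ cuni (i + 2) κ → up (i + 1) v = 2 → up i v ≤ 3) :
    dd ^ ((lv P i).card - 1) ∣
      ∑ e ∈ ((univ : Finset P).piAntidiag 6).filter (CrO i κ), trm i e -
        ((N5s i κ).card : A) * (xx ^ 5 * dd ^ ((lv P i).card - 2)) := by
  obtain ⟨psi, hM⟩ := good_mat H hg
  have h := core_sum_Q H hi hi2 hM 6 1 (CrO i κ) (CrO_add H hκ) (fun e hc hQ hs => by
      rcases cross_core H hi hi2 hg hκ hM hZ hc hQ (by omega) with h | h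
      · exact Rk_of_cheap h
      · omega) ((N5s i κ).image (eN i)) (fun e he => by
      rw [mem_image] at he
      obtain ⟨v, hv, rfl⟩ := he
      obtain ⟨h1, h2, h3, h4⟩ := mem_N5s.1 hv
      refine ⟨eN_core H (by omega), eN_sum H hκ hv, v, h2, ?_⟩
      unfold eN
      rw [if_pos ⟨le_rfl, by omega⟩]) (fun e hc hQ hs he => by
      rcases cross_core H hi hi2 hg hκ hM hZ hc hQ (by omega) with h | ⟨-, v, h1, h2, h3, h4, h5⟩
      · exact Rk_of_cheap h
      · exfalso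
        apply he
        rw [mem_image]
        exact ⟨v, mem_N5s.2 ⟨h1, h2, h3, h4⟩, h5.symm⟩)
  have h2 : ∑ e ∈ (N5s i κ).image (eN i), trm i e =
      ((N5s i κ).card : A) * (xx ^ 5 * dd ^ ((lv P i).card - 2)) := by
    rw [Finset.sum_image]
    · rw [Finset.sum_congr rfl (fun v hv => ?_), Finset.sum_const, nsmul_eq_mul]
      obtain ⟨h1, h2, h3, h4⟩ := mem_N5s.1 hv
      exact (eN_trm H (by omega) h1 h3 h4).1
    · intro v hv v' hv' hvv
      have h1 := (mem_N5s.1 hv).1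
      have h1' := (mem_N5s.1 hv').1
      exact eN_inj (by omega) (by omega) hvv
  rwa [h2] at h

open Classical in
/-- the product over the components is the total minus the rest -/
theorem prod_eq (H : Gr P r) (hir : i ≤ r) (hκ : Split (i + 2) κ) (n : ℕ) :
    PowerSeries.coeff n (∏ a ∈ univ.image κ, VV i (i + 2) κ a) =
      ∑ e ∈ (univ : Finset P).piAntidiag n, trm i e -
      ∑ e ∈ ((univ : Finset P).piAntidiag n).filter (CrO i κ), trm i e := by
  unfold VV
  rw [← ZS_cuni H hir (by omega) hκ, coeff_ZS, eq_sub_iff_add_eq, add_comm]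
  rw [← Finset.sum_filter_add_sum_filter_not ((univ : Finset P).piAntidiag n) (CrO i κ)]
  congr 1
  unfold ZC
  have h2 : ((univ : Finset P).piAntidiag n).filter (fun e => ¬ CrO i κ e) =
      (cuni (i + 2) κ).piAntidiag n := by
    ext e
    rw [mem_filter, mem_pa, mem_pa]
    constructor
    · rintro ⟨⟨h3, -⟩, h4⟩
      refine ⟨h3, fun x hx => ?_⟩
      by_contra h5
      exact h4 ⟨x, hx, by omega⟩
    · rintro ⟨h3, h4⟩
      refine ⟨⟨h3, fun x hx => absurd (mem_univ x) hx⟩, ?_⟩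
      rintro ⟨z, hz, hze⟩
      have := h4 z hz
      omega
  rw [h2]
  refine Finset.sum_congr rfl fun e _ => ?_
  unfold tC trm
  rw [st_cuni (by omega) hκ]

lemma sum_bb (hκ : Split (i + 2) κ) :
    ∑ a ∈ univ.image κ, bb i (i + 2) κ a = (lv P i).card :=
  sum_card_st (by omega) hκ

lemma dvd_two {b : ℕ} {F : A} (h : dd ^ (b - 1) ∣ F) (hb : 1 ≤ b) :
    PowerSeries.coeff b (dd ^ 2 * F : A) = 0 := by
  apply coeff_zero_of_dvd (a := b + 1)
  · refine (pow_dvd_pow dd (show b + 1 ≤ 2 + (b - 1) by omega)).trans ?_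
    rw [pow_add]
    exact mul_dvd_mul_left _ h
  · omega

lemma coeff_xx5 : PowerSeries.coeff 0 (xx ^ 5 : A) = -1 := by
  have h1 : PowerSeries.coeff 0 (xx : A) = -1 := by
    unfold xx dd
    simp
  rw [PowerSeries.coeff_zero_eq_constantCoeff] at h1 ⊢
  rw [map_pow, h1]
  norm_num

/-- `be` of the product -/
theorem be_prod (H : Gr P r) (hi : 1 ≤ i) (hi2 : i + 1 ≤ r) (hg : Good P i)
    (hκ : Split (i + 2) κ) (hb : 1 ≤ (lv P i).card)
    (hZ : ∀ v, lev v = i + 3 → v ∉ cuni (i + 2) κ → up (i + 1) v = 2 → up i v ≤ 3) :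
    be 5 (lv P i).card (∏ a ∈ univ.image κ, VV i (i + 2) κ a) = 0 ∧
    be 6 (lv P i).card (∏ a ∈ univ.image κ, VV i (i + 2) κ a) = ((N5s i κ).card : ℤ) := by
  classical
  have htot : ∀ n, dd ^ ((lv P i).card - 1) ∣ ∑ e ∈ (univ : Finset P).piAntidiag n, trm i e :=
    fun n => (pow_dvd_pow dd (Nat.sub_le _ _)).trans (dvd_sum_trm H (by omega) n)
  constructor
  · unfold be
    rw [prod_eq H (by omega) hκ]
    exact dvd_two (dvd_sub (htot 5) (rest5 H hi hi2 hg hκ hZ le_rfl)) hb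
  · have h1 := rest6 H hi hi2 hg hκ hZ
    unfold be
    rw [prod_eq H (by omega) hκ]
    set R := ∑ e ∈ ((univ : Finset P).piAntidiag 6).filter (CrO i κ), trm i e with hR
    set T := ∑ e ∈ (univ : Finset P).piAntidiag 6, trm i e with hT
    have h2 : dd ^ 2 * (T - R) = dd ^ 2 * (T - (R - ((N5s i κ).card : A) *
        (xx ^ 5 * dd ^ ((lv P i).card - 2)))) -
        dd ^ 2 * (((N5s i κ).card : A) * (xx ^ 5 * dd ^ ((lv P i).card - 2))) := by
      ring
    rw [h2, map_sub, dvd_two (dvd_sub (htot 6) h1) hb, zero_sub]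
    rcases (N5s i κ).eq_empty_or_nonempty with h3 | ⟨v, hv⟩
    · rw [h3]
      simp
    · obtain ⟨a1, a2, a3, a4⟩ := mem_N5s.1 hv
      have h5 := (eN_trm H (by omega) a1 a3 a4).2
      have h6 : dd ^ 2 * (((N5s i κ).card : A) * (xx ^ 5 * dd ^ ((lv P i).card - 2))) =
          dd ^ (lv P i).card * (((N5s i κ).card : A) * xx ^ 5) := by
        have : dd ^ (lv P i).card = dd ^ 2 * dd ^ ((lv P i).card - 2) := by
          rw [← pow_add]
          congr 1
          omega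
        rw [this]
        ring
      rw [h6]
      have h7 : PowerSeries.coeff (lv P i).card
          (dd ^ (lv P i).card * (((N5s i κ).card : A) * xx ^ 5)) =
          PowerSeries.coeff 0 (((N5s i κ).card : A) * xx ^ 5) := by
        unfold dd
        have := PowerSeries.coeff_X_pow_mul (((N5s i κ).card : A) * xx ^ 5) (lv P i).card 0
        rwa [zero_add] at this
      rw [h7]
      have h8 : ((N5s i κ).card : A) * xx ^ 5 = (N5s i κ).card • (xx ^ 5 : A) := by
        rw [nsmul_eq_mul]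
      rw [h8, map_nsmul, coeff_xx5]
      simp

lemma eps_prod (H : Gr P r) (hir : i ≤ r) (hκ : Split (i + 2) κ) :
    eps (lv P i).card (∏ a ∈ univ.image κ, VV i (i + 2) κ a) = 1 := by
  unfold eps VV
  rw [← ZS_cuni H hir (by omega) hκ, coeff_ZS, ZC_zero H hir, st_cuni (by omega) hκ]
  unfold dd
  rw [PowerSeries.coeff_X_pow, if_pos rfl]

lemma al3_prod (H : Gr P r) (hir : i ≤ r) (hκ : Split (i + 2) κ) :
    al 3 (lv P i).card (∏ a ∈ univ.image κ, VV i (i + 2) κ a) = 0 := by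
  unfold al
  apply coeff_eq_zero_of_dvd
  rw [pow_succ']
  refine mul_dvd_mul_left _ ?_
  rw [← sum_bb hκ]
  exact dvd_prod H hir (by omega) hκ (by omega)

/-- TOTAL (5,2) at the window `i = j - 1` -/
theorem tot_five (H : Gr P r) (hi : 1 ≤ i) (hi2 : i + 1 ≤ r) (hg : Good P i)
    (hκ : Split (i + 2) κ) (hb : 1 ≤ (lv P i).card)
    (hZ : ∀ v, lev v = i + 3 → v ∉ cuni (i + 2) κ → up (i + 1) v = 2 → up i v ≤ 3)
    (hP : ∀ a ∈ univ.image κ, Prof 3 5 (bb i (i + 2) κ a) (VV i (i + 2) κ a)) :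
    ∑ a ∈ univ.image κ, be 5 (bb i (i + 2) κ a) (VV i (i + 2) κ a) = 0 := by
  obtain ⟨-, -, -, h4⟩ := prod_all (univ.image κ) (e := 3) (m := 5) (by omega) (by omega)
    (by omega) (bb i (i + 2) κ) (VV i (i + 2) κ) hP (fun a _ => eps_sq H (by omega) a)
  rw [sum_bb hκ, eps_prod H (by omega) hκ, (be_prod H hi hi2 hg hκ hb hZ).1] at h4
  simp only [show (5 : ℕ) ≠ 2 * 3 from by norm_num, if_false, eps_VV H (show i ≤ r by omega),
    one_mul, mul_zero, sub_zero, zero_sub] at h4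
  rw [Finset.sum_neg_distrib, ← Finset.mul_sum] at h4
  linarith

/-- TOTAL (6,2) at the window `i = j - 1` -/
theorem tot_six (H : Gr P r) (hi : 1 ≤ i) (hi2 : i + 1 ≤ r) (hg : Good P i)
    (hκ : Split (i + 2) κ) (hb : 1 ≤ (lv P i).card)
    (hZ : ∀ v, lev v = i + 3 → v ∉ cuni (i + 2) κ → up (i + 1) v = 2 → up i v ≤ 3)
    (hP : ∀ a ∈ univ.image κ, Prof 3 6 (bb i (i + 2) κ a) (VV i (i + 2) κ a)) :
    ∑ a ∈ univ.image κ, ((al 3 (bb i (i + 2) κ a) (VV i (i + 2) κ a)) ^ 2 -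
      2 * be 6 (bb i (i + 2) κ a) (VV i (i + 2) κ a)) = - (2 * ((N5s i κ).card : ℤ)) := by
  obtain ⟨-, -, -, h4⟩ := prod_all (univ.image κ) (e := 3) (m := 6) (by omega) (by omega)
    (by omega) (bb i (i + 2) κ) (VV i (i + 2) κ) hP (fun a _ => eps_sq H (by omega) a)
  rw [sum_bb hκ, eps_prod H (by omega) hκ, (be_prod H hi hi2 hg hκ hb hZ).2,
    al3_prod H (by omega) hκ] at h4
  simp only [show (6 : ℕ) = 2 * 3 from by norm_num, if_true, eps_VV H (show i ≤ r by omega),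
    one_mul] at h4
  rw [← h4]
  ring

/-- profile `3, 6` from `3, 5` -/
lemma prof36' {b : ℕ} {V : PowerSeries A} (h : Prof 3 5 b V) (h5 : be 5 b V = 0)
    (h6 : dd ^ b ∣ dd ^ 2 * PowerSeries.coeff 6 V) : Prof 3 6 b V := by
  refine ⟨h.lo, ?_, h6⟩
  intro n hn
  rcases Nat.lt_or_ge n 5 with h1 | h1
  · exact h.mid n h1
  · have h2 : n = 5 := by omega
    rw [h2]
    exact be_zero_iff h.top h5

/-- THEOREM S9, (5,2): if `(5,2) ≤ 0` for every component then `(5,2) = 0` for every component -/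
theorem five_zero (H : Gr P r) (hi : 1 ≤ i) (hi2 : i + 1 ≤ r) (hg : Good P i)
    (hκ : Split (i + 2) κ) (hb : 1 ≤ (lv P i).card)
    (hZ : ∀ v, lev v = i + 3 → v ∉ cuni (i + 2) κ → up (i + 1) v = 2 → up i v ≤ 3)
    (hP : ∀ a ∈ univ.image κ, Prof 3 5 (bb i (i + 2) κ a) (VV i (i + 2) κ a))
    (hneg : ∀ a ∈ univ.image κ, 3 ≤ bb i (i + 2) κ a →
      be 5 (bb i (i + 2) κ a) (VV i (i + 2) κ a) ≤ 0) :
    ∀ a ∈ univ.image κ, be 5 (bb i (i + 2) κ a) (VV i (i + 2) κ a) = 0 := by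
  have h1 := tot_five H hi hi2 hg hκ hb hZ hP
  have h2 : ∀ a ∈ univ.image κ, be 5 (bb i (i + 2) κ a) (VV i (i + 2) κ a) ≤ 0 := by
    intro a ha
    rcases Nat.lt_or_ge (bb i (i + 2) κ a) 3 with h | h
    · rw [be_small H (by omega) (by omega) hκ a (by omega)]
    · exact hneg a ha h
  exact (Finset.sum_eq_zero_iff_of_nonpos h2).1 h1

/-- THEOREM S9, (6,2): if moreover `2 (6,2) ≤ (3,1)^2` for every component then equality holds for
every component, and there is no join of type `N5` -/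
theorem six_zero (H : Gr P r) (hi : 1 ≤ i) (hi2 : i + 1 ≤ r) (hg : Good P i)
    (hκ : Split (i + 2) κ) (hb : 1 ≤ (lv P i).card)
    (hZ : ∀ v, lev v = i + 3 → v ∉ cuni (i + 2) κ → up (i + 1) v = 2 → up i v ≤ 3)
    (hP : ∀ a ∈ univ.image κ, Prof 3 5 (bb i (i + 2) κ a) (VV i (i + 2) κ a))
    (hP6 : ∀ a ∈ univ.image κ, 3 ≤ bb i (i + 2) κ a →
      dd ^ bb i (i + 2) κ a ∣ dd ^ 2 * PowerSeries.coeff 6 (VV i (i + 2) κ a))
    (hneg : ∀ a ∈ univ.image κ, 3 ≤ bb i (i + 2) κ a →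
      be 5 (bb i (i + 2) κ a) (VV i (i + 2) κ a) ≤ 0)
    (hneg6 : ∀ a ∈ univ.image κ, 3 ≤ bb i (i + 2) κ a →
      2 * be 6 (bb i (i + 2) κ a) (VV i (i + 2) κ a) ≤
        (al 3 (bb i (i + 2) κ a) (VV i (i + 2) κ a)) ^ 2) :
    (∀ a ∈ univ.image κ, (al 3 (bb i (i + 2) κ a) (VV i (i + 2) κ a)) ^ 2 =
      2 * be 6 (bb i (i + 2) κ a) (VV i (i + 2) κ a)) ∧ N5s i κ = ∅ := by
  have h5 := five_zero H hi hi2 hg hκ hb hZ hP hneg
  have h1 := tot_six H hi hi2 hg hκ hb hZ (fun a ha => by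
    refine prof36' (hP a ha) (h5 a ha) ?_
    rcases Nat.lt_or_ge (bb i (i + 2) κ a) 3 with h | h
    · exact dvd_small H (by omega) (by omega) hκ a (by omega) 6
    · exact hP6 a ha h)
  have h2 : ∀ a ∈ univ.image κ, 0 ≤ (al 3 (bb i (i + 2) κ a) (VV i (i + 2) κ a)) ^ 2 -
      2 * be 6 (bb i (i + 2) κ a) (VV i (i + 2) κ a) := by
    intro a ha
    rcases Nat.lt_or_ge (bb i (i + 2) κ a) 3 with h | h
    · rw [be_small H (by omega) (by omega) hκ a (by omega)]
      have := sq_nonneg (al 3 (bb i (i + 2) κ a) (VV i (i + 2) κ a))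
      linarith
    · have := hneg6 a ha h
      linarith
  have h3 := Finset.sum_nonneg h2
  rw [h1] at h3
  have h4 : (N5s i κ).card = 0 := by
    have : (0 : ℤ) ≤ ((N5s i κ).card : ℤ) := Int.natCast_nonneg _
    omega
  rw [h4] at h1
  simp only [Nat.cast_zero, mul_zero, neg_zero] at h1
  refine ⟨fun a ha => ?_, card_eq_zero.1 h4⟩
  have h6 := (Finset.sum_eq_zero_iff_of_nonneg h2).1 h1 a ha
  linarith

end Pool.Agent.GaussPoset.Win.So
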