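import Pool.Agent.W_448so_h17.PtA

/-!
S9, row 476, ASSEMBLY: sums of the contributions of cores over the toggle class and over the
reflection class.
-/

namespace Pool.Agent.GaussPoset.Win.So

set_option linter.unusedSectionVars false

open Finset

universe u

variable {P : Type u} [Fintype P] [PartialOrder P] [DecidableEq P] {r i : ℕ}

variable {e f : P → ℕ} {psi : P → P} {C : Finset P}

/-! ### involutions -/

lemma dvd_of_two {k : ℕ} {X : A} (h : dd ^ k ∣ X + X) : dd ^ k ∣ X := by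
  apply I2.dvd_of_coeff
  intro n hn
  have h1 := I2.coeff_zero_of_dvd h hn
  rw [map_add] at h1
  omega

lemma dvd_sum_invol {α : Type*} {T : Finset α} (σ : α → α) (h1 : ∀ e ∈ T, σ e ∈ T)
    (h2 : ∀ e ∈ T, σ (σ e) = e) {F : α → A} {k : ℕ}
    (h3 : ∀ e ∈ T, dd ^ k ∣ F e + F (σ e)) : dd ^ k ∣ ∑ e ∈ T, F e := by
  apply dvd_of_two
  have h4 : ∑ e ∈ T, F e = ∑ e ∈ T, F (σ e) := by
    symm
    exact Finset.sum_nbij' σ σ h1 h1 h2 h2 (fun e _ => rfl)
  conv_rhs => rw [h4]
  have h5 : ∑ e ∈ T, F (σ e) + ∑ e ∈ T, F (σ e) = ∑ e ∈ T, (F e + F (σ e)) := by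
    rw [Finset.sum_add_distrib, ← h4]
  rw [h5]
  exact Finset.dvd_sum h3

/-! ### the toggle class -/

/-- `w`, `s` is a toggle pair of `e` (lower or upper) -/
def TgP (i : ℕ) (e : P → ℕ) (w s : P) : Prop :=
  (∃ x x' a c, TogL i e w x x' a s c ∧ a ≠ c) ∨ (∃ x x' a c, TogU i e w x x' a s c ∧ a ≠ c)

namespace TgP

variable {w s : P}

lemma ls (H : Gr P r) (T : TgP i e w s) : lev s = i := by
  rcases T with ⟨x, x', a, c, T, hac⟩ | ⟨x, x', a, c, T, hac⟩
  · exact T.ls H
  · exact T.ls H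

lemma lw (T : TgP i e w s) : lev w = i + 2 ∨ lev w + 2 = i := by
  rcases T with ⟨x, x', a, c, T, hac⟩ | ⟨x, x', a, c, T, hac⟩
  · exact Or.inl T.lw
  · exact Or.inr T.lw

lemma sw (H : Gr P r) (T : TgP i e w s) : s ≠ w := by
  rcases T with ⟨x, x', a, c, T, hac⟩ | ⟨x, x', a, c, T, hac⟩
  · exact T.sw H
  · exact T.sw H

lemma hw (T : TgP i e w s) : 1 ≤ e w := by
  rcases T with ⟨x, x', a, c, T, hac⟩ | ⟨x, x', a, c, T, hac⟩
  · exact T.hw
  · exact T.hw

lemma tg (H : Gr P r) (T : TgP i e w s) : TgP i (So.tg w s e) w s := by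
  rcases T with ⟨x, x', a, c, T, hac⟩ | ⟨x, x', a, c, T, hac⟩
  · exact Or.inl ⟨x, x', a, c, T.tg H, hac⟩
  · exact Or.inr ⟨x, x', a, c, T.tg H, hac⟩

lemma core (H : Gr P r) (T : TgP i e w s) (K : Finset P) (h : IsCore i K psi e) :
    IsCore i K psi (So.tg w s e) := by
  rcases T with ⟨x, x', a, c, T, hac⟩ | ⟨x, x', a, c, T, hac⟩
  · exact (T.core_iff H K).2 h
  · exact (T.core_iff H K).2 h

/-- the two elements of a toggle pair lie in the part -/
lemma mem (H : Gr P r) (hC : Part i C) (hs : Spt C e) (T : TgP i e w s) : w ∈ C ∧ s ∈ C := by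
  have hw : w ∈ C := by
    by_contra h
    have := hs w h
    have := T.hw
    omega
  refine ⟨hw, ?_⟩
  rcases T with ⟨x, x', a, c, T, hac⟩ | ⟨x, x', a, c, T, hac⟩
  · exact hC.up (hC.up hw T.wx) T.xs
  · have h1 := T.lw
    have h2 := T.lx H
    exact hC.dn (hC.dn hw (by omega) T.wx) (by omega) T.xs

lemma spt (H : Gr P r) (hC : Part i C) (hs : Spt C e) (T : TgP i e w s) :
    Spt C (So.tg w s e) := by
  obtain ⟨h1, h2⟩ := T.mem H hC hs
  intro z hz
  rw [tg_ne (by rintro rfl; exact hz h1) (by rintro rfl; exact hz h2)]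
  exact hs z hz

lemma J_pair (H : Gr P r) (hC : Part i C) (hs : Spt C e) (T : TgP i e w s)
    (hM : Mat P i ∅ psi) {m k : ℕ}
    (h1 : dd ^ k ∣ J i psi C m e) (h2 : dd ^ k ∣ J i psi C m (So.tg w s e)) :
    dd ^ (k + 1) ∣ J i psi C m e + J i psi C m (So.tg w s e) := by
  have hsC := (T.mem H hC hs).2
  rcases T with ⟨x, x', a, c, T, hac⟩ | ⟨x, x', a, c, T, hac⟩
  · exact T.J_pair H hM hsC h1 h2
  · exact T.J_pair H hM hsC h1 h2

end TgP

open Classical in
/-- toggle `e` at its toggle pair -/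
noncomputable def sg2 (i : ℕ) (e0 e : P → ℕ) : P → ℕ :=
  if h : ∃ p : P × P, TgP i e0 p.1 p.2 then tg h.choose.1 h.choose.2 e else e

lemma sg2_eq {i : ℕ} {e0 : P → ℕ} {w s : P} (T : TgP i e0 w s)
    (hu : ∀ w1 s1, TgP i e0 w1 s1 → w1 = w ∧ s1 = s) (e : P → ℕ) :
    sg2 i e0 e = tg w s e := by
  have h : ∃ p : P × P, TgP i e0 p.1 p.2 := ⟨(w, s), T⟩
  unfold sg2
  rw [dif_pos h]
  obtain ⟨h1, h2⟩ := hu _ _ h.choose_spec
  rw [h1, h2]

/-- THE TOGGLE CLASS: a set of cores of the part, each with exactly one toggle pair, closed under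
the toggles -/
theorem dvd_toggle (H : Gr P r) (hC : Part i C) (hM : Mat P i ∅ psi) {T : Finset (P → ℕ)}
    {m k : ℕ}
    (h1 : ∀ e ∈ T, Spt C e)
    (h2 : ∀ e ∈ T, ∃ w s, TgP i e w s ∧ (∀ w1 s1, TgP i e w1 s1 → w1 = w ∧ s1 = s) ∧
      tg w s e ∈ T)
    (h3 : ∀ e ∈ T, dd ^ k ∣ J i psi C m e) :
    dd ^ (k + 1) ∣ ∑ e ∈ T, J i psi C m e := by
  have key : ∀ e ∈ T, sg2 i e e ∈ T ∧ sg2 i (sg2 i e e) (sg2 i e e) = e ∧
      dd ^ (k + 1) ∣ J i psi C m e + J i psi C m (sg2 i e e) := by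
    intro e he
    obtain ⟨w, s, hT, hu, hm⟩ := h2 e he
    rw [sg2_eq hT hu]
    have hT2 := hT.tg H
    refine ⟨hm, ?_, ?_⟩
    · obtain ⟨w1, s1, hT1, hu1, -⟩ := h2 _ hm
      obtain ⟨h4, h5⟩ := hu1 w s hT2
      subst h4
      subst h5
      rw [sg2_eq hT1 hu1, tg_tg (hT.sw H) hT.hw]
    · exact hT.J_pair H hC (h1 e he) hM (h3 e he) (h3 _ hm)
  exact dvd_sum_invol (fun e => sg2 i e e) (fun e he => (key e he).1) (fun e he => (key e he).2.1)
    (fun e he => (key e he).2.2)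

/-! ### the reflection class -/

section reflection

variable {y p u p' w s : P}

/-- touched elements: only the positivity of the labels of the far elements counts -/
lemma Tch_congr (H : Gr P r) (h : ∀ z, lev z = i + 2 ∨ lev z + 2 = i → (0 < e z ↔ 0 < f z)) :
    Tch i e = Tch i f := by
  ext z
  rw [mem_Tch, mem_Tch]
  constructor
  · rintro (⟨h1, z', h2, h3⟩ | ⟨h1, z', h2, h3⟩)
    · have l1 := lev_uc H (mem_uc.2 h2)
      exact Or.inl ⟨h1, z', h2, (h z' (by omega)).1 h3⟩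
    · have l1 := lev_uc H (mem_uc.2 h2)
      exact Or.inr ⟨h1, z', h2, (h z' (by omega)).1 h3⟩
  · rintro (⟨h1, z', h2, h3⟩ | ⟨h1, z', h2, h3⟩)
    · have l1 := lev_uc H (mem_uc.2 h2)
      exact Or.inl ⟨h1, z', h2, (h z' (by omega)).2 h3⟩
    · have l1 := lev_uc H (mem_uc.2 h2)
      exact Or.inr ⟨h1, z', h2, (h z' (by omega)).2 h3⟩

lemma Tch_tg (H : Gr P r) (hs : lev s = i) (hw : 1 ≤ e w) : Tch i (tg w s e) = Tch i e := by
  apply Tch_congr H
  intro z hz
  by_cases h : z = w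
  · rw [h, tg_w]
    omega
  · rw [tg_ne h (by rintro rfl; omega)]

lemma Tch_mono (H : Gr P r) (h : ∀ z, 0 < e z → 0 < f z) {z : P} (hz : z ∈ Tch i e) :
    z ∈ Tch i f := by
  rw [mem_Tch] at hz ⊢
  rcases hz with ⟨h1, z', h2, h3⟩ | ⟨h1, z', h2, h3⟩
  · exact Or.inl ⟨h1, z', h2, h z' h3⟩
  · exact Or.inr ⟨h1, z', h2, h z' h3⟩

lemma red_le (y p : P) (e : P → ℕ) (z : P) : red y p e z ≤ e z := by
  unfold red up2
  split_ifs <;> omega

/-- the reduced configuration of a core is a core -/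
lemma RefL.red_core (H : Gr P r) (D : RefD r i y p u p') (R : RefL e y p u p')
    (hM : Mat P i ∅ psi) (hp : psi y = u) (hc : IsCore i ∅ psi e) :
    IsCore i ∅ psi (red y p e) := by
  have hpu := D.psi_u hM hp
  have lp := D.lp H
  intro z hz
  by_cases h1 : z = y
  · subst h1
    unfold red
    exact up2_y _ _ _ _ _
  by_cases h2 : z = u
  · subst h2
    have := red_le y p e z
    have := R.eu
    omega
  have h3 : z ≠ p := by
    rintro rfl
    rcases mem_near.1 (mem_Rst.1 hz).1 with h | h <;> omega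
  have hmem : ∀ x, x ≠ y → (x ∈ Tch i e → x ∈ Tch i (red y p e)) := by
    intro x hx hxT
    rw [mem_Tch] at hxT ⊢
    rcases hxT with ⟨a1, z', a2, a3⟩ | ⟨a1, z', a2, a3⟩
    · have l1 := lev_uc H (mem_uc.2 a2)
      have ly := D.ly
      refine Or.inl ⟨a1, z', a2, ?_⟩
      unfold red
      rw [up2_ne (by rintro rfl; omega)]
      · exact a3
      · rintro rfl
        have := mem_uc.2 a2
        rw [D.cp, mem_singleton] at this
        exact hx this
    · have l1 := lev_uc H (mem_uc.2 a2)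
      have ly := D.ly
      refine Or.inr ⟨a1, z', a2, ?_⟩
      unfold red
      rw [up2_ne (by rintro rfl; omega) (by rintro rfl; omega)]
      exact a3
  obtain ⟨a1, a2, a3, a4⟩ := mem_Rst.1 hz
  have hz' : z ∈ Rst i ∅ psi e := by
    refine mem_Rst.2 ⟨a1, a2, fun h => a3 (hmem z h1 h), ?_⟩
    rintro ⟨a5, a6⟩
    apply a4
    refine ⟨a5, hmem _ ?_ a6⟩
    intro h
    have h4 := (hM.invol z a5 a2).1
    rw [h, hp] at h4
    exact h2 h4.symm
  have h4 := hc z hz'
  have := red_le y p e z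
  omega

/-- a toggle pair of the reduced configuration has nothing to do with `y`, `p`, `u`, `p'` -/
lemma RefL.tgp (H : Gr P r) (D : RefD r i y p u p') (R : RefL e y p u p')
    (T : TgP i (red y p e) w s) :
    w ≠ y ∧ w ≠ p ∧ w ≠ u ∧ w ≠ p' ∧ s ≠ y ∧ s ≠ p ∧ s ≠ u ∧ s ≠ p' ∧ s ∉ uc y := by
  have lp := D.lp H
  have lp' := D.lp' H
  have ly := D.ly
  have lu := D.lu
  have ls := T.ls H
  have lw := T.lw
  have hw := T.hw
  have n1 : w ≠ p := by
    rintro rfl
    unfold red at hw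
    rw [up2_p D.py.lt.ne] at hw
    omega
  have n2 : w ≠ p' := by
    rintro rfl
    have := red_le y p e w
    have := R.ab w D.up
    omega
  refine ⟨by rintro rfl; omega, n1, by rintro rfl; omega, n2, by rintro rfl; omega,
    by rintro rfl; omega, by rintro rfl; omega, by rintro rfl; omega, ?_⟩
  intro h
  rcases T with ⟨x, x', a, c, T, hac⟩ | ⟨x, x', a, c, T, hac⟩
  · have h1 : y ∈ dc s := mem_dc.2 (mem_uc.1 h)
    have h0 : red y p e y = 0 := by
      unfold red
      exact up2_y _ _ _ _ _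
    rw [T.ds, mem_insert, mem_singleton] at h1
    rcases h1 with rfl | rfl
    · have := T.hx
      omega
    · have := T.hx'
      omega
  · rw [← D.yu] at h
    have h1 : u ∈ uc s := mem_uc.2 (mem_dc.1 h)
    have h0 : red y p e u = 0 := by
      have := red_le y p e u
      have := R.eu
      omega
    rw [T.ds, mem_insert, mem_singleton] at h1
    rcases h1 with rfl | rfl
    · have := T.hx
      omega
    · have := T.hx'
      omega

lemma RefL.tg_ref (H : Gr P r) (D : RefD r i y p u p') (R : RefL e y p u p')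
    (T : TgP i (red y p e) w s) :
    RefL (tg w s e) y p u p' ∧ red y p (tg w s e) = tg w s (red y p e) := by
  obtain ⟨n1, n2, n3, n4, n5, n6, n7, n8, n9⟩ := R.tgp H D T
  have lp := D.lp H
  have lp' := D.lp' H
  have ly := D.ly
  have lu := D.lu
  have ls := T.ls H
  have hw := T.hw
  have hw' : 1 ≤ e w := hw.trans (red_le y p e w)
  have tgz : ∀ z, z ≠ s → e z = 0 → tg w s e z = 0 := by
    intro z hz h0
    rw [tg_ne _ hz]
    · exact h0
    · rintro rfl
      omega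
  refine ⟨⟨?_, ?_, ?_, ?_, ?_, ?_, ?_⟩, ?_⟩
  · rw [tg_ne n1.symm n5.symm]
    exact R.hy
  · rw [tg_ne n2.symm n6.symm]
    exact R.hp
  · rw [tg_ne n3.symm n7.symm]
    exact R.eu
  · intro z hz hzp
    have l1 := lev_uc H (mem_uc.2 hz)
    exact tgz z (by rintro rfl; omega) (R.ch z hz hzp)
  · intro z hz
    have l1 := lev_uc H (mem_uc.2 hz)
    exact tgz z (by rintro rfl; omega) (R.chp z hz)
  · intro z hz
    have l1 := lev_uc H (mem_uc.2 hz)
    exact tgz z (by rintro rfl; omega) (R.ab z hz)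
  · intro z hz
    have l1 := lev_uc H (mem_uc.2 hz)
    exact tgz z (by rintro rfl; omega) (R.abp z hz)
  · have hsw : s ≠ w := T.sw H
    funext z
    unfold red
    by_cases z1 : z = y
    · rw [z1, up2_y, tg_ne n1.symm n5.symm, up2_y]
    · by_cases z2 : z = p
      · rw [z2, up2_p D.py.lt.ne, tg_ne n2.symm n6.symm, up2_p D.py.lt.ne]
      · rw [up2_ne z1 z2]
        by_cases z3 : z = w
        · subst z3
          rw [tg_w, tg_w, up2_ne n5 n6]
        · by_cases z4 : z = s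
          · subst z4
            rw [tg_s hsw, tg_s hsw, up2_ne n1 n2]
          · rw [tg_ne z3 z4, tg_ne z3 z4, up2_ne z1 z2]

lemma phiL_congr {e f : P → ℕ} {y : P} {Y Q : ℕ} {S S' : Finset P}
    (h : ∀ v ∈ uc y, e v = f v) (hS : ∀ v ∈ uc y, (v ∈ S ↔ v ∈ S')) :
    phiL e y Y Q S = phiL f y Y Q S' := by
  unfold phiL
  have k1 : (∀ v ∈ uc y, e v < Y) ↔ ∀ v ∈ uc y, f v < Y :=
    forall₂_congr fun v hv => by rw [h v hv]
  have k2 : (∀ v ∈ uc y, e v < Y → v ∈ S) ↔ ∀ v ∈ uc y, f v < Y → v ∈ S' :=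
    forall₂_congr fun v hv => by rw [h v hv, hS v hv]
  simp only [k1, k2]

lemma phiU_congr {e f : P → ℕ} {u : P} {Y Q : ℕ} {S S' : Finset P}
    (h : ∀ v ∈ dc u, e v = f v) (hS : ∀ v ∈ dc u, (v ∈ S ↔ v ∈ S')) :
    phiU e u Y Q S = phiU f u Y Q S' := by
  unfold phiU
  have k1 : (∀ v ∈ dc u, e v < Y) ↔ ∀ v ∈ dc u, f v < Y :=
    forall₂_congr fun v hv => by rw [h v hv]
  have k2 : (∀ v ∈ dc u, e v < Y → v ∉ S) ↔ ∀ v ∈ dc u, f v < Y → v ∉ S' :=
    forall₂_congr fun v hv => by rw [h v hv, hS v hv]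
  simp only [k1, k2]

/-- the second factor is the same for the toggled configuration, and does not see `s` -/
lemma RefL.GR_tg (H : Gr P r) (D : RefD r i y p u p') (R : RefL e y p u p')
    (hM : Mat P i ∅ psi) (T : TgP i (red y p e) w s) (m : ℕ) (S : Finset P) :
    GR i psi C y p u m (tg w s e) S = GR i psi C y p u m e S ∧
      GR i psi C y p u m e (insert s S) = GR i psi C y p u m e S := by
  obtain ⟨n1, n2, n3, n4, n5, n6, n7, n8, n9⟩ := R.tgp H D T
  obtain ⟨-, hred⟩ := R.tg_ref H D T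
  have ls := T.ls H
  have hw := T.hw
  have hw' : 1 ≤ e w := hw.trans (red_le y p e w)
  have hfar : ∀ x ∈ RC i psi C e, Far s x := by
    intro x hx
    unfold RC at hx
    have h1 : x ∈ Rst i ∅ psi (red y p e) := by
      obtain ⟨a1, a2, a3, a4⟩ := mem_Rst.1 (mem_inter.1 hx).1
      have hmono : ∀ z, 0 < red y p e z → 0 < e z := fun z hz => lt_of_lt_of_le hz (red_le y p e z)
      exact mem_Rst.2 ⟨a1, a2, fun h => a3 (Tch_mono H hmono h),
        fun h => a4 ⟨h.1, Tch_mono H hmono h.2⟩⟩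
    rcases T with ⟨x1, x1', a, c, T, -⟩ | ⟨x1, x1', a, c, T, -⟩
    · exact T.far H hM h1
    · exact T.far H hM h1
  have hRC : RC i psi C (tg w s e) = RC i psi C e := by
    unfold RC Rst
    rw [Tch_tg H ls hw']
  have hsite : ∀ v, lev v = i → v ≠ s → tg w s e v = e v := by
    intro v hv hvs
    refine tg_ne ?_ hvs e
    rintro rfl
    rcases T.lw with h | h <;> omega
  have hG1 : RG i psi C (tg w s e) m S = RG i psi C e m S := RG_congr H hRC hsite hfar m S
  have hG2 : RG i psi C e m (insert s S) = RG i psi C e m S := RG_insert hfar m S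
  have ly := D.ly
  have hey : tg w s e y = e y := tg_ne n1.symm n5.symm e
  have hep : tg w s e p = e p := tg_ne n2.symm n6.symm e
  have hv : ∀ v ∈ uc y, red y p (tg w s e) v = red y p e v := by
    intro v hv
    have l1 := lev_uc H hv
    rw [hred]
    refine tg_ne ?_ (by rintro rfl; exact n9 hv) _
    rintro rfl
    rcases T.lw with h | h <;> omega
  have hvu : ∀ v ∈ dc u, red y p (tg w s e) v = red y p e v := by
    rw [D.yu]
    exact hv
  have hS : ∀ v ∈ uc y, (v ∈ insert s S ↔ v ∈ S) := by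
    intro v hvy
    rw [mem_insert]
    have : v ≠ s := fun h => n9 (h ▸ hvy)
    tauto
  have hSu : ∀ v ∈ dc u, (v ∈ insert s S ↔ v ∈ S) := by
    rw [D.yu]
    exact hS
  constructor
  · unfold GR
    rw [hG1, hey, hep, phiL_congr (S' := S) hv (fun v _ => Iff.rfl),
      phiU_congr (S' := S) hvu (fun v _ => Iff.rfl)]
  · unfold GR
    rw [hG2, phiL_congr (f := red y p e) (S' := S) (fun v _ => rfl) hS,
      phiU_congr (f := red y p e) (S' := S) (fun v _ => rfl) hSu]

end reflection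

end Pool.Agent.GaussPoset.Win.So
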