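import Pool.Agent.W_448so_h17.AsA

/-!
S9, row 476, ASSEMBLY: the sum over the cores of fixed energy: nonreflection class and reflection
class.
-/

namespace Pool.Agent.GaussPoset.Win.So

set_option linter.unusedSectionVars false

open Finset

universe u

variable {P : Type u} [Fintype P] [PartialOrder P] [DecidableEq P] {r i : ℕ}

variable {e f : P → ℕ} {psi : P → P} {C : Finset P} {w s y p u p' : P}

lemma _root_.Pool.Agent.GaussPoset.Win.Part.pred (hC : Part (i + 1) C) : Part i C :=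
  ⟨hC.up, fun h1 h2 h3 => hC.dn h1 (by omega) h3⟩

lemma spt_pa {q : ℕ} (h : e ∈ C.piAntidiag q) : Spt C e := by
  rw [I2.mem_pa] at h
  exact h.2

/-- toggles keep the energy and the support -/
lemma TgP.pa (H : Gr P r) (hC : Part i C) {q : ℕ} (he : e ∈ C.piAntidiag q)
    (T : TgP i e w s) : So.tg w s e ∈ C.piAntidiag q := by
  have h := he
  rw [I2.mem_pa] at h ⊢
  exact ⟨by rw [tg_sum (T.sw H) T.hw]; exact h.1, T.spt H hC h.2⟩

/-- the positivity of the labels outside the sites does not change -/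
lemma TgP.pos (T : TgP i e w s) {z : P} (hs : z ≠ s) : 0 < So.tg w s e z ↔ 0 < e z := by
  by_cases h : z = w
  · subst h
    rw [tg_w]
    have := T.hw
    omega
  · rw [tg_ne h hs]

lemma TgP.zero (T : TgP i e w s) {z : P} (hs : z ≠ s) : So.tg w s e z = 0 ↔ e z = 0 := by
  have := T.pos hs
  omega

lemma core_congr (h1 : Rst i ∅ psi e = Rst i ∅ psi f) (h2 : ∀ x ∈ near P i, e x = f x) :
    IsCore i ∅ psi e ↔ IsCore i ∅ psi f := by
  unfold IsCore
  rw [h1]
  constructor
  · intro h x hx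
    rw [← h2 x (mem_Rst.1 hx).1]
    exact h x hx
  · intro h x hx
    rw [h2 x (mem_Rst.1 hx).1]
    exact h x hx

/-! ### the class without reflections -/

open Classical in
theorem asm_N (H : Gr P r) (hi : 1 ≤ i) (hi2 : i + 1 ≤ r) (hM : Mat P i ∅ psi)
    (hC : Part (i + 1) C) {q : ℕ} (m : ℕ) (N Q L : (P → ℕ) → Prop)
    (hN : ∀ e w s, TgP i e w s → N e → N (tg w s e))
    (hQ : ∀ e w s, TgP i e w s → Q e → Q (tg w s e))
    (hu : ∀ e ∈ C.piAntidiag q, IsCore i ∅ psi e → N e → Q e → ∀ w s w1 s1,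
      TgP i e w s → TgP i e w1 s1 → w1 = w ∧ s1 = s)
    (h2 : ∀ e ∈ C.piAntidiag q, IsCore i ∅ psi e → N e → Q e → ∀ w s, TgP i e w s →
      Cheap 2 i e)
    (h1 : ∀ e ∈ C.piAntidiag q, IsCore i ∅ psi e → N e → (Q e → ∀ w s, ¬ TgP i e w s) → ¬ L e →
      Cheap 1 i e)
    (hL : ∀ e ∈ C.piAntidiag q, L e → IsCore i ∅ psi e ∧ N e ∧ (Q e → ∀ w s, ¬ TgP i e w s)) :
    dd ^ ((st i C).card - 1) ∣
      ∑ e ∈ (C.piAntidiag q).filter (fun e => IsCore i ∅ psi e ∧ N e), J i psi C m e -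
        ∑ e ∈ (C.piAntidiag q).filter L, J i psi C m e := by
  have hC0 : Part i C := hC.pred
  set b := (st i C).card with hb
  rcases Nat.lt_or_ge b 2 with hb2 | hb2
  · rw [show b - 1 = 0 by omega, pow_zero]
    exact one_dvd _
  have e1 : ∑ e ∈ (C.piAntidiag q).filter (fun e => IsCore i ∅ psi e ∧ N e), J i psi C m e =
      ∑ e ∈ ((C.piAntidiag q).filter (fun e => IsCore i ∅ psi e ∧ N e)).filter
        (fun e => Q e ∧ ∃ w s, TgP i e w s), J i psi C m e +
      ∑ e ∈ ((C.piAntidiag q).filter (fun e => IsCore i ∅ psi e ∧ N e)).filter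
        (fun e => ¬ (Q e ∧ ∃ w s, TgP i e w s)), J i psi C m e :=
    (Finset.sum_filter_add_sum_filter_not _ _ _).symm
  have e2 : ∑ e ∈ ((C.piAntidiag q).filter (fun e => IsCore i ∅ psi e ∧ N e)).filter
        (fun e => ¬ (Q e ∧ ∃ w s, TgP i e w s)), J i psi C m e =
      ∑ e ∈ (((C.piAntidiag q).filter (fun e => IsCore i ∅ psi e ∧ N e)).filter
        (fun e => ¬ (Q e ∧ ∃ w s, TgP i e w s))).filter L, J i psi C m e +
      ∑ e ∈ (((C.piAntidiag q).filter (fun e => IsCore i ∅ psi e ∧ N e)).filter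
        (fun e => ¬ (Q e ∧ ∃ w s, TgP i e w s))).filter (fun e => ¬ L e), J i psi C m e :=
    (Finset.sum_filter_add_sum_filter_not _ _ _).symm
  have e3 : (((C.piAntidiag q).filter (fun e => IsCore i ∅ psi e ∧ N e)).filter
        (fun e => ¬ (Q e ∧ ∃ w s, TgP i e w s))).filter L = (C.piAntidiag q).filter L := by
    ext e
    simp only [mem_filter]
    constructor
    · rintro ⟨⟨⟨a1, -⟩, -⟩, a2⟩
      exact ⟨a1, a2⟩
    · rintro ⟨a1, a2⟩
      obtain ⟨b1, b2, b3⟩ := hL e a1 a2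
      refine ⟨⟨⟨a1, b1, b2⟩, ?_⟩, a2⟩
      rintro ⟨c1, w, s, c2⟩
      exact b3 c1 w s c2
  rw [e1, e2, e3]
  have d1 : dd ^ (b - 1) ∣ ∑ e ∈ ((C.piAntidiag q).filter
      (fun e => IsCore i ∅ psi e ∧ N e)).filter
        (fun e => Q e ∧ ∃ w s, TgP i e w s), J i psi C m e := by
    have := dvd_toggle (k := b - 2) (m := m) H hC0 hM (T := ((C.piAntidiag q).filter
      (fun e => IsCore i ∅ psi e ∧ N e)).filter (fun e => Q e ∧ ∃ w s, TgP i e w s))
      (fun e he => spt_pa (mem_filter.1 (mem_filter.1 he).1).1)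
      (fun e he => by
        obtain ⟨a1, a2, w, s, a3⟩ := mem_filter.1 he
        obtain ⟨b1, b2, b3⟩ := mem_filter.1 a1
        refine ⟨w, s, a3, fun w1 s1 h => hu e b1 b2 b3 a2 w s w1 s1 a3 h, ?_⟩
        exact mem_filter.2 ⟨mem_filter.2 ⟨a3.pa H hC0 b1, a3.core H ∅ b2, hN e w s a3 b3⟩,
          hQ e w s a3 a2, w, s, a3.tg H⟩)
      (fun e he => by
        obtain ⟨a1, a2, w, s, a3⟩ := mem_filter.1 he
        obtain ⟨b1, b2, b3⟩ := mem_filter.1 a1
        exact J_dvd H hi hi2 hM hC (Rk_of_cheap (h2 e b1 b2 b3 a2 w s a3)) m)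
    rw [show b - 2 + 1 = b - 1 by omega] at this
    exact this
  have d2 : dd ^ (b - 1) ∣ ∑ e ∈ (((C.piAntidiag q).filter
      (fun e => IsCore i ∅ psi e ∧ N e)).filter
        (fun e => ¬ (Q e ∧ ∃ w s, TgP i e w s))).filter (fun e => ¬ L e), J i psi C m e := by
    refine Finset.dvd_sum fun e he => ?_
    obtain ⟨a1, a2⟩ := mem_filter.1 he
    obtain ⟨b1, b2⟩ := mem_filter.1 a1
    obtain ⟨c1, c2, c3⟩ := mem_filter.1 b1
    refine J_dvd H hi hi2 hM hC (Rk_of_cheap (h1 e c1 c2 c3 ?_ a2)) m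
    intro hq w s hT
    exact b2 ⟨hq, w, s, hT⟩
  have := dvd_add d1 d2
  convert this using 1
  ring

/-! ### the reflection class -/

lemma RefL.tg_core (H : Gr P r) (D : RefD r i y p u p') (T : TgP i (red y p e) w s)
    (hc : IsCore i ∅ psi e) : IsCore i ∅ psi (tg w s e) := by
  have hw : 1 ≤ e w := T.hw.trans (red_le y p e w)
  have ls := T.ls H
  rw [core_congr (f := e)]
  · exact hc
  · unfold Rst
    rw [Tch_tg H ls hw]
  · intro x hx
    refine tg_ne ?_ ?_ e
    · rintro rfl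
      rcases mem_near.1 hx with h | h <;> rcases T.lw with h' | h' <;> omega
    · rintro rfl
      rcases mem_near.1 hx with h | h <;> omega

lemma spt_red (h : Spt C e) (y p : P) : Spt C (red y p e) := by
  intro x hx
  have := h x hx
  have := red_le y p e x
  omega

lemma RefL.tg_pa (H : Gr P r) (hC : Part i C) {q : ℕ} (he : e ∈ C.piAntidiag q)
    (T : TgP i (red y p e) w s) : tg w s e ∈ C.piAntidiag q := by
  have h := he
  rw [I2.mem_pa] at h ⊢
  have hw : 1 ≤ e w := T.hw.trans (red_le y p e w)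
  obtain ⟨m1, m2⟩ := T.mem H hC (spt_red h.2 y p)
  refine ⟨by rw [tg_sum (T.sw H) hw]; exact h.1, ?_⟩
  intro z hz
  rw [tg_ne (by rintro rfl; exact hz m1) (by rintro rfl; exact hz m2)]
  exact h.2 z hz

/-- the sum of the contributions of two mirror images -/
noncomputable def XR (i : ℕ) (psi : P → P) (C : Finset P) (y p u : P) (m : ℕ) (e : P → ℕ) : A :=
  IV (st i C) (fun S => Fe i (red y p e) S * GR i psi C y p u m e S)

lemma XR_dvd (H : Gr P r) (hi : 1 ≤ i) (hi2 : i + 1 ≤ r) (D : RefD r i y p u p')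
    (R : RefL e y p u p') (hM : Mat P i ∅ psi) (hC : Part (i + 1) C) {k : ℕ}
    (hk : Cheap k i (red y p e)) (m : ℕ) :
    dd ^ ((st i C).card - k) ∣ XR i psi C y p u m e := by
  have h1 := Rk_mul (Rk_of_cheap hk) (R.GR_Rk H hi hi2 D hM hC m)
  rw [add_zero] at h1
  exact Rk_IV (Rk_sub (st_sub i C) h1)

lemma XR_pair (H : Gr P r) (D : RefD r i y p u p') (R : RefL e y p u p')
    (hM : Mat P i ∅ psi) (hC : Part i C) (hs : Spt C e)
    (T : TgP i (red y p e) w s) {m k : ℕ}
    (h1 : dd ^ k ∣ XR i psi C y p u m e) (h2 : dd ^ k ∣ XR i psi C y p u m (tg w s e)) :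
    dd ^ (k + 1) ∣ XR i psi C y p u m e + XR i psi C y p u m (tg w s e) := by
  have hsC := (T.mem H hC (spt_red hs y p)).2
  have hsv : s ∈ st i C := mem_st.2 ⟨hsC, T.ls H⟩
  obtain ⟨-, hred⟩ := R.tg_ref H D T
  have h3 : XR i psi C y p u m (tg w s e) =
      IV (st i C) (fun S => Fe i (tg w s (red y p e)) S * GR i psi C y p u m e S) := by
    unfold XR
    refine IV_congr fun S => ?_
    rw [hred, (R.GR_tg H D hM T m S).1]
  rw [h3] at h2 ⊢
  unfold XR at h1 ⊢
  have hG : ∀ S, GR i psi C y p u m e (insert s S) = GR i psi C y p u m e S :=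
    fun S => (R.GR_tg H D hM T m S).2
  rcases T with ⟨x, x', a, c, T, -⟩ | ⟨x, x', a, c, T, -⟩
  · exact dvd_tg H T hsv (GR i psi C y p u m e) hG h1 h2
  · exact dvd_tgU H T hsv (GR i psi C y p u m e) hG h1 h2

open Classical in
/-- the pairs of mirror images -/
theorem asm_R1 (H : Gr P r) (hi : 1 ≤ i) (hi2 : i + 1 ≤ r) (hM : Mat P i ∅ psi)
    (hC : Part (i + 1) C) (D : RefD r i y p u p') {q : ℕ} (m : ℕ)
    (h4 : ∀ e ∈ C.piAntidiag q, IsCore i ∅ psi e → RefL e y p u p' →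
      Cheap 1 i (red y p e) ∨ (Cheap 2 i (red y p e) ∧ ∃ w s, TgP i (red y p e) w s))
    (hu : ∀ e ∈ C.piAntidiag q, IsCore i ∅ psi e → RefL e y p u p' → ∀ w s w1 s1,
      TgP i (red y p e) w s → TgP i (red y p e) w1 s1 → w1 = w ∧ s1 = s) :
    dd ^ ((st i C).card - 1) ∣
      ∑ e ∈ (C.piAntidiag q).filter (fun e => IsCore i ∅ psi e ∧ RefL e y p u p'),
        XR i psi C y p u m e := by
  have hC0 : Part i C := hC.pred
  set b := (st i C).card with hb
  rcases Nat.lt_or_ge b 2 with hb2 | hb2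
  · rw [show b - 1 = 0 by omega, pow_zero]
    exact one_dvd _
  rw [← Finset.sum_filter_add_sum_filter_not _ (fun e => ∃ w s, TgP i (red y p e) w s)]
  refine dvd_add ?_ ?_
  · have key : ∀ e ∈ ((C.piAntidiag q).filter
        (fun e => IsCore i ∅ psi e ∧ RefL e y p u p')).filter
          (fun e => ∃ w s, TgP i (red y p e) w s),
        sg2 i (red y p e) e ∈ ((C.piAntidiag q).filter
          (fun e => IsCore i ∅ psi e ∧ RefL e y p u p')).filter
            (fun e => ∃ w s, TgP i (red y p e) w s) ∧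
        sg2 i (red y p (sg2 i (red y p e) e)) (sg2 i (red y p e) e) = e ∧
        dd ^ (b - 2 + 1) ∣ XR i psi C y p u m e + XR i psi C y p u m (sg2 i (red y p e) e) := by
      intro e he
      obtain ⟨a1, w, s, a2⟩ := mem_filter.1 he
      obtain ⟨b1, b2, b3⟩ := mem_filter.1 a1
      have c1 := hu e b1 b2 b3 w s
      rw [sg2_eq a2 (fun w1 s1 h => c1 w1 s1 a2 h)]
      obtain ⟨c2, c3⟩ := b3.tg_ref H D a2
      have c4 : TgP i (red y p (tg w s e)) w s := by
        rw [c3]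
        exact a2.tg H
      have c5 := RefL.tg_core H D a2 b2
      have c6 := RefL.tg_pa H hC0 b1 a2
      have hw : 1 ≤ e w := a2.hw.trans (red_le y p e w)
      have hk : ∀ e ∈ C.piAntidiag q, IsCore i ∅ psi e → RefL e y p u p' →
          Cheap 2 i (red y p e) := by
        intro e h5 h6 h7
        rcases h4 e h5 h6 h7 with h | h
        · exact Cheap.mono (by omega) h
        · exact h.1
      refine ⟨mem_filter.2 ⟨mem_filter.2 ⟨c6, c5, c2⟩, w, s, c4⟩, ?_, ?_⟩
      · have c7 := hu _ c6 c5 c2 w s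
        rw [sg2_eq c4 (fun w1 s1 h => c7 w1 s1 c4 h), tg_tg (a2.sw H) hw]
      · exact XR_pair H D b3 hM hC0 (spt_pa b1) a2
          (XR_dvd H hi hi2 D b3 hM hC (hk e b1 b2 b3) m)
          (XR_dvd H hi hi2 D c2 hM hC (hk _ c6 c5 c2) m)
    have h5 := dvd_sum_invol (fun e => sg2 i (red y p e) e) (fun e he => (key e he).1)
      (fun e he => (key e he).2.1) (fun e he => (key e he).2.2)
    rw [show b - 2 + 1 = b - 1 by omega] at h5
    exact h5
  · refine Finset.dvd_sum fun e he => ?_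
    obtain ⟨a1, a2⟩ := mem_filter.1 he
    obtain ⟨b1, b2, b3⟩ := mem_filter.1 a1
    rcases h4 e b1 b2 b3 with h | h
    · exact XR_dvd H hi hi2 D b3 hM hC h m
    · exact absurd h.2 a2

open Classical in
/-- THE REFLECTION CLASS -/
theorem asm_R (H : Gr P r) (hi : 1 ≤ i) (hi2 : i + 1 ≤ r) (hM : Mat P i ∅ psi)
    (hC : Part (i + 1) C) (D : RefD r i y p u p') (hp : psi y = u) (hpC : p ∈ C) (hpC' : p' ∈ C)
    {q : ℕ} (m : ℕ)
    (h4 : ∀ e ∈ C.piAntidiag q, IsCore i ∅ psi e → RefL e y p u p' →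
      Cheap 1 i (red y p e) ∨ (Cheap 2 i (red y p e) ∧ ∃ w s, TgP i (red y p e) w s))
    (hu : ∀ e ∈ C.piAntidiag q, IsCore i ∅ psi e → RefL e y p u p' → ∀ w s w1 s1,
      TgP i (red y p e) w s → TgP i (red y p e) w1 s1 → w1 = w ∧ s1 = s) :
    dd ^ ((st i C).card - 1) ∣
      ∑ e ∈ (C.piAntidiag q).filter
        (fun e => IsCore i ∅ psi e ∧ (RefL e y p u p' ∨ RefU e y p u p')),
        J i psi C m e := by
  have hC0 : Part i C := hC.pred
  have hpu := D.psi_u hM hp
  have hyC : y ∈ C := hC.up hpC D.py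
  have huC : u ∈ C := hC.dn hpC' (by have := D.lp' H; omega) D.up
  have e1 : (C.piAntidiag q).filter
        (fun e => IsCore i ∅ psi e ∧ (RefL e y p u p' ∨ RefU e y p u p')) =
      (C.piAntidiag q).filter (fun e => IsCore i ∅ psi e ∧ RefL e y p u p') ∪
      (C.piAntidiag q).filter (fun e => IsCore i ∅ psi e ∧ RefU e y p u p') := by
    ext e
    simp only [mem_filter, mem_union]
    tauto
  have e2 : Disjoint ((C.piAntidiag q).filter (fun e => IsCore i ∅ psi e ∧ RefL e y p u p'))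
      ((C.piAntidiag q).filter (fun e => IsCore i ∅ psi e ∧ RefU e y p u p')) := by
    rw [disjoint_left]
    intro e he he'
    have h1 := (mem_filter.1 he).2.2.eu
    have h2 := (mem_filter.1 he').2.2.hu
    omega
  have pa : ∀ e ∈ C.piAntidiag q, rho y p u p' e ∈ C.piAntidiag q := by
    intro e he
    rw [I2.mem_pa] at he ⊢
    refine ⟨by rw [D.rho_sum H]; exact he.1, ?_⟩
    intro z hz
    rw [RefD.rho_ne e (by rintro rfl; exact hz hyC) (by rintro rfl; exact hz hpC)
      (by rintro rfl; exact hz huC) (by rintro rfl; exact hz hpC')]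
    exact he.2 z hz
  have e3 : ∑ e ∈ (C.piAntidiag q).filter (fun e => IsCore i ∅ psi e ∧ RefU e y p u p'),
        J i psi C m e =
      ∑ e ∈ (C.piAntidiag q).filter (fun e => IsCore i ∅ psi e ∧ RefL e y p u p'),
        J i psi C m (rho y p u p' e) := by
    symm
    refine Finset.sum_nbij' (rho y p u p') (rho y p u p') ?_ ?_ ?_ ?_ ?_
    · intro e he
      obtain ⟨a1, a2, a3⟩ := mem_filter.1 he
      exact mem_filter.2 ⟨pa e a1, (a3.core_iff H D hM hp).2 a2, D.LU H a3⟩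
    · intro e he
      obtain ⟨a1, a2, a3⟩ := mem_filter.1 he
      refine mem_filter.2 ⟨pa e a1, ?_, D.UL H a3⟩
      rw [← (D.UL H a3).core_iff H D hM hp, D.rho_rho H]
      exact a2
    · intro e _
      exact D.rho_rho H e
    · intro e _
      exact D.rho_rho H e
    · intro e _
      rfl
  rw [e1, Finset.sum_union e2, e3, ← Finset.sum_add_distrib]
  have e4 : ∀ e ∈ (C.piAntidiag q).filter (fun e => IsCore i ∅ psi e ∧ RefL e y p u p'),
      J i psi C m e + J i psi C m (rho y p u p' e) = XR i psi C y p u m e := by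
    intro e he
    obtain ⟨a1, a2, a3⟩ := mem_filter.1 he
    exact a3.J_pair H D hM hp m
  rw [Finset.sum_congr rfl e4]
  exact asm_R1 H hi hi2 hM hC D m h4 hu

end Pool.Agent.GaussPoset.Win.So
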