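import Pool.Agent.W_448so_h17.AsB

/-!
S9, row 476, ASSEMBLY: the window sum of a part from the sums over cores.
-/

namespace Pool.Agent.GaussPoset.Win.So

set_option linter.unusedSectionVars false

open Finset

universe u

variable {P : Type u} [Fintype P] [PartialOrder P] [DecidableEq P] {r i : ℕ}

variable {e f : P → ℕ} {psi : P → P} {C : Finset P} {w s y p u p' : P}

open Classical in
/-- the window sum from the cores of fixed energy -/
theorem ZC_sub (H : Gr P r) (hir : i ≤ r) (hC : Part i C) {n k : ℕ} (L : (P → ℕ) → Prop)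
    (hLn : ∀ q < n, ∀ e ∈ C.piAntidiag q, ¬ L e)
    (h : ∀ q ≤ n, dd ^ k ∣
      ∑ e ∈ (C.piAntidiag q).filter (IsCore i ∅ psi), J i psi C (n - q) e -
        ∑ e ∈ (C.piAntidiag q).filter L, J i psi C (n - q) e) :
    dd ^ k ∣ ZC i C n - ∑ e ∈ (C.piAntidiag n).filter L, tC i C e := by
  have e1 : ∑ e ∈ (C.piAntidiag n).filter L, tC i C e =
      ∑ q ∈ range (n + 1), ∑ e ∈ (C.piAntidiag q).filter L, J i psi C (n - q) e := by
    rw [Finset.sum_range_succ]
    have e2 : ∑ q ∈ range n, ∑ e ∈ (C.piAntidiag q).filter L, J i psi C (n - q) e = 0 := by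
      refine Finset.sum_eq_zero fun q hq => ?_
      rw [Finset.filter_eq_empty_iff.2 (fun e he => hLn q (mem_range.1 hq) e he),
        Finset.sum_empty]
    rw [e2, zero_add]
    refine Finset.sum_congr rfl fun e he => ?_
    rw [Nat.sub_self, J_zero H hir hC (spt_pa (mem_filter.1 he).1)]
  rw [ZC_cores H hir psi hC n, e1, ← Finset.sum_sub_distrib]
  refine Finset.dvd_sum fun q hq => ?_
  exact h q (by rw [mem_range] at hq; omega)

open Classical in
/-- only configurations of `L` count: value of `be` -/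
theorem be_sum {n : ℕ} (L : (P → ℕ) → Prop) (hb : 1 ≤ (st i C).card)
    (h : dd ^ ((st i C).card - 1) ∣ ZC i C n - ∑ e ∈ (C.piAntidiag n).filter L, tC i C e) :
    I2.be n (st i C).card (ZS i C) =
      ∑ e ∈ (C.piAntidiag n).filter L, PowerSeries.coeff (st i C).card (dd ^ 2 * tC i C e : A) := by
  unfold I2.be
  rw [coeff_ZS, ← map_sum, ← Finset.mul_sum, ← sub_eq_zero, ← map_sub, ← mul_sub]
  apply I2.coeff_eq_zero_of_dvd
  have h1 := mul_dvd_mul_left (dd ^ 2) h
  rw [← pow_add] at h1
  exact (pow_dvd_pow dd (by omega)).trans h1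

open Classical in
theorem ZC_dvd2 {n : ℕ} (L : (P → ℕ) → Prop)
    (h : dd ^ ((st i C).card - 1) ∣ ZC i C n - ∑ e ∈ (C.piAntidiag n).filter L, tC i C e)
    (h2 : ∀ e ∈ C.piAntidiag n, L e → dd ^ ((st i C).card - 2) ∣ tC i C e) :
    dd ^ ((st i C).card - 2) ∣ ZC i C n := by
  have h3 : dd ^ ((st i C).card - 2) ∣ ∑ e ∈ (C.piAntidiag n).filter L, tC i C e :=
    Finset.dvd_sum fun e he => h2 e (mem_filter.1 he).1 (mem_filter.1 he).2
  have h4 := dvd_add ((pow_dvd_pow dd (Nat.sub_le_sub_left (by omega : 1 ≤ 2) _)).trans h) h3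
  rw [sub_add_cancel] at h4
  exact h4

/-- the labels of `e` on the sites and the reflection data: invariance under toggles -/
lemma refL_tg (H : Gr P r) (D : RefD r i y p u p') (T : TgP i e w s) :
    RefL (tg w s e) y p u p' ↔ RefL e y p u p' := by
  have ls := T.ls H
  have ly := D.ly
  have lp := D.lp H
  have lu := D.lu
  have lp' := D.lp' H
  have k : ∀ z, lev z ≠ i → (tg w s e z = 0 ↔ e z = 0) := fun z hz =>
    T.zero (by rintro rfl; exact hz ls)
  have k1 : ∀ z, lev z ≠ i → (1 ≤ tg w s e z ↔ 1 ≤ e z) := fun z hz => by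
    have := k z hz
    omega
  constructor
  · intro R
    refine ⟨(k1 y (by omega)).1 R.hy, (k1 p (by omega)).1 R.hp, (k u (by omega)).1 R.eu, ?_, ?_,
      ?_, ?_⟩
    · intro z hz hzp
      have l1 := lev_uc H (mem_uc.2 hz)
      exact (k z (by omega)).1 (R.ch z hz hzp)
    · intro z hz
      have l1 := lev_uc H (mem_uc.2 hz)
      exact (k z (by omega)).1 (R.chp z hz)
    · intro z hz
      have l1 := lev_uc H (mem_uc.2 hz)
      exact (k z (by omega)).1 (R.ab z hz)
    · intro z hz
      have l1 := lev_uc H (mem_uc.2 hz)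
      exact (k z (by omega)).1 (R.abp z hz)
  · intro R
    refine ⟨(k1 y (by omega)).2 R.hy, (k1 p (by omega)).2 R.hp, (k u (by omega)).2 R.eu, ?_, ?_,
      ?_, ?_⟩
    · intro z hz hzp
      have l1 := lev_uc H (mem_uc.2 hz)
      exact (k z (by omega)).2 (R.ch z hz hzp)
    · intro z hz
      have l1 := lev_uc H (mem_uc.2 hz)
      exact (k z (by omega)).2 (R.chp z hz)
    · intro z hz
      have l1 := lev_uc H (mem_uc.2 hz)
      exact (k z (by omega)).2 (R.ab z hz)
    · intro z hz
      have l1 := lev_uc H (mem_uc.2 hz)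
      exact (k z (by omega)).2 (R.abp z hz)

lemma refU_tg (H : Gr P r) (D : RefD r i y p u p') (T : TgP i e w s) :
    RefU (tg w s e) y p u p' ↔ RefU e y p u p' := by
  have ls := T.ls H
  have ly := D.ly
  have lp := D.lp H
  have lu := D.lu
  have lp' := D.lp' H
  have k : ∀ z, lev z ≠ i → (tg w s e z = 0 ↔ e z = 0) := fun z hz =>
    T.zero (by rintro rfl; exact hz ls)
  have k1 : ∀ z, lev z ≠ i → (1 ≤ tg w s e z ↔ 1 ≤ e z) := fun z hz => by
    have := k z hz
    omega
  constructor
  · intro R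
    refine ⟨(k1 u (by omega)).1 R.hu, (k1 p' (by omega)).1 R.hp, (k y (by omega)).1 R.ey, ?_, ?_,
      ?_, ?_⟩
    · intro z hz hzp
      have l1 := lev_uc H (mem_uc.2 hz)
      exact (k z (by omega)).1 (R.ab z hz hzp)
    · intro z hz
      have l1 := lev_uc H (mem_uc.2 hz)
      exact (k z (by omega)).1 (R.abp z hz)
    · intro z hz
      have l1 := lev_uc H (mem_uc.2 hz)
      exact (k z (by omega)).1 (R.ch z hz)
    · intro z hz
      have l1 := lev_uc H (mem_uc.2 hz)
      exact (k z (by omega)).1 (R.chp z hz)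
  · intro R
    refine ⟨(k1 u (by omega)).2 R.hu, (k1 p' (by omega)).2 R.hp, (k y (by omega)).2 R.ey, ?_, ?_,
      ?_, ?_⟩
    · intro z hz hzp
      have l1 := lev_uc H (mem_uc.2 hz)
      exact (k z (by omega)).2 (R.ab z hz hzp)
    · intro z hz
      have l1 := lev_uc H (mem_uc.2 hz)
      exact (k z (by omega)).2 (R.abp z hz)
    · intro z hz
      have l1 := lev_uc H (mem_uc.2 hz)
      exact (k z (by omega)).2 (R.ch z hz)
    · intro z hz
      have l1 := lev_uc H (mem_uc.2 hz)
      exact (k z (by omega)).2 (R.chp z hz)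

/-- the number of cores with and without reflection -/
lemma core_split {q : ℕ} (N : (P → ℕ) → Prop) [DecidablePred N]
    [DecidablePred (IsCore i ∅ psi)] (F : (P → ℕ) → A) :
    ∑ e ∈ (C.piAntidiag q).filter (IsCore i ∅ psi), F e =
      ∑ e ∈ (C.piAntidiag q).filter (fun e => IsCore i ∅ psi e ∧ ¬ N e), F e +
        ∑ e ∈ (C.piAntidiag q).filter (fun e => IsCore i ∅ psi e ∧ N e), F e := by
  rw [← Finset.sum_filter_add_sum_filter_not _ N, add_comm, Finset.filter_filter,
    Finset.filter_filter]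

end Pool.Agent.GaussPoset.Win.So
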