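import Pool.Agent.W_448so_h64.SoH
import Pool.Agent.W_448so_h17.AsC

/-!
S9, row 476, ASSEMBLY: facts about the explicit configurations of the lists `LO5`, `LO6`.
-/

namespace Pool.Agent.GaussPoset.Win.SO

set_option linter.unusedSectionVars false

open Finset

universe u

variable {P : Type u} [Fintype P] [DecidableEq P]
variable {c c' : P → Finset P} {t t' : P → ℕ} {V Sd Sd' : Finset P} {psi : P → P} {e : P → ℕ}
variable {w x x' s w' y y' s' z p : P}

lemma TD.facts (S : Sde c c' t V Sd) (T : TD c t Sd w x x' s) :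
    x ∈ Sd ∧ t x = 1 ∧ x' ∈ Sd ∧ t x' = 1 ∧ w ∈ c' x ∧ w ∈ c' x' ∧ s ∈ V := by
  have hx : x ∈ c w := by rw [T.cw]; exact mem_insert_self _ _
  have hx' : x' ∈ c w := by rw [T.cw]; exact mem_insert_of_mem (mem_singleton_self _)
  have tw := T.tw
  obtain ⟨a1, a2⟩ := S.cin w T.m x hx
  obtain ⟨b1, b2⟩ := S.cin w T.m x' hx'
  have m1 : x ∈ Sd := by
    rcases a1 with h | h
    · exact h
    · have := S.tV x h
      omega
  have m2 : x' ∈ Sd := by
    rcases b1 with h | h
    · exact h
    · have := S.tV x' h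
      omega
  obtain ⟨c1, c2⟩ := S.cin x m1 s T.sx
  refine ⟨m1, by omega, m2, by omega, (S.dual w x).1 hx, (S.dual w x').1 hx', ?_⟩
  rcases c1 with h | h
  · have := S.tS s h
    omega
  · exact h

lemma Pen.facts (S : Sde c c' t V Sd) (T : Pen c t Sd p y) :
    y ∈ Sd ∧ t y = 1 ∧ p ∈ c' y := by
  have hy : y ∈ c p := by rw [T.cp]; exact mem_singleton_self _
  have tp := T.tp
  obtain ⟨a1, a2⟩ := S.cin p T.m y hy
  refine ⟨?_, by omega, (S.dual p y).1 hy⟩
  rcases a1 with h | h
  · exact h
  · have := S.tV y h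
    omega

lemma above_facts (S : Sde c c' t V Sd) (hz : z ∈ Sd) (h : w ∈ c z) (tw : t w = 2) :
    t z = 3 ∧ z ∈ c' w := by
  obtain ⟨a1, a2⟩ := S.cin z hz w h
  exact ⟨by omega, (S.dual z w).1 h⟩

/-- near elements are touched, labels at distance two are small -/
structure Fin1 (c c' : P → Finset P) (t : P → ℕ) (Sd : Finset P) (e : P → ℕ) : Prop where
  f1 : ∀ x ∈ Sd, t x = 1 → 0 < e x → ∃ z ∈ c' x, 0 < e z
  f2 : ∀ w ∈ Sd, t w = 2 → 2 ≤ e w → ∃ z ∈ c' w, 2 ≤ e z

/-- excited pendants are not extremal -/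
def Fin2 (c c' : P → Finset P) (t : P → ℕ) (Sd : Finset P) (e : P → ℕ) : Prop :=
  ∀ p ∈ Sd, t p = 2 → (c p).card = 1 → 0 < e p → ∃ z ∈ c' p, 0 < e z

lemma On.pos {S : Finset P} (h : On e S) {x : P} (hx : x ∈ S) : 0 < e x := by
  rw [h x, if_pos hx]
  omega

lemma On.mem {S : Finset P} (h : On e S) {x : P} (hx : 0 < e x) : x ∈ S := by
  by_contra h'
  rw [h x, if_neg h'] at hx
  omega

lemma On.le {S : Finset P} (h : On e S) (x : P) : e x ≤ 1 := by
  rw [h x]
  split_ifs <;> omega

/-- zero configuration on a side -/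
lemma Fin1.zero (h : ∀ x ∈ Sd, e x = 0) : Fin1 c c' t Sd e ∧ Fin2 c c' t Sd e := by
  refine ⟨⟨?_, ?_⟩, ?_⟩
  · intro x hx _ h1
    have := h x hx
    omega
  · intro x hx _ h1
    have := h x hx
    omega
  · intro x hx _ _ h1
    have := h x hx
    omega

/-- all labels at most one -/
lemma Fin1.on (h1 : ∀ x, e x ≤ 1) (h : ∀ x ∈ Sd, t x = 1 → 0 < e x → ∃ z ∈ c' x, 0 < e z) :
    Fin1 c c' t Sd e :=
  ⟨h, fun w _ _ h2 => absurd (h1 w) (by omega)⟩

section sums

lemma sum_ge_of {S : Finset P} (h : ∀ x ∈ S, 1 ≤ e x) : S.card ≤ ∑ x, e x := by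
  have h1 : S.card ≤ ∑ x ∈ S, e x := by
    rw [Finset.card_eq_sum_ones]
    exact Finset.sum_le_sum h
  exact h1.trans (Finset.sum_le_sum_of_subset (subset_univ _))

lemma card_three {a b d : P} (h1 : a ≠ b) (h2 : a ≠ d) (h3 : b ≠ d) :
    ({a, b, d} : Finset P).card = 3 := by
  rw [card_insert_of_notMem, card_pair h3]
  simp only [mem_insert, mem_singleton, not_or]
  exact ⟨h1, h2⟩

lemma six_of {a b d f g h : P} (S1 : Disjoint ({a, b, d} : Finset P) {f, g, h})
    (h1 : a ≠ b) (h2 : a ≠ d) (h3 : b ≠ d) (h4 : f ≠ g) (h5 : f ≠ h) (h6 : g ≠ h)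
    (k : 1 ≤ e a ∧ 1 ≤ e b ∧ 1 ≤ e d ∧ 1 ≤ e f ∧ 1 ≤ e g ∧ 1 ≤ e h) : 6 ≤ ∑ x, e x := by
  have h7 : (({a, b, d} : Finset P) ∪ {f, g, h}).card = 6 := by
    rw [card_union_of_disjoint S1, card_three h1 h2 h3, card_three h4 h5 h6]
  rw [← h7]
  apply sum_ge_of
  intro x hx
  simp only [mem_union, mem_insert, mem_singleton] at hx
  obtain ⟨k1, k2, k3, k4, k5, k6⟩ := k
  rcases hx with (rfl | rfl | rfl) | (rfl | rfl | rfl) <;> assumption

lemma five_of {a b d f g : P} (S1 : Disjoint ({a, b, d} : Finset P) {f, g})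
    (h1 : a ≠ b) (h2 : a ≠ d) (h3 : b ≠ d) (h4 : f ≠ g)
    (k : 1 ≤ e a ∧ 1 ≤ e b ∧ 1 ≤ e d ∧ 1 ≤ e f ∧ 1 ≤ e g) : 5 ≤ ∑ x, e x := by
  have h7 : (({a, b, d} : Finset P) ∪ {f, g}).card = 5 := by
    rw [card_union_of_disjoint S1, card_three h1 h2 h3, card_pair h4]
  rw [← h7]
  apply sum_ge_of
  intro x hx
  simp only [mem_union, mem_insert, mem_singleton] at hx
  obtain ⟨k1, k2, k3, k4, k5⟩ := k
  rcases hx with (rfl | rfl | rfl) | (rfl | rfl) <;> assumption

lemma four_le {a b d f : P} (h1 : a ≠ b) (h2 : a ≠ d) (h3 : a ≠ f) (h4 : b ≠ d) (h5 : b ≠ f)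
    (h6 : d ≠ f) : e a + (e b + (e d + e f)) ≤ ∑ x, e x := by
  have h7 : ∑ x ∈ ({a, b, d, f} : Finset P), e x = e a + (e b + (e d + e f)) := by
    rw [sum_insert, sum_insert, sum_pair h6]
    · simp only [mem_insert, mem_singleton, not_or]
      exact ⟨h4, h5⟩
    · simp only [mem_insert, mem_singleton, not_or]
      exact ⟨h1, h2, h3⟩
  rw [← h7]
  exact Finset.sum_le_sum_of_subset (subset_univ _)

end sums

/-- the properties of an explicit configuration of the list of energy six -/
structure Ex6 (c c' : P → Finset P) (t t' : P → ℕ) (V Sd Sd' : Finset P) (e : P → ℕ) : Prop where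
  E : 6 ≤ ∑ x, e x
  v0 : ∀ v ∈ V, e v = 0
  a1 : Fin1 c c' t Sd e
  a2 : Fin2 c c' t Sd e
  b1 : Fin1 c' c t' Sd' e
  b2 : Fin2 c' c t' Sd' e

lemma Ex6.symm (h : Ex6 c c' t t' V Sd Sd' e) : Ex6 c' c t' t V Sd' Sd e :=
  ⟨h.E, h.v0, h.b1, h.b2, h.a1, h.a2⟩

/-- a configuration supported on one side -/
lemma Ex6.one_side (W : Two c c' t t' V Sd Sd' psi) (hE : 6 ≤ ∑ x, e x)
    (hS : ∀ x, 0 < e x → x ∈ Sd) (a1 : Fin1 c c' t Sd e) (a2 : Fin2 c c' t Sd e) :
    Ex6 c c' t t' V Sd Sd' e := by
  have h0 : ∀ x ∈ Sd', e x = 0 := by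
    intro x hx
    by_contra h
    exact (disjoint_left.1 W.d3 (hS x (by omega))) hx
  refine ⟨hE, ?_, a1, a2, (Fin1.zero h0).1, (Fin1.zero h0).2⟩
  intro v hv
  by_contra h
  exact (disjoint_left.1 W.d1 (hS v (by omega))) hv

lemma ne_disj {S : Finset P} (hd : Disjoint (c x ∪ c x') S) (hs : s ∈ c x) (hs' : s ∈ c x')
    (hy : c y ⊆ S) : x ≠ y ∧ x' ≠ y := by
  constructor
  · rintro rfl
    exact (disjoint_left.1 hd (mem_union_left _ hs)) (hy hs)
  · rintro rfl
    exact (disjoint_left.1 hd (mem_union_right _ hs')) (hy hs')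

theorem TTp.ex (W : Two c c' t t' V Sd Sd' psi) (h : TTp c t Sd e) :
    Ex6 c c' t t' V Sd Sd' e := by
  obtain ⟨w, x, x', s, w', y, y', s', T, T', hd, on⟩ := h
  obtain ⟨m1, t1, m2, t2, d1, d2, -⟩ := T.facts W.s1
  obtain ⟨n1, u1, n2, u2, f1, f2, -⟩ := T'.facts W.s1
  have tw := T.tw
  have tw' := T'.tw
  have k := ne_disj (y := y) hd T.sx T.sx' subset_union_left
  have k' := ne_disj (y := y') hd T.sx T.sx' subset_union_right
  have hne : ∀ a b : P, t a ≠ t b → a ≠ b := fun a b h h' => h (congrArg t h')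
  have hww : w ≠ w' := by
    rintro rfl
    have h1 : x ∈ c w := by rw [T.cw]; exact mem_insert_self _ _
    rw [T'.cw, mem_insert, mem_singleton] at h1
    rcases h1 with h1 | h1
    · exact k.1 h1
    · exact k'.1 h1
  refine Ex6.one_side W ?_ ?_ (Fin1.on on.le ?_) ?_
  · refine six_of (a := w) (b := x) (d := x') (f := w') (g := y) (h := y') ?_
      (hne _ _ (by omega)) (hne _ _ (by omega)) T.ne (hne _ _ (by omega)) (hne _ _ (by omega))
      T'.ne ?_
    · rw [disjoint_left]
      intro a ha hb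
      simp only [mem_insert, mem_singleton] at ha hb
      rcases ha with rfl | rfl | rfl <;> rcases hb with hb | hb | hb
      · exact hww hb
      · exact hne _ _ (by omega) hb
      · exact hne _ _ (by omega) hb
      · exact hne _ _ (by omega) hb
      · exact k.1 hb
      · exact k'.1 hb
      · exact hne _ _ (by omega) hb
      · exact k.2 hb
      · exact k'.2 hb
    · refine ⟨?_, ?_, ?_, ?_, ?_, ?_⟩ <;> exact on.pos (by simp)
  · intro a ha
    have := on.mem ha
    simp only [mem_insert, mem_singleton] at this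
    rcases this with rfl | rfl | rfl | rfl | rfl | rfl
    exacts [T.m, m1, m2, T'.m, n1, n2]
  · intro a _ ta ha
    have := on.mem ha
    simp only [mem_insert, mem_singleton] at this
    rcases this with rfl | rfl | rfl | rfl | rfl | rfl
    · omega
    · exact ⟨w, d1, on.pos (by simp)⟩
    · exact ⟨w, d2, on.pos (by simp)⟩
    · omega
    · exact ⟨w', f1, on.pos (by simp)⟩
    · exact ⟨w', f2, on.pos (by simp)⟩
  · intro a _ ta hc ha
    have := on.mem ha
    simp only [mem_insert, mem_singleton] at this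
    rcases this with rfl | rfl | rfl | rfl | rfl | rfl
    · rw [T.cw, card_pair T.ne] at hc; omega
    · omega
    · omega
    · rw [T'.cw, card_pair T'.ne] at hc; omega
    · omega
    · omega

theorem TCp.ex (W : Two c c' t t' V Sd Sd' psi) (h : TCp c t Sd e) :
    Ex6 c c' t t' V Sd Sd' e := by
  obtain ⟨w, x, x', s, z, p, y, T, T', hd, on⟩ := h
  obtain ⟨m1, t1, m2, t2, d1, d2, -⟩ := T.facts W.s1
  obtain ⟨n1, u1, f1⟩ := T'.pen.facts W.s1
  have tw := T.tw
  have tp := T'.pen.tp
  have hpz : p ∈ c z := by rw [T'.cz]; exact mem_singleton_self _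
  obtain ⟨tz, f2⟩ := above_facts W.s1 T'.m hpz tp
  have k := ne_disj (y := y) hd T.sx T.sx' (Subset.refl _)
  have hne : ∀ a b : P, t a ≠ t b → a ≠ b := fun a b h h' => h (congrArg t h')
  have hwp : w ≠ p := by
    rintro rfl
    have h1 : x ∈ c w := by rw [T.cw]; exact mem_insert_self _ _
    rw [T'.pen.cp, mem_singleton] at h1
    exact k.1 h1
  refine Ex6.one_side W ?_ ?_ (Fin1.on on.le ?_) ?_
  · refine six_of (a := w) (b := x) (d := x') (f := z) (g := p) (h := y) ?_
      (hne _ _ (by omega)) (hne _ _ (by omega)) T.ne (hne _ _ (by omega)) (hne _ _ (by omega))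
      (hne _ _ (by omega)) ?_
    · rw [disjoint_left]
      intro a ha hb
      simp only [mem_insert, mem_singleton] at ha hb
      rcases ha with rfl | rfl | rfl <;> rcases hb with hb | hb | hb
      · exact hne _ _ (by omega) hb
      · exact hwp hb
      · exact hne _ _ (by omega) hb
      · exact hne _ _ (by omega) hb
      · exact hne _ _ (by omega) hb
      · exact k.1 hb
      · exact hne _ _ (by omega) hb
      · exact hne _ _ (by omega) hb
      · exact k.2 hb
    · refine ⟨?_, ?_, ?_, ?_, ?_, ?_⟩ <;> exact on.pos (by simp)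
  · intro a ha
    have := on.mem ha
    simp only [mem_insert, mem_singleton] at this
    rcases this with rfl | rfl | rfl | rfl | rfl | rfl
    exacts [T.m, m1, m2, T'.m, T'.pen.m, n1]
  · intro a _ ta ha
    have := on.mem ha
    simp only [mem_insert, mem_singleton] at this
    rcases this with rfl | rfl | rfl | rfl | rfl | rfl
    · omega
    · exact ⟨w, d1, on.pos (by simp)⟩
    · exact ⟨w, d2, on.pos (by simp)⟩
    · omega
    · omega
    · exact ⟨p, f1, on.pos (by simp)⟩
  · intro a _ ta hc ha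
    have := on.mem ha
    simp only [mem_insert, mem_singleton] at this
    rcases this with rfl | rfl | rfl | rfl | rfl | rfl
    · rw [T.cw, card_pair T.ne] at hc; omega
    · omega
    · omega
    · omega
    · exact ⟨z, f2, on.pos (by simp)⟩
    · omega

theorem N5.ex (W : Two c c' t t' V Sd Sd' psi) (h : N5 c t Sd e) :
    Ex6 c c' t t' V Sd Sd' e := by
  obtain ⟨z, p, y, w, x, x', s, T', T, hz, hzp, hzw, hpw, cz, hd, on⟩ := h
  obtain ⟨m1, t1, m2, t2, d1, d2, -⟩ := T.facts W.s1
  obtain ⟨n1, u1, f1⟩ := T'.facts W.s1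
  have tw := T.tw
  have tp := T'.tp
  have hpz : p ∈ c z := by rw [cz]; exact mem_insert_self _ _
  have hwz : w ∈ c z := by rw [cz]; exact mem_insert_of_mem (mem_singleton_self _)
  obtain ⟨tz, f2⟩ := above_facts W.s1 hz hpz tp
  have k := ne_disj (y := y) hd.symm T.sx T.sx' (Subset.refl _)
  have hne : ∀ a b : P, t a ≠ t b → a ≠ b := fun a b h h' => h (congrArg t h')
  refine Ex6.one_side W ?_ ?_ (Fin1.on on.le ?_) ?_
  · refine six_of (a := w) (b := x) (d := x') (f := z) (g := p) (h := y) ?_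
      (hne _ _ (by omega)) (hne _ _ (by omega)) T.ne (hne _ _ (by omega)) (hne _ _ (by omega))
      (hne _ _ (by omega)) ?_
    · rw [disjoint_left]
      intro a ha hb
      simp only [mem_insert, mem_singleton] at ha hb
      rcases ha with rfl | rfl | rfl <;> rcases hb with hb | hb | hb
      · exact hne _ _ (by omega) hb
      · exact hpw hb.symm
      · exact hne _ _ (by omega) hb
      · exact hne _ _ (by omega) hb
      · exact hne _ _ (by omega) hb
      · exact k.1 hb
      · exact hne _ _ (by omega) hb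
      · exact hne _ _ (by omega) hb
      · exact k.2 hb
    · refine ⟨?_, ?_, ?_, ?_, ?_, ?_⟩ <;> exact on.pos (by simp)
  · intro a ha
    have := on.mem ha
    simp only [mem_insert, mem_singleton] at this
    rcases this with rfl | rfl | rfl | rfl | rfl | rfl
    exacts [hz, T'.m, T.m, n1, m1, m2]
  · intro a _ ta ha
    have := on.mem ha
    simp only [mem_insert, mem_singleton] at this
    rcases this with rfl | rfl | rfl | rfl | rfl | rfl
    · omega
    · omega
    · omega
    · exact ⟨p, f1, on.pos (by simp)⟩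
    · exact ⟨w, d1, on.pos (by simp)⟩
    · exact ⟨w, d2, on.pos (by simp)⟩
  · intro a _ ta hc ha
    have := on.mem ha
    simp only [mem_insert, mem_singleton] at this
    rcases this with rfl | rfl | rfl | rfl | rfl | rfl
    · omega
    · exact ⟨z, f2, on.pos (by simp)⟩
    · rw [T.cw, card_pair T.ne] at hc; omega
    · omega
    · omega
    · omega

theorem N1.ex (W : Two c c' t t' V Sd Sd' psi) (h : N1 c t Sd e) :
    Ex6 c c' t t' V Sd Sd' e := by
  obtain ⟨z, w, x, x', s, T, hz, cz, he⟩ := h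
  obtain ⟨m1, t1, m2, t2, d1, d2, -⟩ := T.facts W.s1
  have tw := T.tw
  have hwz : w ∈ c z := by rw [cz]; exact mem_singleton_self _
  obtain ⟨tz, f2⟩ := above_facts W.s1 hz hwz tw
  have hne : ∀ a b : P, t a ≠ t b → a ≠ b := fun a b h h' => h (congrArg t h')
  have ez : e z = 2 := by rw [he z, if_pos (Or.inl rfl)]
  have ew : e w = 2 := by rw [he w, if_pos (Or.inr rfl)]
  have ex : e x = 1 := by
    rw [he x, if_neg, if_pos (Or.inl rfl)]
    rintro (h | h)
    · exact hne _ _ (by omega) h
    · exact hne _ _ (by omega) h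
  have ex' : e x' = 1 := by
    rw [he x', if_neg, if_pos (Or.inr rfl)]
    rintro (h | h)
    · exact hne _ _ (by omega) h
    · exact hne _ _ (by omega) h
  have hpos : ∀ a, 0 < e a → a = z ∨ a = w ∨ a = x ∨ a = x' := by
    intro a ha
    rw [he a] at ha
    split_ifs at ha with h1 h2
    · tauto
    · tauto
    · omega
  refine Ex6.one_side W ?_ ?_ ⟨?_, ?_⟩ ?_
  · have h1 := four_le (e := e) (hne z w (by omega)) (hne z x (by omega)) (hne z x' (by omega))
      (hne w x (by omega)) (hne w x' (by omega)) T.ne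
    omega
  · intro a ha
    rcases hpos a ha with rfl | rfl | rfl | rfl
    exacts [hz, T.m, m1, m2]
  · intro a _ ta ha
    rcases hpos a ha with rfl | rfl | rfl | rfl
    · omega
    · omega
    · exact ⟨w, d1, by omega⟩
    · exact ⟨w, d2, by omega⟩
  · intro a _ ta ha
    rcases hpos a (by omega) with rfl | rfl | rfl | rfl
    · omega
    · exact ⟨z, f2, by omega⟩
    · omega
    · omega
  · intro a _ ta hc ha
    rcases hpos a ha with rfl | rfl | rfl | rfl
    · omega
    · exact ⟨z, f2, by omega⟩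
    · omega
    · omega

theorem TUp.ex (W : Two c c' t t' V Sd Sd' psi) (h : TUp c c' t t' Sd Sd' e) :
    Ex6 c c' t t' V Sd Sd' e := by
  obtain ⟨w, x, x', s, w', y, y', s', T, T', hd, on⟩ := h
  obtain ⟨m1, t1, m2, t2, d1, d2, -⟩ := T.facts W.s1
  obtain ⟨n1, u1, n2, u2, f1, f2, -⟩ := T'.facts W.s2
  have tw := T.tw
  have tw' := T'.tw
  have hne : ∀ a b : P, t a ≠ t b → a ≠ b := fun a b h h' => h (congrArg t h')
  have hne' : ∀ a b : P, t' a ≠ t' b → a ≠ b := fun a b h h' => h (congrArg t' h')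
  have hside : ∀ a ∈ Sd, 0 < e a → a = w ∨ a = x ∨ a = x' := by
    intro a ha h
    have := on.mem h
    simp only [mem_insert, mem_singleton] at this
    rcases this with h | h | h | rfl | rfl | rfl
    · exact Or.inl h
    · exact Or.inr (Or.inl h)
    · exact Or.inr (Or.inr h)
    · exact absurd T'.m (disjoint_left.1 W.d3 ha)
    · exact absurd n1 (disjoint_left.1 W.d3 ha)
    · exact absurd n2 (disjoint_left.1 W.d3 ha)
  have hside' : ∀ a ∈ Sd', 0 < e a → a = w' ∨ a = y ∨ a = y' := by
    intro a ha h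
    have := on.mem h
    simp only [mem_insert, mem_singleton] at this
    rcases this with rfl | rfl | rfl | h | h | h
    · exact absurd ha (disjoint_left.1 W.d3 T.m)
    · exact absurd ha (disjoint_left.1 W.d3 m1)
    · exact absurd ha (disjoint_left.1 W.d3 m2)
    · exact Or.inl h
    · exact Or.inr (Or.inl h)
    · exact Or.inr (Or.inr h)
  refine ⟨?_, ?_, Fin1.on on.le ?_, ?_, Fin1.on on.le ?_, ?_⟩
  · refine six_of (a := w) (b := x) (d := x') (f := w') (g := y) (h := y') ?_
      (hne _ _ (by omega)) (hne _ _ (by omega)) T.ne (hne' _ _ (by omega)) (hne' _ _ (by omega))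
      T'.ne ?_
    · refine Disjoint.mono ?_ ?_ W.d3
      · intro a ha
        simp only [mem_insert, mem_singleton] at ha
        rcases ha with rfl | rfl | rfl
        exacts [T.m, m1, m2]
      · intro a ha
        simp only [mem_insert, mem_singleton] at ha
        rcases ha with rfl | rfl | rfl
        exacts [T'.m, n1, n2]
    · refine ⟨?_, ?_, ?_, ?_, ?_, ?_⟩ <;> exact on.pos (by simp)
  · intro v hv
    by_contra h
    have := on.mem (show 0 < e v by omega)
    simp only [mem_insert, mem_singleton] at this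
    rcases this with rfl | rfl | rfl | rfl | rfl | rfl
    · exact (disjoint_left.1 W.d1 T.m) hv
    · exact (disjoint_left.1 W.d1 m1) hv
    · exact (disjoint_left.1 W.d1 m2) hv
    · exact (disjoint_left.1 W.d2 T'.m) hv
    · exact (disjoint_left.1 W.d2 n1) hv
    · exact (disjoint_left.1 W.d2 n2) hv
  · intro a ha ta h
    rcases hside a ha h with rfl | rfl | rfl
    · omega
    · exact ⟨w, d1, on.pos (by simp)⟩
    · exact ⟨w, d2, on.pos (by simp)⟩
  · intro a ha ta hc h
    rcases hside a ha h with rfl | rfl | rfl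
    · rw [T.cw, card_pair T.ne] at hc; omega
    · omega
    · omega
  · intro a ha ta h
    rcases hside' a ha h with rfl | rfl | rfl
    · omega
    · exact ⟨w', f1, on.pos (by simp)⟩
    · exact ⟨w', f2, on.pos (by simp)⟩
  · intro a ha ta hc h
    rcases hside' a ha h with rfl | rfl | rfl
    · rw [T'.cw, card_pair T'.ne] at hc; omega
    · omega
    · omega

theorem TVp.ex (W : Two c c' t t' V Sd Sd' psi) (h : TVp c c' t t' Sd Sd' e) :
    Ex6 c c' t t' V Sd Sd' e := by
  obtain ⟨w, x, x', s, z, p, y, T, T', hd, on⟩ := h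
  obtain ⟨m1, t1, m2, t2, d1, d2, -⟩ := T.facts W.s1
  obtain ⟨n1, u1, f1⟩ := T'.pen.facts W.s2
  have tw := T.tw
  have tp := T'.pen.tp
  have hpz : p ∈ c' z := by rw [T'.cz]; exact mem_singleton_self _
  obtain ⟨tz, f2⟩ := above_facts W.s2 T'.m hpz tp
  have hne : ∀ a b : P, t a ≠ t b → a ≠ b := fun a b h h' => h (congrArg t h')
  have hne' : ∀ a b : P, t' a ≠ t' b → a ≠ b := fun a b h h' => h (congrArg t' h')
  have hside : ∀ a ∈ Sd, 0 < e a → a = w ∨ a = x ∨ a = x' := by
    intro a ha h
    have := on.mem h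
    simp only [mem_insert, mem_singleton] at this
    rcases this with h | h | h | rfl | rfl | rfl
    · exact Or.inl h
    · exact Or.inr (Or.inl h)
    · exact Or.inr (Or.inr h)
    · exact absurd T'.m (disjoint_left.1 W.d3 ha)
    · exact absurd T'.pen.m (disjoint_left.1 W.d3 ha)
    · exact absurd n1 (disjoint_left.1 W.d3 ha)
  have hside' : ∀ a ∈ Sd', 0 < e a → a = z ∨ a = p ∨ a = y := by
    intro a ha h
    have := on.mem h
    simp only [mem_insert, mem_singleton] at this
    rcases this with rfl | rfl | rfl | h | h | h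
    · exact absurd ha (disjoint_left.1 W.d3 T.m)
    · exact absurd ha (disjoint_left.1 W.d3 m1)
    · exact absurd ha (disjoint_left.1 W.d3 m2)
    · exact Or.inl h
    · exact Or.inr (Or.inl h)
    · exact Or.inr (Or.inr h)
  refine ⟨?_, ?_, Fin1.on on.le ?_, ?_, Fin1.on on.le ?_, ?_⟩
  · refine six_of (a := w) (b := x) (d := x') (f := z) (g := p) (h := y) ?_
      (hne _ _ (by omega)) (hne _ _ (by omega)) T.ne (hne' _ _ (by omega)) (hne' _ _ (by omega))
      (hne' _ _ (by omega)) ?_
    · refine Disjoint.mono ?_ ?_ W.d3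
      · intro a ha
        simp only [mem_insert, mem_singleton] at ha
        rcases ha with rfl | rfl | rfl
        exacts [T.m, m1, m2]
      · intro a ha
        simp only [mem_insert, mem_singleton] at ha
        rcases ha with rfl | rfl | rfl
        exacts [T'.m, T'.pen.m, n1]
    · refine ⟨?_, ?_, ?_, ?_, ?_, ?_⟩ <;> exact on.pos (by simp)
  · intro v hv
    by_contra h
    have := on.mem (show 0 < e v by omega)
    simp only [mem_insert, mem_singleton] at this
    rcases this with rfl | rfl | rfl | rfl | rfl | rfl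
    · exact (disjoint_left.1 W.d1 T.m) hv
    · exact (disjoint_left.1 W.d1 m1) hv
    · exact (disjoint_left.1 W.d1 m2) hv
    · exact (disjoint_left.1 W.d2 T'.m) hv
    · exact (disjoint_left.1 W.d2 T'.pen.m) hv
    · exact (disjoint_left.1 W.d2 n1) hv
  · intro a ha ta h
    rcases hside a ha h with rfl | rfl | rfl
    · omega
    · exact ⟨w, d1, on.pos (by simp)⟩
    · exact ⟨w, d2, on.pos (by simp)⟩
  · intro a ha ta hc h
    rcases hside a ha h with rfl | rfl | rfl
    · rw [T.cw, card_pair T.ne] at hc; omega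
    · omega
    · omega
  · intro a ha ta h
    rcases hside' a ha h with rfl | rfl | rfl
    · omega
    · omega
    · exact ⟨p, f1, on.pos (by simp)⟩
  · intro a ha ta hc h
    rcases hside' a ha h with rfl | rfl | rfl
    · omega
    · exact ⟨z, f2, on.pos (by simp)⟩
    · omega

/-- all explicit configurations of energy six -/
theorem LO6.ex (W : Two c c' t t' V Sd Sd' psi) (h : LO6 c c' t t' Sd Sd' e) :
    Ex6 c c' t t' V Sd Sd' e := by
  rcases h with h | h | h | h | h | h | h | h | h | h | h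
  · exact h.ex W
  · exact (TTp.ex W.symm h).symm
  · exact h.ex W
  · exact (TCp.ex W.symm h).symm
  · exact h.ex W
  · exact h.ex W
  · exact (TVp.ex W.symm h).symm
  · exact h.ex W
  · exact (N1.ex W.symm h).symm
  · exact h.ex W
  · exact (N5.ex W.symm h).symm

end Pool.Agent.GaussPoset.Win.SO
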