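import Pool.Agent.W_448i2_h61.TD
import Pool.Agent.W_448win_h16.PlC

/-!
S9, second order identities at the window `i = j - 1`: the configurations which excite an element
outside the extended components (`cuni (i+2) κ`), energies at most six.
-/

namespace Pool.Agent.GaussPoset.Win.So

set_option linter.unusedSectionVars false

open Finset

universe u

variable {P : Type u} [Fintype P] [PartialOrder P] [DecidableEq P] {r i l : ℕ}

variable {ι : Type*} [DecidableEq ι] {κ : P → ι} {e : P → ℕ}

open Classical in
/-- core theorem for a class `Q` of configurations which only depends on the core -/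
theorem core_sum_Q (H : Gr P r) {i : ℕ} (hi : 1 ≤ i) (hi2 : i + 1 ≤ r) {K : Finset P}
    {psi : P → P} (hM : Mat P i K psi) (n k : ℕ) (Q : (P → ℕ) → Prop)
    (hQ : ∀ e l : P → ℕ, (∀ x, x ∉ near P i → l x = 0) → (Q (e + l) ↔ Q e))
    (hk : ∀ e : P → ℕ, IsCore i K psi e → Q e → ∑ x, e x < n → Rk (lv P i) k (Fe i e))
    (S : Finset (P → ℕ)) (hS : ∀ e ∈ S, IsCore i K psi e ∧ ∑ x, e x = n ∧ Q e)
    (hall : ∀ e : P → ℕ, IsCore i K psi e → Q e → ∑ x, e x = n → e ∉ S →
      Rk (lv P i) k (Fe i e)) :
    dd ^ ((lv P i).card - k) ∣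
      ∑ e ∈ ((univ : Finset P).piAntidiag n).filter Q, trm i e - ∑ e ∈ S, trm i e := by
  have hl0 : ∀ (e0 l : P → ℕ) (m : ℕ), l ∈ (Rst i K psi e0).piAntidiag m →
      (Q (e0 + l) ↔ Q e0) := by
    intro e0 l m hl
    apply hQ
    intro x hx
    by_contra h
    rw [Finset.mem_piAntidiag] at hl
    exact hx (mem_Rst.mp (hl.2 x h)).1
  rw [Finset.sum_filter, core_group H (fun e => if Q e then trm i e else 0) i K psi n,
    Finset.sum_range_succ, Nat.sub_self]
  have h1 : dd ^ ((lv P i).card - k) ∣ ∑ q ∈ range n,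
      ∑ e0 ∈ ((univ : Finset P).piAntidiag q).filter (IsCore i K psi),
        ∑ l ∈ (Rst i K psi e0).piAntidiag (n - q),
          (if Q (e0 + l) then trm i (e0 + l) else 0) := by
    refine Finset.dvd_sum fun q hq => Finset.dvd_sum fun e0 he => ?_
    rw [Finset.mem_range] at hq
    rw [Finset.mem_filter, Finset.mem_piAntidiag] at he
    by_cases hQ0 : Q e0
    · have h2 : ∑ x, e0 x = q := he.1.1
      have h3 := Rk_II (core_cheap H hi hi2 hM he.2 (hk e0 he.2 hQ0 (by omega)) (n - q))
      have h4 : II i (fun S => ∑ l ∈ (Rst i K psi e0).piAntidiag (n - q), Fe i (e0 + l) S) =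
          ∑ l ∈ (Rst i K psi e0).piAntidiag (n - q),
            (if Q (e0 + l) then trm i (e0 + l) else 0) := by
        unfold II
        simp only [Finset.mul_sum]
        rw [Finset.sum_comm]
        refine Finset.sum_congr rfl fun l hl => ?_
        rw [if_pos ((hl0 e0 l _ hl).2 hQ0), ← II_Fe]
        rfl
      rw [h4] at h3
      exact h3
    · rw [Finset.sum_eq_zero]
      · exact dvd_zero _
      · intro l hl
        rw [if_neg (fun h => hQ0 ((hl0 e0 l _ hl).1 h))]
  rw [add_sub_assoc]
  refine dvd_add h1 ?_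
  have h3 : ∑ e0 ∈ ((univ : Finset P).piAntidiag n).filter (IsCore i K psi),
      ∑ l ∈ (Rst i K psi e0).piAntidiag 0, (if Q (e0 + l) then trm i (e0 + l) else 0) =
      ∑ e ∈ ((univ : Finset P).piAntidiag n).filter (IsCore i K psi),
        (if Q e then trm i e else 0) := by
    refine Finset.sum_congr rfl fun e _ => ?_
    rw [Finset.piAntidiag_zero, Finset.sum_singleton, add_zero]
  rw [h3]
  have hsub : S ⊆ ((univ : Finset P).piAntidiag n).filter (IsCore i K psi) := by
    intro e he
    rw [Finset.mem_filter, Finset.mem_piAntidiag]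
    exact ⟨⟨(hS e he).2.1, fun x _ => Finset.mem_univ x⟩, (hS e he).1⟩
  rw [← Finset.sum_sdiff hsub]
  have h5 : ∑ e ∈ S, (if Q e then trm i e else 0) = ∑ e ∈ S, trm i e :=
    Finset.sum_congr rfl fun e he => if_pos (hS e he).2.2
  rw [h5, add_sub_cancel_right]
  refine Finset.dvd_sum fun e he => ?_
  rw [Finset.mem_sdiff, Finset.mem_filter, Finset.mem_piAntidiag] at he
  split_ifs with hQe
  · rw [← II_Fe]
    exact Rk_II (hall e he.1.2 hQe he.1.1.1 he.2)
  · exact dvd_zero _

/-- an element outside the extended components is excited -/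
def CrO (i : ℕ) (κ : P → ι) (e : P → ℕ) : Prop := ∃ z, z ∉ cuni (i + 2) κ ∧ 1 ≤ e z

lemma CrO_add (H : Gr P r) (hκ : Split (i + 2) κ) (e l : P → ℕ)
    (hl : ∀ x, x ∉ near P i → l x = 0) : CrO i κ (e + l) ↔ CrO i κ e := by
  have key : ∀ z, z ∉ cuni (i + 2) κ → (e + l) z = e z := by
    intro z hz
    have h1 := (two_up H hκ hz).1
    rw [Pi.add_apply, hl z (fun h => ?_), add_zero]
    rw [mem_near] at h
    omega
  unfold CrO
  constructor
  · rintro ⟨z, hz, h⟩
    exact ⟨z, hz, by rwa [key z hz] at h⟩
  · rintro ⟨z, hz, h⟩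
    exact ⟨z, hz, by rwa [key z hz]⟩

/-! ### counting -/

lemma card_le_sum {T : Finset P} (h : ∀ x ∈ T, 1 ≤ e x) : T.card ≤ ∑ x, e x :=
  calc T.card = ∑ _x ∈ T, 1 := by simp
    _ ≤ ∑ x ∈ T, e x := Finset.sum_le_sum h
    _ ≤ ∑ x, e x := Finset.sum_le_sum_of_subset (subset_univ T)

lemma ex1 {T : Finset P} (h : ∀ x ∈ T, 1 ≤ e x) (hs : ∑ x, e x ≤ T.card + 1) (x : P) :
    e x ≤ (if x ∈ T then 1 else 0) + 1 := by
  have h1 : (∑ y ∈ T.erase x, e y) + e x ≤ ∑ y, e y := by
    have h2 : ∑ y ∈ insert x (T.erase x), e y ≤ ∑ y, e y :=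
      Finset.sum_le_sum_of_subset (subset_univ _)
    rw [Finset.sum_insert (Finset.notMem_erase x T)] at h2
    omega
  have h3 : (T.erase x).card ≤ ∑ y ∈ T.erase x, e y := by
    calc (T.erase x).card = ∑ _y ∈ T.erase x, 1 := by simp
      _ ≤ ∑ y ∈ T.erase x, e y := Finset.sum_le_sum fun y hy => h y (Finset.mem_of_mem_erase hy)
  by_cases hx : x ∈ T
  · rw [if_pos hx]
    have h4 := Finset.card_erase_of_mem hx
    have h5 : 0 < T.card := Finset.card_pos.2 ⟨x, hx⟩
    omega
  · rw [if_neg hx]
    rw [Finset.erase_eq_of_notMem hx] at h1 h3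
    omega

lemma ex2 {T : Finset P} (h : ∀ x ∈ T, 1 ≤ e x) (hs : ∑ x, e x ≤ T.card + 1) {x y : P}
    (hxy : x ≠ y) :
    e x + e y ≤ (if x ∈ T then 1 else 0) + (if y ∈ T then 1 else 0) + 1 := by
  set T' := (T.erase x).erase y with hT'
  have hx' : x ∉ insert y T' := by
    rw [mem_insert, hT', mem_erase, mem_erase]
    tauto
  have hy' : y ∉ T' := by
    rw [hT', mem_erase]
    tauto
  have h1 : e x + (e y + ∑ z ∈ T', e z) ≤ ∑ z, e z := by
    have h2 : ∑ z ∈ insert x (insert y T'), e z ≤ ∑ z, e z :=
      Finset.sum_le_sum_of_subset (subset_univ _)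
    rwa [Finset.sum_insert hx', Finset.sum_insert hy'] at h2
  have h3 : T'.card ≤ ∑ z ∈ T', e z := by
    calc T'.card = ∑ _y ∈ T', 1 := by simp
      _ ≤ ∑ y ∈ T', e y := Finset.sum_le_sum fun y hy =>
        h y (Finset.mem_of_mem_erase (Finset.mem_of_mem_erase hy))
  have h4 : T.card ≤ T'.card + (if x ∈ T then 1 else 0) + (if y ∈ T then 1 else 0) := by
    have h5 : T ⊆ T' ∪ (if x ∈ T then {x} else ∅) ∪ (if y ∈ T then {y} else ∅) := by
      intro z hz
      rw [mem_union, mem_union, hT', mem_erase, mem_erase]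
      by_cases h6 : z = x
      · subst h6
        rw [if_pos hz]
        simp
      · by_cases h7 : z = y
        · subst h7
          rw [if_pos hz]
          simp
        · exact Or.inl (Or.inl ⟨h7, h6, hz⟩)
    refine (Finset.card_le_card h5).trans ?_
    refine (Finset.card_union_le _ _).trans ?_
    have h6 := Finset.card_union_le T' (if x ∈ T then {x} else ∅)
    have h7 : (if x ∈ T then ({x} : Finset P) else ∅).card = if x ∈ T then 1 else 0 := by
      split_ifs <;> simp
    have h8 : (if y ∈ T then ({y} : Finset P) else ∅).card = if y ∈ T then 1 else 0 := by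
      split_ifs <;> simp
    omega
  omega

lemma pL_ge {T : Finset P} (h : ∀ z ∈ T, i < lev z ∧ ¬ FD e z ∧ ¬ GU e z) :
    T.card ≤ pL i e := by
  classical
  unfold pL
  apply Finset.card_le_card
  intro z hz
  rw [mem_filter]
  exact ⟨mem_univ z, h z hz⟩

/-! ### the join -/

/-- two labels above an element of level `l + 1` outside the components -/
lemma two_labels (H : Gr P r) (hκ : Split l κ) {v : P} (hv : v ∉ cuni l κ) (hl : lev v = l + 1) :
    ∃ p p', κ p ≠ κ p' ∧ uc v = {p, p'} := by
  classical
  obtain ⟨y, hy, hy0⟩ := exists_top v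
  have h1 : v ∉ cext l κ (κ y) := by
    intro h
    apply hv
    unfold cuni
    rw [mem_biUnion]
    exact ⟨κ y, mem_image_of_mem κ (mem_univ y), h⟩
  rw [mem_cext] at h1
  push Not at h1
  obtain ⟨y', hy', hl', hne⟩ := h1
  have mk : ∀ w, v ≤ w → lev w ≤ l → ∃ p ∈ uc v, κ p = κ w := by
    intro w hw hwl
    have h2 : v < w := by
      refine lt_of_le_of_ne hw ?_
      rintro rfl
      omega
    obtain ⟨p, hp, hpw⟩ := exists_covBy_le_of_lt h2
    have h3 := lev_uc H (mem_uc.2 hp)
    exact ⟨p, mem_uc.2 hp, hκ.le p hpw (by omega)⟩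
  obtain ⟨p, hp, hpk⟩ := mk y hy (by omega)
  obtain ⟨p', hp', hpk'⟩ := mk y' hy' hl'
  have hk : κ p ≠ κ p' := by
    rw [hpk, hpk']
    exact fun h => hne h.symm
  refine ⟨p, p', hk, ?_⟩
  symm
  apply Finset.eq_of_subset_of_card_le
  · intro x hx
    rw [mem_insert, mem_singleton] at hx
    rcases hx with rfl | rfl
    · exact hp
    · exact hp'
  · rw [Finset.card_pair (fun h => hk (by rw [h]))]
    exact uc_card_le H v

open Classical in
lemma up_eq (l : ℕ) (z : P) : up l z = ((lv P l).filter (fun v => z < v)).card := by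
  classical
  unfold up
  congr 1

/-- at energy at most six an element of level `i + 3` outside the components is excited -/
lemma cross_v (H : Gr P r) (hκ : Split (i + 2) κ) (hA : AdmL i e) (hn : ∑ x, e x ≤ 6) :
    ∀ (m : ℕ) (z : P), lev z = i + 3 + m → z ∉ cuni (i + 2) κ → 1 ≤ e z →
      ∃ v, lev v = i + 3 ∧ v ∉ cuni (i + 2) κ ∧ 1 ≤ e v := by
  classical
  intro m
  induction m with
  | zero => exact fun z hz h1 h2 => ⟨z, by omega, h1, h2⟩
  | succ m ih =>
    intro z hz h1 h2
    by_cases h3 : ∃ w ∈ uc z, w ∉ cuni (i + 2) κ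
    · obtain ⟨w, hw, hw2⟩ := h3
      have h4 := lev_uc H hw
      exact ih w (by omega) hw2 (pos_up H hA (by omega) h2 (mem_uc.1 hw))
    · exfalso
      push Not at h3
      obtain ⟨w, hw⟩ := uc_nonempty H (x := z) (by omega)
      have hwc := h3 w hw
      unfold cuni at hwc
      rw [mem_biUnion] at hwc
      obtain ⟨a, ha, hwa⟩ := hwc
      have h4 : ∃ w' ∈ uc z, w' ≠ w := by
        by_contra h5
        push Not at h5
        apply h1
        unfold cuni
        rw [mem_biUnion]
        refine ⟨a, ha, ?_⟩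
        rw [mem_cext]
        intro y hy hly
        have h6 : z < y := by
          refine lt_of_le_of_ne hy ?_
          rintro rfl
          omega
        obtain ⟨w', hw', hwy⟩ := exists_covBy_le_of_lt h6
        have h7 := h5 w' (mem_uc.2 hw')
        rw [h7] at hwy
        exact mem_cext.1 hwa y hwy hly
      obtain ⟨w', hw', hne⟩ := h4
      have h5 := (two_up H hκ h1).2
      have hu1 := h5 (i + 1) (by omega)
      have hu2 := h5 (i + 2) le_rfl
      rw [up_eq] at hu1 hu2
      have lw := lev_uc H hw
      have lw' := lev_uc H hw'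
      set V1 := (lv P (i + 1)).filter (fun v => z < v) with hV1
      set V2 := (lv P (i + 2)).filter (fun v => z < v) with hV2
      have m1 : ∀ x ∈ V1, lev x = i + 1 ∧ z < x := by
        intro x hx
        rw [hV1, mem_filter, mem_lv] at hx
        exact hx
      have m2 : ∀ x ∈ V2, lev x = i + 2 ∧ z < x := by
        intro x hx
        rw [hV2, mem_filter, mem_lv] at hx
        exact hx
      have d1 : Disjoint V1 V2 := by
        rw [disjoint_left]
        intro x hx hx'
        have := (m1 x hx).1
        have := (m2 x hx').1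
        omega
      have c1 : (insert z (insert w (insert w' (V1 ∪ V2)))).card =
          V1.card + V2.card + 3 := by
        rw [card_insert_of_notMem, card_insert_of_notMem, card_insert_of_notMem,
          card_union_of_disjoint d1]
        · rw [mem_union]
          rintro (h | h)
          · have := (m1 _ h).1
            omega
          · have := (m2 _ h).1
            omega
        · rw [mem_insert, mem_union]
          rintro (h | h | h)
          · exact hne h.symm
          · have := (m1 _ h).1
            omega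
          · have := (m2 _ h).1
            omega
        · rw [mem_insert, mem_insert, mem_union]
          rintro (h | h | h | h)
          · rw [← h] at lw
            omega
          · rw [← h] at lw'
            omega
          · exact lt_irrefl _ (m1 _ h).2
          · exact lt_irrefl _ (m2 _ h).2
      have h6 := card_le_sum (e := e) (T := insert z (insert w (insert w' (V1 ∪ V2)))) (by
        intro x hx
        rw [mem_insert, mem_insert, mem_insert, mem_union] at hx
        rcases hx with rfl | rfl | rfl | h | h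
        · exact h2
        · exact pos_up H hA (by omega) h2 (mem_uc.1 hw)
        · exact pos_up H hA (by omega) h2 (mem_uc.1 hw')
        · have := m1 x h
          exact pos_above H hA (by omega) z this.2.le h2
        · have := m2 x h
          exact pos_above H hA (by omega) z this.2.le h2)
      omega

end Pool.Agent.GaussPoset.Win.So
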