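import Pool.Agent.W_448so_h17.CrA

/-!
S9, cross part: classification of the cores of energy at most six which excite an element outside
the extended components: at most one deficit, except `eN i v` (energy six, two deficits).
-/

namespace Pool.Agent.GaussPoset.Win.So

set_option linter.unusedSectionVars false

open Finset

universe u

variable {P : Type u} [Fintype P] [PartialOrder P] [DecidableEq P] {r i l : ℕ}

variable {ι : Type*} [DecidableEq ι] {κ : P → ι} {e : P → ℕ} {psi : P → P}

open Classical in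
/-- label one on the elements of level `> i` above `v` (including `v`) -/
noncomputable def eN (i : ℕ) (v : P) : P → ℕ := fun x => if v ≤ x ∧ i < lev x then 1 else 0

/-- a cross element with its covers -/
structure CrV (i : ℕ) (κ : P → ι) (v p p' : P) : Prop where
  lv : lev v = i + 3
  cov : uc v = {p, p'}
  ne : κ p ≠ κ p'

namespace CrV

variable {v p p' : P}

lemma symm (D : CrV i κ v p p') : CrV i κ v p' p :=
  ⟨D.lv, by rw [D.cov, Finset.pair_comm], D.ne.symm⟩

lemma cp (D : CrV i κ v p p') : v ⋖ p := mem_uc.1 (by rw [D.cov]; exact mem_insert_self _ _)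

lemma cp' (D : CrV i κ v p p') : v ⋖ p' := D.symm.cp

lemma lp (H : Gr P r) (D : CrV i κ v p p') : lev p = i + 2 := by
  have h1 := lev_uc H (mem_uc.2 D.cp)
  have h2 := D.lv
  omega

lemma lp' (H : Gr P r) (D : CrV i κ v p p') : lev p' = i + 2 := D.symm.lp H

lemma lab (hκ : Split (i + 2) κ) (H : Gr P r) (D : CrV i κ v p p') {y : P} (hy : y ∈ uc p) :
    κ y = κ p := (hκ (mem_uc.1 hy) (by rw [D.lp H])).symm

lemma lab2 (hκ : Split (i + 2) κ) (H : Gr P r) (D : CrV i κ v p p') {y x : P} (hy : y ∈ uc p)
    (hx : x ∈ uc y) : κ x = κ p := by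
  have h1 := lev_uc H hy
  have h2 := D.lp H
  rw [← D.lab hκ H hy]
  exact (hκ (mem_uc.1 hx) (by omega)).symm

lemma disj (hκ : Split (i + 2) κ) (H : Gr P r) (D : CrV i κ v p p') :
    Disjoint (uc p) (uc p') := by
  rw [disjoint_left]
  intro y hy hy'
  exact D.ne ((D.lab hκ H hy).symm.trans (D.symm.lab hκ H hy'))

/-- the elements of level `i + 1` above `v` -/
lemma mem1 (H : Gr P r) (D : CrV i κ v p p') {x : P} :
    (lev x = i + 1 ∧ v < x) ↔ x ∈ uc p ∪ uc p' := by
  classical
  constructor
  · rintro ⟨h1, h2⟩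
    obtain ⟨q, hq, hqx⟩ := exists_covBy_le_of_lt h2
    have hq' := mem_uc.2 hq
    have key : ∀ q, lev q = i + 2 → q ≤ x → x ∈ uc q := by
      intro q hq2 hqx
      have h3 : q < x := by
        refine lt_of_le_of_ne hqx ?_
        rintro rfl
        omega
      exact mem_uc.2 (H.covBy_iff.2 ⟨h3, by omega⟩)
    rw [D.cov, mem_insert, mem_singleton] at hq'
    rw [mem_union]
    rcases hq' with rfl | rfl
    · exact Or.inl (key _ (D.lp H) hqx)
    · exact Or.inr (key _ (D.lp' H) hqx)
  · intro h
    rw [mem_union] at h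
    rcases h with h | h
    · have h1 := lev_uc H h
      have h2 := D.lp H
      exact ⟨by omega, D.cp.lt.trans (mem_uc.1 h).lt⟩
    · have h1 := lev_uc H h
      have h2 := D.lp' H
      exact ⟨by omega, D.cp'.lt.trans (mem_uc.1 h).lt⟩

/-- the elements of level `i + 2` above `v` -/
lemma mem2 (H : Gr P r) (D : CrV i κ v p p') {x : P} :
    (lev x = i + 2 ∧ v < x) ↔ x = p ∨ x = p' := by
  classical
  have key : (lev x = i + 2 ∧ v < x) ↔ x ∈ uc v := by
    rw [mem_uc, H.covBy_iff]
    have := D.lv
    constructor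
    · rintro ⟨h1, h2⟩
      exact ⟨h2, by omega⟩
    · rintro ⟨h1, h2⟩
      exact ⟨by omega, h1⟩
  rw [key, D.cov, mem_insert, mem_singleton]

/-- the sites above `v` -/
lemma mem0 (H : Gr P r) (D : CrV i κ v p p') {x : P} :
    (lev x = i ∧ v < x) ↔ ∃ y ∈ uc p ∪ uc p', x ∈ uc y := by
  classical
  constructor
  · rintro ⟨h1, h2⟩
    obtain ⟨y, hy1, hy2, hy3⟩ := exists_mid H h2.le (k := i + 1) (by omega)
      (by have := D.lv; omega)
    have h3 : v < y := by
      refine lt_of_le_of_ne hy1 ?_
      rintro rfl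
      have := D.lv
      omega
    have h4 : y < x := by
      refine lt_of_le_of_ne hy2 ?_
      rintro rfl
      omega
    exact ⟨y, (D.mem1 H).1 ⟨hy3, h3⟩, mem_uc.2 (H.covBy_iff.2 ⟨h4, by omega⟩)⟩
  · rintro ⟨y, hy, hx⟩
    obtain ⟨h1, h2⟩ := (D.mem1 H).2 hy
    have h3 := lev_uc H hx
    exact ⟨by omega, h2.trans (mem_uc.1 hx).lt⟩

lemma up1 (H : Gr P r) (hκ : Split (i + 2) κ) (D : CrV i κ v p p') :
    up (i + 1) v = (uc p).card + (uc p').card := by
  classical
  rw [up_eq, ← card_union_of_disjoint (D.disj hκ H)]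
  congr 1
  ext x
  rw [mem_filter, mem_lv, D.mem1 H]

lemma up0_le (H : Gr P r) (D : CrV i κ v p p') : up i v ≤ up i p + up i p' := by
  classical
  rw [up_eq, up_eq, up_eq]
  refine le_trans (Finset.card_le_card ?_) (Finset.card_union_le _ _)
  intro x hx
  rw [mem_filter, mem_lv, D.mem0 H] at hx
  obtain ⟨y, hy, hxy⟩ := hx
  rw [mem_union, mem_filter, mem_filter, mem_lv]
  rw [mem_union] at hy
  have h3 := lev_uc H hxy
  rcases hy with hy | hy
  · have h4 := lev_uc H hy
    have h5 := D.lp H
    exact Or.inl ⟨by omega, (mem_uc.1 hy).lt.trans (mem_uc.1 hxy).lt⟩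
  · have h4 := lev_uc H hy
    have h5 := D.lp' H
    exact Or.inr ⟨by omega, (mem_uc.1 hy).lt.trans (mem_uc.1 hxy).lt⟩

open Classical in
/-- the cone of `v` above the window -/
noncomputable def T (v p p' : P) : Finset P := insert v (insert p (insert p' (uc p ∪ uc p')))

lemma mem_T {x : P} : x ∈ T v p p' ↔ x = v ∨ x = p ∨ x = p' ∨ x ∈ uc p ∪ uc p' := by
  classical
  unfold T
  rw [mem_insert, mem_insert, mem_insert]

lemma T_iff (H : Gr P r) (D : CrV i κ v p p') {x : P} :
    x ∈ T v p p' ↔ v ≤ x ∧ i < lev x := by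
  rw [mem_T]
  constructor
  · rintro (rfl | rfl | rfl | h)
    · exact ⟨le_rfl, by have := D.lv; omega⟩
    · exact ⟨D.cp.le, by have := D.lp H; omega⟩
    · exact ⟨D.cp'.le, by have := D.lp' H; omega⟩
    · obtain ⟨h1, h2⟩ := (D.mem1 H).2 h
      exact ⟨h2.le, by omega⟩
  · rintro ⟨h1, h2⟩
    rcases eq_or_lt_of_le h1 with h3 | h3
    · exact Or.inl h3.symm
    · right
      have h4 := lev_strictAnti h3
      have h5 := D.lv
      rcases Nat.lt_or_ge (i + 1) (lev x) with h6 | h6
      · have h7 := (D.mem2 H).1 ⟨(by omega : lev x = i + 2), h3⟩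
        rcases h7 with h7 | h7
        · exact Or.inl h7
        · exact Or.inr (Or.inl h7)
      · exact Or.inr (Or.inr ((D.mem1 H).1 ⟨by omega, h3⟩))

lemma card_T (H : Gr P r) (hκ : Split (i + 2) κ) (D : CrV i κ v p p') :
    (T v p p').card = (uc p).card + (uc p').card + 3 := by
  classical
  have h1 := D.lv
  have h2 := D.lp H
  have h3 := D.lp' H
  have h4 : p ≠ p' := fun h => D.ne (by rw [h])
  unfold T
  rw [card_insert_of_notMem, card_insert_of_notMem, card_insert_of_notMem,
    card_union_of_disjoint (D.disj hκ H)]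
  · intro h
    have := ((D.mem1 H).2 h).1
    omega
  · rw [mem_insert]
    rintro (h | h)
    · exact h4 h
    · have := ((D.mem1 H).2 h).1
      omega
  · rw [mem_insert, mem_insert]
    rintro (h | h | h)
    · rw [← h] at h2
      omega
    · rw [← h] at h3
      omega
    · have := ((D.mem1 H).2 h).1
      omega

lemma pos_T (H : Gr P r) (D : CrV i κ v p p') (hA : AdmL i e) (hv : 1 ≤ e v) :
    ∀ x ∈ T v p p', 1 ≤ e x := by
  intro x hx
  obtain ⟨h1, h2⟩ := (D.T_iff H).1 hx
  exact pos_above H hA h2 v h1 hv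

/-- a level `i + 2` element of the cone is `p` or `p'` -/
lemma T_two (H : Gr P r) (D : CrV i κ v p p') {x : P} (hx : x ∈ T v p p') (hl : lev x = i + 2) :
    x = p ∨ x = p' := by
  obtain ⟨h1, h2⟩ := (D.T_iff H).1 hx
  refine (D.mem2 H).1 ⟨hl, lt_of_le_of_ne h1 ?_⟩
  rintro rfl
  have := D.lv
  omega

lemma T_lev (H : Gr P r) (D : CrV i κ v p p') {x : P} (hx : x ∈ T v p p') :
    i + 1 ≤ lev x ∧ lev x ≤ i + 3 := by
  obtain ⟨h1, h2⟩ := (D.T_iff H).1 hx
  have h3 : lev x ≤ lev v := by
    rcases eq_or_lt_of_le h1 with h | h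
    · rw [h]
    · exact (lev_strictAnti h).le
  have := D.lv
  omega

end CrV

open Classical in
/-- a configuration which is the indicator of an up-closed set of lower elements: exact data -/
lemma cone_data (H : Gr P r) (hir : i ≤ r) {v : P} :
    AdmL i (eN i v) ∧ AdmU i (eN i v) ∧ aL i (eN i v) = 0 ∧ aU i (eN i v) = 0 ∧
    pU i (eN i v) = 0 ∧ AU i (eN i v) = ∅ ∧
    (i < lev v → pL i (eN i v) = up (i + 1) v + (if lev v = i + 1 then 1 else 0) ∧
      AL i (eN i v) = (lv P i).filter (fun x => v < x)) := by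
  classical
  have hFD : ∀ z, FD (eN i v) z → lev z ≤ i := by
    rintro z ⟨z', h1, h2⟩
    by_contra h3
    have h4 : eN i v z' = 1 := by
      unfold eN at h2 ⊢
      split_ifs at h2 ⊢ <;> omega
    have h5 : v ≤ z' ∧ i < lev z' := by
      unfold eN at h4
      by_contra h6
      rw [if_neg h6] at h4
      omega
    have h6 : eN i v z = 1 := by
      unfold eN
      rw [if_pos ⟨h5.1.trans h1.le, by omega⟩]
    omega
  obtain ⟨u1, u2, u3, u4⟩ := upp_none H hir (e := eN i v) (by
    intro z hz
    unfold eN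
    rw [if_neg]
    rintro ⟨-, h⟩
    omega)
  refine ⟨fun z hz h => ?_, u1, ?_, u3, u4, u2, fun hv => ⟨?_, ?_⟩⟩
  · have := hFD z h.1
    omega
  · unfold aL
    rw [card_eq_zero, filter_eq_empty_iff]
    rintro z - ⟨h1, h2⟩
    have := hFD z h2
    omega
  · unfold pL
    have h1 : univ.filter (fun z : P => i < lev z ∧ ¬ FD (eN i v) z ∧ ¬ GU (eN i v) z) =
        (lv P (i + 1)).filter (fun z => v ≤ z) := by
      ext z
      rw [mem_filter, mem_filter, mem_lv]
      constructor
      · rintro ⟨-, h1, -, h3⟩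
        have h4 : eN i v z = 1 := by
          by_contra h5
          apply h3
          obtain ⟨y, hy⟩ := uc_nonempty H (x := z) (by omega)
          refine ⟨y, mem_uc.1 hy, ?_⟩
          have h6 : eN i v z = 0 := by
            unfold eN at h5 ⊢
            split_ifs at h5 ⊢ with h7
            · exact absurd rfl h5
            · rfl
          omega
        have h5 : v ≤ z ∧ i < lev z := by
          unfold eN at h4
          by_contra h6
          rw [if_neg h6] at h4
          omega
        refine ⟨?_, h5.1⟩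
        by_contra h6
        apply h3
        obtain ⟨y, hy⟩ := uc_nonempty H (x := z) (by omega)
        have h7 := lev_uc H hy
        refine ⟨y, mem_uc.1 hy, ?_⟩
        rw [h4]
        unfold eN
        rw [if_pos ⟨h5.1.trans (mem_uc.1 hy).le, by omega⟩]
      · rintro ⟨h1, h2⟩
        refine ⟨mem_univ _, by omega, fun h => ?_, ?_⟩
        · have := hFD z h
          omega
        · rintro ⟨y, hy, hle⟩
          have h3 := lev_uc H (mem_uc.2 hy)
          have h4 : eN i v z = 1 := by
            unfold eN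
            rw [if_pos ⟨h2, by omega⟩]
          have h5 : eN i v y = 0 := by
            unfold eN
            rw [if_neg]
            rintro ⟨-, h⟩
            omega
          omega
    rw [h1, up_eq]
    split_ifs with h2
    · have h3 : (lv P (i + 1)).filter (fun z => v ≤ z) = {v} := by
        ext z
        rw [mem_filter, mem_lv, mem_singleton]
        constructor
        · rintro ⟨h4, h5⟩
          by_contra h6
          have := lev_strictAnti (lt_of_le_of_ne h5 (fun h => h6 h.symm))
          omega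
        · rintro rfl
          exact ⟨h2, le_rfl⟩
      have h4 : (lv P (i + 1)).filter (fun z => v < z) = ∅ := by
        rw [filter_eq_empty_iff]
        intro z hz h5
        rw [mem_lv] at hz
        have := lev_strictAnti h5
        omega
      rw [h3, h4]
      rfl
    · rw [add_zero]
      congr 1
      ext z
      rw [mem_filter, mem_filter, mem_lv]
      constructor
      · rintro ⟨h3, h4⟩
        refine ⟨h3, lt_of_le_of_ne h4 ?_⟩
        rintro rfl
        exact h2 h3
      · rintro ⟨h3, h4⟩
        exact ⟨h3, h4.le⟩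
  · ext x
    rw [NormD_mem_AL, mem_filter, mem_lv]
    constructor
    · rintro ⟨h1, z, hz, h2⟩
      refine ⟨h1, ?_⟩
      have h3 := lev_uc H (mem_uc.2 hz)
      have h4 : eN i v z = 1 := by
        unfold eN at h2 ⊢
        split_ifs at h2 ⊢ <;> omega
      have h5 : v ≤ z ∧ i < lev z := by
        unfold eN at h4
        by_contra h6
        rw [if_neg h6] at h4
        omega
      exact lt_of_le_of_lt h5.1 hz.lt
    · rintro ⟨h1, h2⟩
      refine ⟨h1, ?_⟩
      obtain ⟨z, hz1, hz2, hz3⟩ := exists_mid H h2.le (k := i + 1) (by omega) (by omega)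
      have h3 : z < x := by
        refine lt_of_le_of_ne hz2 ?_
        rintro rfl
        omega
      refine ⟨z, H.covBy_iff.2 ⟨h3, by omega⟩, ?_⟩
      have h4 : eN i v z = 1 := by
        unfold eN
        rw [if_pos ⟨hz1, by omega⟩]
      have h5 : eN i v x = 0 := by
        unfold eN
        rw [if_neg]
        rintro ⟨-, h⟩
        omega
      omega

end Pool.Agent.GaussPoset.Win.So
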