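import Pool.Agent.W_448so_h17.CrB

/-!
S9, cross part: the classification (`cross_core`) and the sums (`rest5`, `rest6`).
-/

namespace Pool.Agent.GaussPoset.Win.So

set_option linter.unusedSectionVars false

open Finset

universe u

variable {P : Type u} [Fintype P] [PartialOrder P] [DecidableEq P] {r i l : ℕ}

variable {ι : Type*} [DecidableEq ι] {κ : P → ι} {e : P → ℕ} {psi : P → P}

variable {v p p' : P}

/-- both covers of the join have one cover: a free element below the sites of `y` -/
lemma free_one (H : Gr P r) (hκ : Split (i + 2) κ) (D : CrV i κ v p p') (hA : AdmL i e)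
    (hv : 1 ≤ e v) {y : P} (hy : uc p = {y})
    (hs : ∑ x, e x ≤ (CrV.T v p p').card + 1)
    (hk : ∀ x ∈ uc y, e x < e y) :
    ∃ f, (f = y ∨ f = p) ∧ i < lev f ∧ ¬ FD e f ∧ ¬ GU e f := by
  have hpos := D.pos_T H hA hv
  have hyp : y ∈ uc p := by rw [hy]; exact mem_singleton_self y
  have ly := lev_uc H hyp
  have lp := D.lp H
  by_cases hf : FD e y
  · obtain ⟨z, hz, hlt⟩ := hf
    have lz := lev_uc H (mem_uc.2 hz)
    have h1 := ex1 hpos hs z
    have hyT : y ∈ CrV.T v p p' := CrV.mem_T.2 (Or.inr (Or.inr (Or.inr (mem_union_left _ hyp))))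
    have h2 := hpos y hyT
    have hzT : z ∈ CrV.T v p p' := by
      by_contra h
      rw [if_neg h] at h1
      omega
    have h3 : z = p := by
      rcases D.T_two H hzT (by omega) with h | h
      · exact h
      · exfalso
        subst h
        exact disjoint_left.1 (D.disj hκ H) hyp (mem_uc.2 hz)
    subst h3
    refine ⟨z, Or.inr rfl, by omega, ?_, ?_⟩
    · rintro ⟨z', hz', hlt'⟩
      have h4 := ex1 hpos hs z'
      split_ifs at h4 <;> omega
    · rintro ⟨y', hy', hle⟩
      have h5 := mem_uc.2 hy'
      rw [hy, mem_singleton] at h5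
      subst h5
      omega
  · refine ⟨y, Or.inl rfl, by omega, hf, ?_⟩
    rintro ⟨x, hx, hle⟩
    have := hk x (mem_uc.2 hx)
    omega

/-- the near lower elements outside the cone have label zero -/
lemma near_zero (H : Gr P r) (D : CrV i κ v p p') (hA : AdmL i e) (hv : 1 ≤ e v)
    (hM : Mat P i ∅ psi) (hc : IsCore i ∅ psi e)
    (hs : ∑ x, e x ≤ (CrV.T v p p').card + 1) {w : P} (hw : lev w = i + 1)
    (hwT : w ∉ CrV.T v p p') : e w = 0 := by
  by_contra h0
  have hpos := D.pos_T H hA hv
  have key : ∀ x, x ≠ w → 0 < e x → x ∈ CrV.T v p p' := by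
    intro x hx hx0
    by_contra h1
    have h2 := ex2 hpos hs hx
    rw [if_neg h1, if_neg hwT] at h2
    omega
  have h1 : w ∉ Rst i ∅ psi e := fun h => h0 (hc w h)
  rw [mem_Rst] at h1
  have h2 : w ∈ near P i := mem_near.2 (Or.inl hw)
  have h3 : w ∉ Tch i e := by
    rw [mem_Tch]
    rintro (⟨-, z, hz, hz0⟩ | ⟨h4, -⟩)
    · have lz := lev_uc H (mem_uc.2 hz)
      have hzT := key z (by rintro rfl; omega) hz0
      apply hwT
      rw [CrV.mem_T, mem_union]
      rcases D.T_two H hzT (by omega) with h5 | h5
      · subst h5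
        exact Or.inr (Or.inr (Or.inr (Or.inl (mem_uc.2 hz))))
      · subst h5
        exact Or.inr (Or.inr (Or.inr (Or.inr (mem_uc.2 hz))))
    · omega
  apply h1
  refine ⟨h2, notMem_empty w, h3, ?_⟩
  rintro ⟨h4, h5⟩
  have h6 : w ∈ dbL P i := by
    rcases mem_union.1 h4 with h | h
    · exact h
    · have := (mem_dbU.1 h).1
      omega
  have h7 := (mem_dbU.1 (hM.low w h6 (notMem_empty w)).1).1
  rw [mem_Tch] at h5
  rcases h5 with ⟨h8, -⟩ | ⟨-, y, hy, hy0⟩
  · omega
  · have ly := lev_uc H (mem_uc.2 hy)
    have := D.T_lev H (key y (by rintro rfl; omega) hy0)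
    omega

/-- the upper part is zero, or the configuration is not admissible, or the two sides meet -/
lemma upper_zero (H : Gr P r) (hir : i ≤ r) (D : CrV i κ v p p') (hA : AdmL i e)
    (hB : AdmU i e) (hd : Disjoint (AL i e) (AU i e)) (hv : 1 ≤ e v)
    (hM : Mat P i ∅ psi) (hc : IsCore i ∅ psi e)
    (hs : ∑ x, e x ≤ (CrV.T v p p').card + 1) {u : P} (hu : lev u < i) : e u = 0 := by
  by_contra h0
  have hpos := D.pos_T H hA hv
  have huT : u ∉ CrV.T v p p' := by
    intro h
    have := D.T_lev H h
    omega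
  have key : ∀ x, x ≠ u → 0 < e x → x ∈ CrV.T v p p' := by
    intro x hx hx0
    by_contra h1
    have h2 := ex2 hpos hs hx
    rw [if_neg h1, if_neg huT] at h2
    omega
  rcases Nat.lt_or_ge (lev u + 1) i with h1 | h1
  · obtain ⟨y, hy⟩ := dc_nonempty H (x := u) (by omega)
    have ly := lev_dc H hy
    have h2 := pos_dn H hir hB (by omega) (by omega : 0 < e u) (mem_dc.1 hy)
    have := D.T_lev H (key y (by rintro rfl; omega) h2)
    omega
  · have h2 : u ∉ Rst i ∅ psi e := fun h => h0 (hc u h)
    rw [mem_Rst] at h2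
    have h3 : u ∉ Tch i e := by
      rw [mem_Tch]
      rintro (⟨h4, -⟩ | ⟨-, y, hy, hy0⟩)
      · omega
      · have ly := lev_uc H (mem_uc.2 hy)
        have := D.T_lev H (key y (by rintro rfl; omega) hy0)
        omega
    apply h2
    refine ⟨mem_near.2 (Or.inr (by omega)), notMem_empty u, h3, ?_⟩
    rintro ⟨h4, h5⟩
    have h6 : u ∈ dbU P i := by
      rcases mem_union.1 h4 with h | h
      · have := (mem_dbL.1 h).1
        omega
      · exact h
    obtain ⟨h7, h8⟩ := hM.upp u h6 (notMem_empty u)
    have h9 := (mem_dbL.1 h7)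
    rw [mem_Tch] at h5
    rcases h5 with ⟨-, z, hz, hz0⟩ | ⟨h10, -⟩
    · have lz := lev_uc H (mem_uc.2 hz)
      have hzT := key z (by rintro rfl; omega) hz0
      have h11 : psi u ∈ CrV.T v p p' := by
        rw [CrV.mem_T, mem_union]
        rcases D.T_two H hzT (by omega) with h5 | h5
        · rw [h5] at hz
          exact Or.inr (Or.inr (Or.inr (Or.inl (mem_uc.2 hz))))
        · rw [h5] at hz
          exact Or.inr (Or.inr (Or.inr (Or.inr (mem_uc.2 hz))))
      have h12 := hpos _ h11
      obtain ⟨x, hx⟩ : (uc (psi u)).Nonempty := by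
        rw [← Finset.card_pos]
        omega
      have lx := lev_uc H hx
      have hx0 : e x = 0 := by
        by_contra h13
        have := D.T_lev H (key x (by rintro rfl; omega) (by omega))
        omega
      have hxd : x ∈ dc u := by rw [← h8]; exact hx
      have hxA : x ∈ AL i e := by
        rw [NormD_mem_AL]
        exact ⟨by omega, psi u, mem_uc.1 hx, by omega⟩
      have hxB : x ∈ AU i e := by
        rw [NormD_mem_AU]
        exact ⟨by omega, u, mem_dc.1 hxd, by omega⟩
      exact disjoint_left.1 hd hxA hxB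
    · omega

open Classical in
/-- the sites killed by `y` -/
noncomputable def Kl (e : P → ℕ) (y : P) : Finset P := (uc y).filter (fun x => e x < e y)

/-- the case of two single-up covers -/
lemma cross_one (H : Gr P r) (hir : i ≤ r) (hκ : Split (i + 2) κ) (D : CrV i κ v p p')
    (hA : AdmL i e) (hB : AdmU i e) (hd : Disjoint (AL i e) (AU i e)) (hv : 1 ≤ e v)
    (hM : Mat P i ∅ psi) (hc : IsCore i ∅ psi e)
    {y y' : P} (hy : uc p = {y}) (hy' : uc p' = {y'}) (hn : ∑ x, e x ≤ 6)
    (hZ : up i v ≤ 3) : (AL i e).card + (AU i e).card ≤ pL i e + pU i e + 1 := by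
  classical
  have hcard := D.card_T H hκ
  rw [hy, hy', card_singleton, card_singleton] at hcard
  have hs : ∑ x, e x ≤ (CrV.T v p p').card + 1 := by omega
  have hpos := D.pos_T H hA hv
  have hyp : y ∈ uc p := by rw [hy]; exact mem_singleton_self y
  have hyp' : y' ∈ uc p' := by rw [hy']; exact mem_singleton_self y'
  have ly := lev_uc H hyp
  have ly' := lev_uc H hyp'
  have lp := D.lp H
  have lp' := D.lp' H
  have hyT : y ∈ CrV.T v p p' := CrV.mem_T.2 (Or.inr (Or.inr (Or.inr (mem_union_left _ hyp))))
  have hyT' : y' ∈ CrV.T v p p' := CrV.mem_T.2 (Or.inr (Or.inr (Or.inr (mem_union_right _ hyp'))))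
  obtain ⟨-, hAU, -, hpU⟩ := upp_none H hir (e := e)
    (fun u hu => upper_zero H hir D hA hB hd hv hM hc hs hu)
  have hAL : AL i e ⊆ Kl e y ∪ Kl e y' := by
    intro x hx
    rw [NormD_mem_AL] at hx
    obtain ⟨h1, w, hw, hlt⟩ := hx
    have lw := lev_uc H (mem_uc.2 hw)
    have hwT : w ∈ CrV.T v p p' := by
      by_contra h
      have := near_zero H D hA hv hM hc hs (by omega) h
      omega
    have h2 : w = y ∨ w = y' := by
      rw [CrV.mem_T, mem_union, hy, hy', mem_singleton, mem_singleton] at hwT
      rcases hwT with h | h | h | h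
      · exfalso
        rw [h] at lw
        have := D.lv
        omega
      · exfalso
        rw [h] at lw
        omega
      · exfalso
        rw [h] at lw
        omega
      · exact h
    rw [mem_union]
    unfold Kl
    rw [mem_filter, mem_filter]
    rcases h2 with rfl | rfl
    · exact Or.inl ⟨mem_uc.2 hw, hlt⟩
    · exact Or.inr ⟨mem_uc.2 hw, hlt⟩
  have hALc : (AL i e).card ≤ (Kl e y).card + (Kl e y').card :=
    (card_le_card hAL).trans (card_union_le _ _)
  -- the number of sites
  have hsit : (uc y).card + (uc y').card ≤ 3 := by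
    refine le_trans (le_of_eq ?_) hZ
    rw [up_eq, ← card_union_of_disjoint]
    · congr 1
      ext x
      rw [mem_filter, mem_lv, D.mem0 H, mem_union, hy, hy']
      constructor
      · rintro (h | h)
        · exact ⟨y, by simp, h⟩
        · exact ⟨y', by simp, h⟩
      · rintro ⟨w, hw, hx⟩
        rw [mem_union, mem_singleton, mem_singleton] at hw
        rcases hw with rfl | rfl
        · exact Or.inl hx
        · exact Or.inr hx
    · rw [disjoint_left]
      intro x hx hx'
      exact D.ne ((D.lab2 hκ H hyp hx).symm.trans (D.symm.lab2 hκ H hyp' hx'))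
  have hKle : ∀ w, (Kl e w).card ≤ (uc w).card := fun w => card_le_card (filter_subset _ _)
  have hTsymm : CrV.T v p' p = CrV.T v p p' := by
    ext x
    rw [D.T_iff H, D.symm.T_iff H]
  have hne : y ≠ p' := by rintro rfl; omega
  have hne2 : y' ≠ p := by rintro rfl; omega
  have hne3 : y ≠ y' := by
    rintro rfl
    exact disjoint_left.1 (D.disj hκ H) hyp hyp'
  have hne4 : p ≠ p' := fun h => D.ne (by rw [h])
  rw [hAU, hpU, card_empty]
  -- a site with a label
  have key : ∀ {q q' w w' : P}, CrV i κ v q q' → uc q = {w} → uc q' = {w'} →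
      CrV.T v q q' = CrV.T v p p' → (uc w).card + (uc w').card ≤ 3 →
      (AL i e).card ≤ (Kl e w).card + (Kl e w').card → w ≠ w' →
      (∃ x ∈ uc w, e w ≤ e x) → (AL i e).card ≤ pL i e + 1 := by
    intro q q' w w' E hw hw' hT hs3 hAL3 hww ⟨x, hx, hxe⟩
    have hwq : w ∈ uc q := by rw [hw]; exact mem_singleton_self w
    have hwq' : w' ∈ uc q' := by rw [hw']; exact mem_singleton_self w'
    have lw := lev_uc H hwq
    have lw' := lev_uc H hwq'
    have lq := E.lp H
    have lq' := E.lp' H
    have lx := lev_uc H hx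
    have hwT : w ∈ CrV.T v p p' := by
      rw [← hT]
      exact CrV.mem_T.2 (Or.inr (Or.inr (Or.inr (mem_union_left _ hwq))))
    have hwT' : w' ∈ CrV.T v p p' := by
      rw [← hT]
      exact CrV.mem_T.2 (Or.inr (Or.inr (Or.inr (mem_union_right _ hwq'))))
    have h1 := hpos w hwT
    have h1' := hpos w' hwT'
    have hxT : x ∉ CrV.T v p p' := by
      intro h
      have := D.T_lev H h
      omega
    have h2 : ∀ z ∈ uc w', e z < e w' := by
      intro z hz
      have lz := lev_uc H hz
      have hzT : z ∉ CrV.T v p p' := by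
        intro h
        have := D.T_lev H h
        omega
      have hzx : z ≠ x := by
        rintro rfl
        exact E.ne ((E.lab2 hκ H hwq hx).symm.trans (E.symm.lab2 hκ H hwq' hz))
      have h3 := ex2 hpos hs hzx
      rw [if_neg hzT, if_neg hxT] at h3
      omega
    obtain ⟨f, -, hf⟩ := free_one H hκ E.symm hA hv hw' (by
      rw [show CrV.T v q' q = CrV.T v p p' from by
        rw [← hT]
        ext z
        rw [E.T_iff H, E.symm.T_iff H]]
      exact hs) h2
    have h4 : 1 ≤ pL i e := by
      have := pL_ge (e := e) (i := i) (T := {f}) (by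
        intro z hz
        rw [mem_singleton] at hz
        subst hz
        exact hf)
      rwa [card_singleton] at this
    have h5 : (Kl e w).card + 1 ≤ (uc w).card := by
      have h6 : Kl e w ⊂ uc w := by
        refine ⟨filter_subset _ _, fun h => ?_⟩
        have := h hx
        unfold Kl at this
        rw [mem_filter] at this
        omega
      exact card_lt_card h6
    have h7 := hKle w'
    omega
  by_cases c1 : ∃ x ∈ uc y, e y ≤ e x
  · have := key D hy hy' rfl hsit hALc hne3 c1
    omega
  · by_cases c2 : ∃ x ∈ uc y', e y' ≤ e x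
    · have := key D.symm hy' hy hTsymm (by omega) (by omega) hne3.symm c2
      omega
    · push Not at c1 c2
      obtain ⟨f, hf1, hf⟩ := free_one H hκ D hA hv hy hs c1
      obtain ⟨f', hf1', hf'⟩ := free_one H hκ D.symm hA hv hy' (by rw [hTsymm]; exact hs) c2
      have hff : f ≠ f' := by
        rcases hf1 with rfl | rfl <;> rcases hf1' with rfl | rfl
        · exact hne3
        · exact hne
        · exact hne2.symm
        · exact hne4
      have h4 : 2 ≤ pL i e := by
        have := pL_ge (e := e) (i := i) (T := {f, f'}) (by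
          intro z hz
          rw [mem_insert, mem_singleton] at hz
          rcases hz with rfl | rfl
          · exact hf
          · exact hf')
        rwa [card_pair hff] at this
      have h7 := hKle y
      have h7' := hKle y'
      omega

/-- THE CROSS CORES of energy at most six: one deficit, or `eN i v` with five sites and three near
elements -/
theorem cross_core (H : Gr P r) (hi : 1 ≤ i) (hi2 : i + 1 ≤ r) (hg : Good P i)
    (hκ : Split (i + 2) κ) (hM : Mat P i ∅ psi)
    (hZ : ∀ v, lev v = i + 3 → v ∉ cuni (i + 2) κ → up (i + 1) v = 2 → up i v ≤ 3)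
    (hc : IsCore i ∅ psi e) (hQ : CrO i κ e) (hn : ∑ x, e x ≤ 6) :
    Cheap 1 i e ∨ (∑ x, e x = 6 ∧ ∃ v, lev v = i + 3 ∧ v ∉ cuni (i + 2) κ ∧ up (i + 1) v = 3 ∧
      up i v = 5 ∧ e = eN i v) := by
  classical
  by_cases hA : AdmL i e
  swap
  · exact Or.inl (Or.inl hA)
  by_cases hB : AdmU i e
  swap
  · exact Or.inl (Or.inr (Or.inl hB))
  by_cases hd : Disjoint (AL i e) (AU i e)
  swap
  · exact Or.inl (Or.inr (Or.inr (Or.inl hd)))
  obtain ⟨z, hz, hze⟩ := hQ
  have hlz := (two_up H hκ hz).1
  obtain ⟨v, lv', hvc, hv⟩ := cross_v H hκ hA hn (lev z - (i + 3)) z (by omega) hz hze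
  obtain ⟨p, p', hk, huc⟩ := two_labels H hκ hvc (by omega)
  have D : CrV i κ v p p' := ⟨lv', huc, hk⟩
  have lp := D.lp H
  have lp' := D.lp' H
  have hcard := D.card_T H hκ
  have hpos := D.pos_T H hA hv
  have hle := card_le_sum hpos
  have n1 : 1 ≤ (uc p).card := card_pos.2 (uc_nonempty H (by omega))
  have n2 : 1 ≤ (uc p').card := card_pos.2 (uc_nonempty H (by omega))
  have hup1 := D.up1 H hκ
  by_cases h3 : (uc p).card + (uc p').card = 2
  · left
    refine Or.inr (Or.inr (Or.inr ?_))
    obtain ⟨y, hy⟩ := card_eq_one.1 (by omega : (uc p).card = 1)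
    obtain ⟨y', hy'⟩ := card_eq_one.1 (by omega : (uc p').card = 1)
    exact cross_one H (by omega) hκ D hA hB hd hv hM hc hy hy' hn
      (hZ v lv' hvc (by omega))
  · have h4 : (uc p).card + (uc p').card = 3 := by omega
    have h5 : ∀ x, e x = if x ∈ CrV.T v p p' then 1 else 0 :=
      LowD_ind (fun x hx => hpos x hx) (by omega)
    have h6 : e = eN i v := by
      funext x
      rw [h5 x]
      unfold eN
      by_cases hx : x ∈ CrV.T v p p'
      · rw [if_pos hx, if_pos ((D.T_iff H).1 hx)]
      · rw [if_neg hx, if_neg (fun h => hx ((D.T_iff H).2 h))]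
    have h7 := cone_data H (i := i) (by omega) (v := v)
    obtain ⟨-, -, -, -, h8, h9, h10⟩ := h7
    obtain ⟨h11, h12⟩ := h10 (by omega)
    rw [← h6] at h8 h9 h11 h12
    have h13 : (AL i e).card = up i v := by rw [h12, up_eq]
    rw [if_neg (by omega)] at h11
    have h14 := D.up0_le H
    have h32 := (I32' H hi hi2 hg).1
    have u1 := (up_le_four H lp).1
    have u2 := (up_le_four H lp').1
    have u3 := h32 p lp
    have u4 := h32 p' lp'
    have h15 : up i v ≤ 5 := by
      have c1 : (uc p).card = 1 ∨ (uc p').card = 1 := by omega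
      rcases c1 with c1 | c1
      · rw [c1] at u1
        omega
      · rw [c1] at u2
        omega
    by_cases h16 : up i v = 5
    · right
      refine ⟨by omega, v, lv', hvc, by omega, h16, h6⟩
    · left
      refine Or.inr (Or.inr (Or.inr ?_))
      rw [h9, card_empty, h8]
      omega

end Pool.Agent.GaussPoset.Win.So
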