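import Pool.Agent.W_448so_h17.TgD

/-!
S9, row 476 (D): the window sum of a part `C` as a sum over cores: `ZC i C n` is the sum over the
cores `e` supported on `C` of `J i psi C (n - |e|) e`.
-/

namespace Pool.Agent.GaussPoset.Win.So

set_option linter.unusedSectionVars false

open Finset

universe u

variable {P : Type u} [Fintype P] [PartialOrder P] [DecidableEq P] {r i : ℕ}

variable {e f : P → ℕ} {psi : P → P} {C : Finset P}

/-! ### sums over subsets of `V` -/

theorem IV_chi {V B D : Finset P} (hB : B ⊆ V) (hD : D ⊆ V) :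
    IV V (chi B D) = if Disjoint B D then xx ^ B.card * dd ^ (V.card - B.card - D.card)
      else 0 := by
  unfold IV chi
  split_ifs with hd
  · have h1 : ∑ S ∈ V.powerset, xx ^ S.card * (if B ⊆ S ∧ Disjoint D S then (1 : A) else 0) =
        ∑ S ∈ V.powerset.filter (fun S => B ⊆ S ∧ Disjoint D S), xx ^ S.card := by
      rw [Finset.sum_filter]
      refine Finset.sum_congr rfl fun S _ => ?_
      split_ifs <;> simp
    have h2 : ∑ S ∈ V.powerset.filter (fun S => B ⊆ S ∧ Disjoint D S), xx ^ S.card =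
        ∑ T ∈ ((V \ B) \ D).powerset, xx ^ (B ∪ T).card := by
      symm
      refine Finset.sum_nbij' (fun T => B ∪ T) (fun S => S \ B) ?_ ?_ ?_ ?_ ?_
      · intro T hT
        rw [mem_powerset] at hT
        rw [mem_filter, mem_powerset]
        refine ⟨union_subset hB (hT.trans (sdiff_subset.trans sdiff_subset)),
          subset_union_left, ?_⟩
        rw [disjoint_union_right]
        refine ⟨hd.symm, ?_⟩
        exact (disjoint_of_subset_left hT sdiff_disjoint).symm
      · intro S hS
        rw [mem_filter, mem_powerset] at hS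
        rw [mem_powerset]
        intro x hx
        rw [mem_sdiff] at hx
        rw [mem_sdiff, mem_sdiff]
        exact ⟨⟨hS.1 hx.1, hx.2⟩, fun h => (disjoint_left.1 hS.2.2 h) hx.1⟩
      · intro T hT
        rw [mem_powerset] at hT
        have h3 : Disjoint B T := by
          rw [disjoint_left]
          intro x hx hxT
          have := hT hxT
          rw [mem_sdiff, mem_sdiff] at this
          exact this.1.2 hx
        exact h3.sup_sdiff_cancel_left
      · intro S hS
        rw [mem_filter, mem_powerset] at hS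
        exact union_sdiff_of_subset hS.2.1
      · intro T _
        rfl
    have h3 : ∀ T ∈ ((V \ B) \ D).powerset, xx ^ (B ∪ T).card = xx ^ B.card * xx ^ T.card := by
      intro T hT
      rw [mem_powerset] at hT
      rw [card_union_of_disjoint, pow_add]
      rw [disjoint_left]
      intro x hx hxT
      have := hT hxT
      rw [mem_sdiff, mem_sdiff] at this
      exact this.1.2 hx
    have h4 : ((V \ B) \ D).card = V.card - B.card - D.card := by
      rw [card_sdiff_of_subset, card_sdiff_of_subset hB]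
      intro x hx
      rw [mem_sdiff]
      exact ⟨hD hx, fun h => (disjoint_left.1 hd h) hx⟩
    rw [h1, h2, Finset.sum_congr rfl h3, ← Finset.mul_sum, ← h4, ← one_add_xx, add_comm 1 xx,
      ← Finset.sum_pow_mul_eq_add_pow]
    simp
  · refine Finset.sum_eq_zero fun S _ => ?_
    rw [if_neg, mul_zero]
    rintro ⟨h1, h2⟩
    exact hd (disjoint_of_subset_left h1 h2.symm)

theorem IV_Fe (H : Gr P r) (hC : Part i C) (he : Spt C e) :
    IV (st i C) (Fe i e) = tC i C e := by
  have h1 : IV (st i C) (Fe i e) = cw i e * IV (st i C) (chi (AL i e) (AU i e)) := by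
    unfold IV Fe
    rw [Finset.mul_sum]
    refine Finset.sum_congr rfl fun S _ => ?_
    ring
  rw [h1, IV_chi (AL_sub hC he) (AU_sub H hC he)]
  unfold tC
  split_ifs
  · rfl
  · rw [mul_zero]

lemma IV_congr {V : Finset P} {f g : Finset P → A} (h : ∀ S, f S = g S) : IV V f = IV V g := by
  rw [show f = g from funext h]

lemma IV_add (V : Finset P) (f g : Finset P → A) :
    IV V (fun S => f S + g S) = IV V f + IV V g := by
  unfold IV
  rw [← Finset.sum_add_distrib]
  exact Finset.sum_congr rfl fun S _ => mul_add _ _ _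

theorem Rk_IV {V : Finset P} {k : ℕ} {f : Finset P → A} (hf : Rk V k f) :
    dd ^ (V.card - k) ∣ IV V f := by
  classical
  obtain ⟨c, hc, hf⟩ := hf
  have h1 : IV V f = ∑ T ∈ V.powerset, c T * IV V (chi T ∅) := by
    unfold IV
    simp only [Finset.mul_sum]
    rw [Finset.sum_comm]
    apply Finset.sum_congr rfl
    intro S hS
    rw [hf S (Finset.mem_powerset.1 hS), Finset.mul_sum]
    have h2 : ∑ T ∈ S.powerset, xx ^ S.card * c T =
        ∑ T ∈ S.powerset, c T * (xx ^ S.card * chi T ∅ S) := by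
      apply Finset.sum_congr rfl
      intro T hT
      unfold chi
      rw [if_pos ⟨Finset.mem_powerset.1 hT, Finset.disjoint_empty_left S⟩]
      ring
    rw [h2]
    apply Finset.sum_subset
    · exact Finset.powerset_mono.2 (Finset.mem_powerset.1 hS)
    · intro T _ hT
      unfold chi
      rw [if_neg (fun h => hT (Finset.mem_powerset.2 h.1))]
      ring
  rw [h1]
  apply Finset.dvd_sum
  intro T hT
  have hT' := Finset.mem_powerset.1 hT
  rw [IV_chi hT' (Finset.empty_subset _), if_pos (Finset.disjoint_empty_right T),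
    Finset.card_empty, Nat.sub_zero]
  have h3 : dd ^ (V.card - k) ∣ dd ^ (T.card - k) * dd ^ (V.card - T.card) := by
    rw [← pow_add]
    apply pow_dvd_pow
    have := Finset.card_le_card hT'
    omega
  have h4 : dd ^ (T.card - k) * dd ^ (V.card - T.card) ∣
      c T * dd ^ (V.card - T.card) := mul_dvd_mul_right (hc T hT') _
  have h5 : c T * (xx ^ T.card * dd ^ (V.card - T.card)) =
      (c T * dd ^ (V.card - T.card)) * xx ^ T.card := by ring
  rw [h5]
  exact Dvd.dvd.mul_right (h3.trans h4) _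

lemma Rk_sub {V W : Finset P} {k : ℕ} {f : Finset P → A} (h : W ⊆ V) (hf : Rk V k f) :
    Rk W k f := by
  obtain ⟨c, h1, h2⟩ := hf
  exact ⟨c, fun T hT => h1 T (hT.trans h), fun S hS => h2 S (hS.trans h)⟩

lemma st_sub (i : ℕ) (C : Finset P) : st i C ⊆ lv P i := by
  intro v hv
  rw [mem_st] at hv
  exact mem_lv.2 hv.2

/-! ### parts and `psi` -/

lemma psi_mem (H : Gr P r) (hM : Mat P i ∅ psi) (hC : Part (i + 1) C) {x : P}
    (hx : x ∈ dbL P i ∪ dbU P i) (hxC : x ∈ C) : psi x ∈ C := by
  rcases mem_union.1 hx with h | h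
  · obtain ⟨h1, h2⟩ := hM.low x h (notMem_empty x)
    have h3 := (mem_dbL.1 h).2
    obtain ⟨v, hv⟩ : (uc x).Nonempty := by rw [← card_pos]; omega
    have hvC : v ∈ C := hC.up hxC (mem_uc.1 hv)
    rw [← h2] at hv
    exact hC.up hvC (mem_dc.1 hv)
  · obtain ⟨h1, h2⟩ := hM.upp x h (notMem_empty x)
    have h3 := mem_dbU.1 h
    obtain ⟨v, hv⟩ : (dc x).Nonempty := by rw [← card_pos]; omega
    have hl := lev_dc H hv
    have hvC : v ∈ C := hC.dn hxC (by omega) (mem_dc.1 hv)
    rw [← h2] at hv
    exact hC.dn hvC (by omega) (mem_uc.1 hv)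

/-- the free near elements of the part -/
noncomputable def RC (i : ℕ) (psi : P → P) (C : Finset P) (e : P → ℕ) : Finset P :=
  Rst i ∅ psi e ∩ C

/-- the sum over the labellings of the free near elements of the part -/
noncomputable def RG (i : ℕ) (psi : P → P) (C : Finset P) (e : P → ℕ) (m : ℕ) (S : Finset P) :
    A := ∑ l ∈ (RC i psi C e).piAntidiag m, ∏ x ∈ RC i psi C e, wt i e x (l x) S

lemma RC_near {x : P} (hx : x ∈ RC i psi C e) : x ∈ near P i :=
  (mem_Rst.1 (mem_inter.1 hx).1).1

lemma psi_Rst (H : Gr P r) (hM : Mat P i ∅ psi) {x : P} (hx : x ∈ Rst i ∅ psi e)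
    (hd : x ∈ dbL P i ∪ dbU P i) : psi x ∈ Rst i ∅ psi e := by
  obtain ⟨h1, h2, h3, h4⟩ := mem_Rst.mp hx
  have h5 := hM.invol x hd h2
  refine mem_Rst.mpr ⟨?_, h5.2, fun h6 => h4 ⟨hd, h6⟩, ?_⟩
  · rcases Finset.mem_union.mp hd with h6 | h6
    · have h7 := (mem_dbU.mp (hM.low x h6 h2).1).1
      exact mem_near.mpr (Or.inr h7)
    · have h7 := (mem_dbL.mp (hM.upp x h6 h2).1).1
      exact mem_near.mpr (Or.inl h7)
  · rintro ⟨-, h6⟩
    rw [h5.1] at h6
    exact h3 h6

theorem RG_Rk (H : Gr P r) (hi : 1 ≤ i) (hi2 : i + 1 ≤ r) (hM : Mat P i ∅ psi)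
    (hC : Part (i + 1) C) (e : P → ℕ) (m : ℕ) : Rk (lv P i) 0 (RG i psi C e m) := by
  refine rest_prod H hi hi2 hM e (RC i psi C e) (fun x hx => RC_near hx)
    (fun x _ => notMem_empty x) (fun x hx hd => ?_) m
  unfold RC at hx ⊢
  rw [mem_inter] at hx ⊢
  exact ⟨psi_Rst H hM hx.1 hd, psi_mem H hM hC hd hx.2⟩

lemma RG_zero (H : Gr P r) (hir : i ≤ r) (e : P → ℕ) (S : Finset P) :
    RG i psi C e 0 S = 1 := by
  unfold RG
  rw [Finset.piAntidiag_zero, Finset.sum_singleton]
  refine Finset.prod_eq_one fun x hx => ?_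
  show wt i e x ((0 : P → ℕ) x) S = 1
  rw [Pi.zero_apply]
  exact wt_zero H hir (RC_near hx) e S

/-- the contribution of a core -/
noncomputable def J (i : ℕ) (psi : P → P) (C : Finset P) (m : ℕ) (e : P → ℕ) : A :=
  IV (st i C) (fun S => Fe i e S * RG i psi C e m S)

lemma J_zero (H : Gr P r) (hir : i ≤ r) (hC : Part i C) (he : Spt C e) :
    J i psi C 0 e = tC i C e := by
  rw [← IV_Fe H hC he]
  unfold J
  congr 1
  funext S
  rw [RG_zero H hir, mul_one]

/-- cores with at most `k` deficits -/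
theorem J_dvd (H : Gr P r) (hi : 1 ≤ i) (hi2 : i + 1 ≤ r) (hM : Mat P i ∅ psi)
    (hC : Part (i + 1) C) {k : ℕ} (hk : Rk (lv P i) k (Fe i e)) (m : ℕ) :
    dd ^ ((st i C).card - k) ∣ J i psi C m e := by
  have h1 := Rk_mul hk (RG_Rk H hi hi2 hM hC e m)
  rw [add_zero] at h1
  exact Rk_IV (Rk_sub (st_sub i C) h1)

open Classical in
/-- grouping by cores inside a part -/
theorem group_C {M : Type*} [AddCommMonoid M] (H : Gr P r) (F : (P → ℕ) → M) (i : ℕ)
    (psi : P → P) (C : Finset P) (n : ℕ) :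
    ∑ e ∈ C.piAntidiag n, F e =
      ∑ q ∈ range (n + 1), ∑ e0 ∈ (C.piAntidiag q).filter (IsCore i ∅ psi),
        ∑ l ∈ (RC i psi C e0).piAntidiag (n - q), F (e0 + l) := by
  classical
  have h := core_group H (fun e => if Spt C e then F e else 0) i ∅ psi n
  have h1 : ∑ e ∈ (univ : Finset P).piAntidiag n, (if Spt C e then F e else 0) =
      ∑ e ∈ C.piAntidiag n, F e := by
    rw [← Finset.sum_filter]
    refine Finset.sum_congr ?_ fun _ _ => rfl
    ext e
    rw [mem_filter, I2.mem_pa, I2.mem_pa]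
    constructor
    · rintro ⟨⟨h1, -⟩, h2⟩
      exact ⟨h1, h2⟩
    · rintro ⟨h1, h2⟩
      exact ⟨⟨h1, fun x hx => absurd (mem_univ x) hx⟩, h2⟩
  rw [h1] at h
  rw [h]
  refine Finset.sum_congr rfl fun q _ => ?_
  have h2 : (C.piAntidiag q).filter (IsCore i ∅ psi) =
      (((univ : Finset P).piAntidiag q).filter (IsCore i ∅ psi)).filter (Spt C) := by
    ext e
    rw [mem_filter, mem_filter, mem_filter, I2.mem_pa, I2.mem_pa]
    constructor
    · rintro ⟨⟨h1, h2⟩, h3⟩
      exact ⟨⟨⟨h1, fun x hx => absurd (mem_univ x) hx⟩, h3⟩, h2⟩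
    · rintro ⟨⟨⟨h1, -⟩, h3⟩, h2⟩
      exact ⟨⟨h1, h2⟩, h3⟩
  rw [h2]
  conv_rhs => rw [Finset.sum_filter]
  refine Finset.sum_congr rfl fun e0 _ => ?_
  · by_cases hs : Spt C e0
    · rw [if_pos hs, ← Finset.sum_filter]
      refine Finset.sum_congr ?_ fun _ _ => rfl
      ext l
      rw [mem_filter, I2.mem_pa, I2.mem_pa]
      constructor
      · rintro ⟨⟨a1, a2⟩, a3⟩
        refine ⟨a1, fun x hx => ?_⟩
        unfold RC at hx
        rw [mem_inter, not_and_or] at hx
        rcases hx with hx | hx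
        · exact a2 x hx
        · have := a3 x hx
          rw [Pi.add_apply] at this
          omega
      · rintro ⟨a1, a2⟩
        have hl : ∀ x, x ∉ C → l x = 0 := fun x hx => a2 x (fun h => hx (by
          unfold RC at h
          exact (mem_inter.1 h).2))
        refine ⟨⟨a1, fun x hx => a2 x (fun h => hx (by
          unfold RC at h
          exact (mem_inter.1 h).1))⟩, fun x hx => ?_⟩
        rw [Pi.add_apply, hs x hx, hl x hx]
    · rw [if_neg hs]
      refine Finset.sum_eq_zero fun l _ => ?_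
      rw [if_neg]
      intro h
      apply hs
      intro x hx
      have := h x hx
      rw [Pi.add_apply] at this
      omega

open Classical in
/-- THE WINDOW SUM OF A PART as a sum over cores -/
theorem ZC_cores (H : Gr P r) (hir : i ≤ r) (psi : P → P) (hC : Part i C) (n : ℕ) :
    ZC i C n = ∑ q ∈ range (n + 1), ∑ e ∈ (C.piAntidiag q).filter (IsCore i ∅ psi),
      J i psi C (n - q) e := by
  unfold ZC
  rw [group_C H (tC i C) i psi C n]
  refine Finset.sum_congr rfl fun q _ => Finset.sum_congr rfl fun e he => ?_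
  rw [mem_filter, I2.mem_pa] at he
  obtain ⟨⟨h1, h2⟩, h3⟩ := he
  have h4 : ∀ l ∈ (RC i psi C e).piAntidiag (n - q), tC i C (e + l) =
      IV (st i C) (fun S => Fe i e S * ∏ x ∈ RC i psi C e, wt i e x (l x) S) := by
    intro l hl
    rw [I2.mem_pa] at hl
    have hs : Spt C (e + l) := by
      intro x hx
      rw [Pi.add_apply, h2 x hx, hl.2 x (fun h => hx (by
        unfold RC at h
        exact (mem_inter.1 h).2))]
    rw [← IV_Fe H hC hs]
    congr 1
    funext S
    refine fact_many H hir (RC i psi C e) (fun x hx => RC_near hx) (fun x hx => ?_)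
      (fun x hx => ?_) l hl.2 S
    · unfold RC at hx
      exact (mem_Rst.1 (mem_inter.1 hx).1).2.2.1
    · unfold RC at hx
      exact h3 x (mem_inter.1 hx).1
  rw [Finset.sum_congr rfl h4]
  unfold J RG IV
  rw [Finset.sum_comm]
  refine Finset.sum_congr rfl fun S _ => ?_
  rw [← Finset.mul_sum, ← Finset.mul_sum]

/-! ### invariance of `RG` -/

lemma RG_congr (H : Gr P r) {s : P} (h1 : RC i psi C e = RC i psi C f)
    (h2 : ∀ v, lev v = i → v ≠ s → e v = f v) (h3 : ∀ x ∈ RC i psi C f, Far s x) (m : ℕ)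
    (S : Finset P) : RG i psi C e m S = RG i psi C f m S := by
  unfold RG
  rw [h1]
  refine Finset.sum_congr rfl fun l _ => Finset.prod_congr rfl fun x hx => ?_
  exact wt_congr_far H h2 (RC_near hx) (h3 x hx) (l x) S

lemma RG_congr' (H : Gr P r) (h1 : RC i psi C e = RC i psi C f)
    (h2 : ∀ v, lev v = i → e v = f v) (m : ℕ)
    (S : Finset P) : RG i psi C e m S = RG i psi C f m S := by
  unfold RG
  rw [h1]
  refine Finset.sum_congr rfl fun l _ => Finset.prod_congr rfl fun x hx => ?_
  exact wt_congr H h2 (RC_near hx) (l x) S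

lemma RG_insert {s : P} (h3 : ∀ x ∈ RC i psi C e, Far s x) (m : ℕ) (S : Finset P) :
    RG i psi C e m (insert s S) = RG i psi C e m S := by
  unfold RG
  refine Finset.sum_congr rfl fun l _ => Finset.prod_congr rfl fun x hx => ?_
  exact wt_insert (h3 x hx) (l x) S

section toggle

variable {w x x' a s c : P}

lemma TogL.RG_tg (H : Gr P r) (T : TogL i e w x x' a s c) (hM : Mat P i ∅ psi) (m : ℕ)
    (S : Finset P) : RG i psi C (So.tg w s e) m S = RG i psi C e m S := by
  apply RG_congr H (s := s)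
  · unfold RC
    rw [T.Rst_eq H]
  · intro v hv hvs
    refine tg_ne (by rintro rfl; have := T.lw; omega) hvs e
  · intro z hz
    unfold RC at hz
    exact T.far H hM (mem_inter.1 hz).1

lemma TogL.RG_ins (H : Gr P r) (T : TogL i e w x x' a s c) (hM : Mat P i ∅ psi) (m : ℕ)
    (S : Finset P) : RG i psi C e m (insert s S) = RG i psi C e m S := by
  apply RG_insert
  intro z hz
  unfold RC at hz
  exact T.far H hM (mem_inter.1 hz).1

lemma TogU.RG_tg (H : Gr P r) (T : TogU i e w x x' a s c) (hM : Mat P i ∅ psi) (m : ℕ)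
    (S : Finset P) : RG i psi C (So.tg w s e) m S = RG i psi C e m S := by
  apply RG_congr H (s := s)
  · unfold RC
    rw [T.Rst_eq H]
  · intro v hv hvs
    refine tg_ne (by rintro rfl; have := T.lw; omega) hvs e
  · intro z hz
    unfold RC at hz
    exact T.far H hM (mem_inter.1 hz).1

lemma TogU.RG_ins (H : Gr P r) (T : TogU i e w x x' a s c) (hM : Mat P i ∅ psi) (m : ℕ)
    (S : Finset P) : RG i psi C e m (insert s S) = RG i psi C e m S := by
  apply RG_insert
  intro z hz
  unfold RC at hz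
  exact T.far H hM (mem_inter.1 hz).1

/-- the two members of a toggle pair: the sum of their contributions gains a factor -/
theorem TogL.J_pair (H : Gr P r) (T : TogL i e w x x' a s c) (hM : Mat P i ∅ psi) {m k : ℕ}
    (hs : s ∈ C) (h1 : dd ^ k ∣ J i psi C m e) (h2 : dd ^ k ∣ J i psi C m (So.tg w s e)) :
    dd ^ (k + 1) ∣ J i psi C m e + J i psi C m (So.tg w s e) := by
  have hsv : s ∈ Win.st i C := mem_st.2 ⟨hs, T.ls H⟩
  have h3 : J i psi C m (So.tg w s e) =
      IV (Win.st i C) (fun S => Fe i (So.tg w s e) S * RG i psi C e m S) := by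
    unfold J
    refine IV_congr fun S => ?_
    rw [T.RG_tg H hM]
  rw [h3] at h2 ⊢
  exact dvd_tg H T hsv (RG i psi C e m) (fun S => T.RG_ins H hM m S) h1 h2

theorem TogU.J_pair (H : Gr P r) (T : TogU i e w x x' a s c) (hM : Mat P i ∅ psi) {m k : ℕ}
    (hs : s ∈ C) (h1 : dd ^ k ∣ J i psi C m e) (h2 : dd ^ k ∣ J i psi C m (So.tg w s e)) :
    dd ^ (k + 1) ∣ J i psi C m e + J i psi C m (So.tg w s e) := by
  have hsv : s ∈ Win.st i C := mem_st.2 ⟨hs, T.ls H⟩
  have h3 : J i psi C m (So.tg w s e) =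
      IV (Win.st i C) (fun S => Fe i (So.tg w s e) S * RG i psi C e m S) := by
    unfold J
    refine IV_congr fun S => ?_
    rw [T.RG_tg H hM]
  rw [h3] at h2 ⊢
  exact dvd_tgU H T hsv (RG i psi C e m) (fun S => T.RG_ins H hM m S) h1 h2

end toggle

section reflection

variable {y p u p' : P}

lemma RefL.RG_rho (H : Gr P r) (D : RefD r i y p u p') (R : RefL e y p u p')
    (hM : Mat P i ∅ psi) (hp : psi y = u) (m : ℕ) (S : Finset P) :
    RG i psi C (rho y p u p' e) m S = RG i psi C e m S := by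
  apply RG_congr' H
  · unfold RC
    rw [R.Rst_eq H D hM hp]
  · intro v hv
    exact D.rho_site H hv

/-- the function of the sum of two mirror images: `(phiL + phiU) * rest` -/
noncomputable def GR (i : ℕ) (psi : P → P) (C : Finset P) (y p u : P) (m : ℕ) (e : P → ℕ)
    (S : Finset P) : A :=
  (phiL (red y p e) y (e y) (e p) S + phiU (red y p e) u (e y) (e p) S) * RG i psi C e m S

lemma RefL.GR_Rk (H : Gr P r) (hi : 1 ≤ i) (hi2 : i + 1 ≤ r) (D : RefD r i y p u p')
    (R : RefL e y p u p') (hM : Mat P i ∅ psi) (hC : Part (i + 1) C) (m : ℕ) :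
    Rk (lv P i) 0 (GR i psi C y p u m e) := by
  have h1 : Rk (lv P i) 0 (fun S => phiL (red y p e) y (e y) (e p) S +
      phiU (red y p e) u (e y) (e p) S) := by
    apply R.pair_Rk H D
    intro v hv
    have l1 := lev_uc H hv
    have l2 := D.ly
    exact mem_lv.2 (by omega)
  have h2 := Rk_mul h1 (RG_Rk H hi hi2 hM hC e m)
  rw [add_zero] at h2
  exact h2

/-- THE SUM OF THE CONTRIBUTIONS of two mirror images -/
theorem RefL.J_pair (H : Gr P r) (D : RefD r i y p u p') (R : RefL e y p u p')
    (hM : Mat P i ∅ psi) (hp : psi y = u) (m : ℕ) :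
    J i psi C m e + J i psi C m (rho y p u p' e) =
      IV (st i C) (fun S => Fe i (red y p e) S * GR i psi C y p u m e S) := by
  have h3 : J i psi C m (rho y p u p' e) =
      IV (st i C) (fun S => Fe i (rho y p u p' e) S * RG i psi C e m S) := by
    unfold J
    refine IV_congr fun S => ?_
    rw [R.RG_rho H D hM hp]
  rw [h3]
  unfold J
  rw [← IV_add]
  refine IV_congr fun S => ?_
  have h4 := R.pair_eq H D S
  unfold GR
  rw [← add_mul, h4, mul_assoc]

end reflection

end Pool.Agent.GaussPoset.Win.So
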