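import Pool.Agent.W_448so_h17.TgA

/-!
S9, row 476 (C): exciting a near lower element `y` together with its private child `p` (whose
lower covers, and the other lower covers of `y`, have label zero) multiplies the function of the
configuration by `phiL`.
-/

namespace Pool.Agent.GaussPoset.Win.So

set_option linter.unusedSectionVars false

open Finset

universe u

variable {P : Type u} [Fintype P] [PartialOrder P] [DecidableEq P] {r i : ℕ}

variable {e : P → ℕ} {y p : P} {Y Q : ℕ}

/-- change two labels -/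
def up2 (y p : P) (Y Q : ℕ) (e : P → ℕ) : P → ℕ :=
  fun z => if z = y then Y else if z = p then Q else e z

lemma up2_y (y p : P) (Y Q : ℕ) (e : P → ℕ) : up2 y p Y Q e y = Y := by
  unfold up2; rw [if_pos rfl]

lemma up2_p {y p : P} (h : p ≠ y) (Y Q : ℕ) (e : P → ℕ) : up2 y p Y Q e p = Q := by
  unfold up2; rw [if_neg h, if_pos rfl]

lemma up2_ne {y p z : P} (h : z ≠ y) (h' : z ≠ p) (Y Q : ℕ) (e : P → ℕ) :
    up2 y p Y Q e z = e z := by
  unfold up2; rw [if_neg h, if_neg h']

/-- `y` near lower with the child `p`, both with label zero, as all their lower covers -/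
structure LowD (i : ℕ) (e : P → ℕ) (y p : P) : Prop where
  ly : lev y = i + 1
  cp : uc p = {y}
  ey : e y = 0
  ep : e p = 0
  hy : ∀ z, z ⋖ y → e z = 0
  hp : ∀ z, z ⋖ p → e z = 0

open Classical in
/-- the factor of `(y, p)` with labels `(Y, Q)` -/
noncomputable def phiL (e : P → ℕ) (y : P) (Y Q : ℕ) (S : Finset P) : A :=
  (if ∀ v ∈ uc y, e v < Y then (if Y < Q then xx * dd else dd) else (if Y < Q then 0 else 1)) *
    (if ∀ v ∈ uc y, e v < Y → v ∈ S then 1 else 0)

namespace LowD

variable (H : Gr P r) (D : LowD i e y p)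

include D

lemma py : p ⋖ y := mem_uc.1 (by rw [D.cp]; exact mem_singleton_self y)

lemma ne : p ≠ y := D.py.lt.ne

lemma only {z : P} (h : p ⋖ z) : z = y := by
  have := mem_uc.2 h
  rwa [D.cp, mem_singleton] at this

include H

lemma lp : lev p = i + 2 := by
  have h1 := lev_uc H (mem_uc.2 D.py)
  have := D.ly
  omega

/-- the label of an element which is neither `y` nor `p` -/
lemma oth {z : P} (h1 : lev z ≠ i + 1) (h2 : lev z ≠ i + 2) : up2 y p Y Q e z = e z := by
  apply up2_ne
  · rintro rfl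
    exact h1 D.ly
  · rintro rfl
    exact h2 (D.lp H)

lemma FD_p : ¬ FD (up2 y p Y Q e) p := by
  rintro ⟨z, hz, hlt⟩
  have l1 := lev_uc H (mem_uc.2 hz)
  have l2 := D.lp H
  have h3 : up2 y p Y Q e z = e z := D.oth H (by omega) (by omega)
  rw [h3, D.hp z hz] at hlt
  omega

lemma GU_p : GU (up2 y p Y Q e) p ↔ Q ≤ Y := by
  constructor
  · rintro ⟨z, hz, hle⟩
    rw [D.only hz, up2_y, up2_p D.ne] at hle
    exact hle
  · intro h
    refine ⟨y, D.py, ?_⟩
    rw [up2_y, up2_p D.ne]
    exact h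

lemma FD_y : FD (up2 y p Y Q e) y ↔ Y < Q := by
  constructor
  · rintro ⟨z, hz, hlt⟩
    rw [up2_y] at hlt
    by_cases h : z = p
    · rw [h, up2_p D.ne] at hlt
      exact hlt
    · rw [up2_ne hz.lt.ne h, D.hy z hz] at hlt
      omega
  · intro h
    refine ⟨p, D.py, ?_⟩
    rw [up2_y, up2_p D.ne]
    exact h

lemma GU_y : GU (up2 y p Y Q e) y ↔ ¬ ∀ v ∈ uc y, e v < Y := by
  have key : ∀ v ∈ uc y, up2 y p Y Q e v = e v := by
    intro v hv
    have l1 := lev_uc H hv
    have l2 := D.ly
    exact D.oth H (by omega) (by omega)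
  constructor
  · rintro ⟨v, hv, hle⟩ h
    rw [up2_y, key v (mem_uc.2 hv)] at hle
    have := h v (mem_uc.2 hv)
    omega
  · intro h
    push Not at h
    obtain ⟨v, hv, hle⟩ := h
    refine ⟨v, mem_uc.1 hv, ?_⟩
    rw [up2_y, key v hv]
    exact hle

lemma FD0_p : ¬ FD e p := by
  rintro ⟨z, hz, hlt⟩
  rw [D.hp z hz] at hlt
  omega

lemma GU0_p : GU e p := ⟨y, D.py, by rw [D.ep]; exact Nat.zero_le _⟩

lemma FD0_y : ¬ FD e y := by
  rintro ⟨z, hz, hlt⟩
  rw [D.hy z hz] at hlt
  omega

lemma GU0_y : GU e y := by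
  obtain ⟨v, hv⟩ := uc_nonempty H (x := y) (by rw [D.ly]; omega)
  exact ⟨v, mem_uc.1 hv, by rw [D.ey]; exact Nat.zero_le _⟩

lemma FD_oth {z : P} (hz : i < lev z) (h1 : z ≠ y) (h2 : z ≠ p) :
    FD (up2 y p Y Q e) z ↔ FD e z := by
  have key : ∀ z', z' ⋖ z → up2 y p Y Q e z' = e z' := by
    intro z' hz'
    apply up2_ne
    · rintro rfl
      have l1 := lev_uc H (mem_uc.2 hz')
      have := D.ly
      omega
    · rintro rfl
      exact h1 (D.only hz')
  unfold FD
  constructor
  · rintro ⟨z', hz', hlt⟩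
    rw [key z' hz', up2_ne h1 h2] at hlt
    exact ⟨z', hz', hlt⟩
  · rintro ⟨z', hz', hlt⟩
    refine ⟨z', hz', ?_⟩
    rw [key z' hz', up2_ne h1 h2]
    exact hlt

lemma GU_oth {z : P} (h1 : z ≠ y) (h2 : z ≠ p) :
    GU (up2 y p Y Q e) z ↔ GU e z := by
  by_cases hzy : z ⋖ y
  · have h0 := D.hy z hzy
    constructor
    · intro _
      exact ⟨y, hzy, by omega⟩
    · intro _
      exact ⟨y, hzy, by rw [up2_ne h1 h2]; omega⟩
  · by_cases hzp : z ⋖ p
    · have h0 := D.hp z hzp
      constructor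
      · intro _
        exact ⟨p, hzp, by omega⟩
      · intro _
        exact ⟨p, hzp, by rw [up2_ne h1 h2]; omega⟩
    · have key : ∀ w, z ⋖ w → up2 y p Y Q e w = e w := by
        intro w hw
        apply up2_ne
        · rintro rfl
          exact hzy hw
        · rintro rfl
          exact hzp hw
      unfold GU
      constructor
      · rintro ⟨w, hw, hle⟩
        rw [key w hw, up2_ne h1 h2] at hle
        exact ⟨w, hw, hle⟩
      · rintro ⟨w, hw, hle⟩
        refine ⟨w, hw, ?_⟩
        rw [key w hw, up2_ne h1 h2]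
        exact hle

lemma FD_site {v : P} (hv : lev v = i) :
    FD (up2 y p Y Q e) v ↔ FD e v ∨ (v ∈ uc y ∧ e v < Y) := by
  have hve : up2 y p Y Q e v = e v := D.oth H (by omega) (by omega)
  constructor
  · rintro ⟨z, hz, hlt⟩
    rw [hve] at hlt
    by_cases h : z = y
    · subst h
      rw [up2_y] at hlt
      exact Or.inr ⟨mem_uc.2 hz, hlt⟩
    · left
      refine ⟨z, hz, ?_⟩
      rwa [up2_ne h] at hlt
      rintro rfl
      have l1 := lev_uc H (mem_uc.2 hz)
      have := D.lp H
      omega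
  · rintro (⟨z, hz, hlt⟩ | ⟨h1, h2⟩)
    · refine ⟨z, hz, ?_⟩
      rw [hve, up2_ne]
      · exact hlt
      · rintro rfl
        rw [D.ey] at hlt
        omega
      · rintro rfl
        have l1 := lev_uc H (mem_uc.2 hz)
        have := D.lp H
        omega
    · refine ⟨y, mem_uc.1 h1, ?_⟩
      rw [hve, up2_y]
      exact h2

lemma up_eq {z : P} (hz : lev z ≤ i) : up2 y p Y Q e z = e z := D.oth H (by omega) (by omega)

lemma FU_iff {v : P} (hv : lev v ≤ i) : FU (up2 y p Y Q e) v ↔ FU e v := by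
  have hve : up2 y p Y Q e v = e v := D.up_eq H hv
  have key : ∀ w, v ⋖ w → up2 y p Y Q e w = e w := by
    intro w hw
    have l1 := lev_uc H (mem_uc.2 hw)
    exact D.up_eq H (by omega)
  unfold FU
  constructor
  · rintro ⟨w, hw, hlt⟩
    rw [key w hw, hve] at hlt
    exact ⟨w, hw, hlt⟩
  · rintro ⟨w, hw, hlt⟩
    refine ⟨w, hw, ?_⟩
    rw [key w hw, hve]
    exact hlt

lemma GD_iff {v : P} (hv : lev v < i) : GD (up2 y p Y Q e) v ↔ GD e v := by
  have hve : up2 y p Y Q e v = e v := D.up_eq H hv.le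
  have key : ∀ w, w ⋖ v → up2 y p Y Q e w = e w := by
    intro w hw
    have l1 := lev_uc H (mem_uc.2 hw)
    exact D.up_eq H (by omega)
  unfold GD
  constructor
  · rintro ⟨w, hw, hlt⟩
    rw [key w hw, hve] at hlt
    exact ⟨w, hw, hlt⟩
  · rintro ⟨w, hw, hlt⟩
    refine ⟨w, hw, ?_⟩
    rw [key w hw, hve]
    exact hlt

lemma AdmU_iff : AdmU i (up2 y p Y Q e) ↔ AdmU i e := by
  unfold AdmU
  constructor
  · intro h u hu
    have := h u hu
    rwa [D.FU_iff H hu.le, D.GD_iff H hu] at this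
  · intro h u hu
    rw [D.FU_iff H hu.le, D.GD_iff H hu]
    exact h u hu

lemma AU_eq : AU i (up2 y p Y Q e) = AU i e := by
  classical
  ext v
  rw [NormD_mem_AU, NormD_mem_AU]
  constructor
  · rintro ⟨h1, h2⟩
    exact ⟨h1, (D.FU_iff H h1.le).1 h2⟩
  · rintro ⟨h1, h2⟩
    exact ⟨h1, (D.FU_iff H h1.le).2 h2⟩

lemma aU_eq : aU i (up2 y p Y Q e) = aU i e := by
  classical
  unfold aU
  congr 1
  ext u
  rw [mem_filter, mem_filter]
  constructor
  · rintro ⟨h1, h2, h3⟩
    exact ⟨h1, h2, (D.FU_iff H h2.le).1 h3⟩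
  · rintro ⟨h1, h2, h3⟩
    exact ⟨h1, h2, (D.FU_iff H h2.le).2 h3⟩

lemma pU_eq : pU i (up2 y p Y Q e) = pU i e := by
  classical
  unfold pU
  congr 1
  ext u
  rw [mem_filter, mem_filter]
  constructor
  · rintro ⟨h1, h2, h3, h4⟩
    exact ⟨h1, h2, fun h => h3 ((D.FU_iff H h2.le).2 h), fun h => h4 ((D.GD_iff H h2).2 h)⟩
  · rintro ⟨h1, h2, h3, h4⟩
    exact ⟨h1, h2, fun h => h3 ((D.FU_iff H h2.le).1 h), fun h => h4 ((D.GD_iff H h2).1 h)⟩

lemma AdmL_iff : AdmL i (up2 y p Y Q e) ↔
    AdmL i e ∧ (Y < Q → ∀ v ∈ uc y, e v < Y) := by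
  have ly := D.ly
  constructor
  · intro h
    constructor
    · intro z hz
      by_cases z1 : z = y
      · subst z1
        exact fun h1 => D.FD0_y H h1.1
      · by_cases z2 : z = p
        · subst z2
          exact fun h1 => D.FD0_p H h1.1
        · have := h z hz
          rwa [D.FD_oth H hz z1 z2, D.GU_oth H z1 z2] at this
    · intro hYQ
      by_contra h1
      exact h y (by omega) ⟨(D.FD_y H).2 hYQ, (D.GU_y H).2 h1⟩
  · rintro ⟨h, h1⟩ z hz
    by_cases z1 : z = y
    · subst z1
      rw [D.FD_y H, D.GU_y H]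
      exact fun h2 => h2.2 (h1 h2.1)
    · by_cases z2 : z = p
      · subst z2
        exact fun h1 => D.FD_p H h1.1
      · rw [D.FD_oth H hz z1 z2, D.GU_oth H z1 z2]
        exact h z hz

open Classical in
lemma aL_eq : aL i (up2 y p Y Q e) = aL i e + (if Y < Q then 1 else 0) := by
  have ly := D.ly
  have h1 : univ.filter (fun z : P => i < lev z ∧ FD (up2 y p Y Q e) z) =
      univ.filter (fun z : P => i < lev z ∧ FD e z) ∪ (if Y < Q then {y} else ∅) := by
    ext z
    rw [mem_union, mem_filter, mem_filter]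
    have hu := mem_univ z
    by_cases z1 : z = y
    · subst z1
      rw [D.FD_y H]
      have h2 := D.FD0_y H
      have h3 : i < lev z := by omega
      by_cases h4 : Y < Q
      · rw [if_pos h4, mem_singleton]
        have hz0 : z = z := rfl
        tauto
      · rw [if_neg h4]
        have := notMem_empty z
        tauto
    · have h6 : z ∉ (if Y < Q then ({y} : Finset P) else ∅) := by
        split_ifs
        · rwa [mem_singleton]
        · exact notMem_empty z
      by_cases z2 : z = p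
      · subst z2
        have := D.FD_p H (Y := Y) (Q := Q)
        have := D.FD0_p H
        tauto
      · constructor
        · rintro ⟨h2, h3, h4⟩
          exact Or.inl ⟨h2, h3, (D.FD_oth H h3 z1 z2).1 h4⟩
        · rintro (⟨h2, h3, h4⟩ | h)
          · exact ⟨h2, h3, (D.FD_oth H h3 z1 z2).2 h4⟩
          · exact absurd h h6
  unfold aL
  rw [h1, card_union_of_disjoint]
  · congr 1
    split_ifs
    · exact card_singleton y
    · exact card_empty
  · rw [disjoint_left]
    intro z hz hz'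
    rw [mem_filter] at hz
    split_ifs at hz' with hk
    · rw [mem_singleton] at hz'
      subst hz'
      exact D.FD0_y H hz.2.2
    · exact notMem_empty z hz'

open Classical in
lemma pL_eq : pL i (up2 y p Y Q e) =
    pL i e + (if Y < Q ∨ ∀ v ∈ uc y, e v < Y then 1 else 0) := by
  have ly := D.ly
  have lp := D.lp H
  have hne := D.ne
  have h1 : univ.filter (fun z : P => i < lev z ∧ ¬ FD (up2 y p Y Q e) z ∧
      ¬ GU (up2 y p Y Q e) z) =
      univ.filter (fun z : P => i < lev z ∧ ¬ FD e z ∧ ¬ GU e z) ∪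
        (if Y < Q then {p} else if ∀ v ∈ uc y, e v < Y then {y} else ∅) := by
    ext z
    rw [mem_union, mem_filter, mem_filter]
    have hu := mem_univ z
    have he := notMem_empty z
    by_cases z1 : z = y
    · subst z1
      rw [D.FD_y H, D.GU_y H]
      have h2 := D.GU0_y H
      have h3 : i < lev z := by omega
      have hz0 : z = z := rfl
      by_cases h4 : Y < Q
      · rw [if_pos h4, mem_singleton]
        have := hne.symm
        tauto
      · rw [if_neg h4]
        by_cases h5 : ∀ v ∈ uc z, e v < Y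
        · rw [if_pos h5, mem_singleton]
          tauto
        · rw [if_neg h5]
          tauto
    · by_cases z2 : z = p
      · subst z2
        rw [D.GU_p H]
        have h2 := D.FD_p H (Y := Y) (Q := Q)
        have h3 := D.GU0_p H
        have h4 : i < lev z := by omega
        have hz0 : z = z := rfl
        by_cases h5 : Y < Q
        · rw [if_pos h5, mem_singleton]
          have : ¬ Q ≤ Y := by omega
          tauto
        · rw [if_neg h5]
          have : Q ≤ Y := by omega
          by_cases h6 : ∀ v ∈ uc y, e v < Y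
          · rw [if_pos h6, mem_singleton]
            tauto
          · rw [if_neg h6]
            tauto
      · have h6 : z ∉ (if Y < Q then ({p} : Finset P) else
            if ∀ v ∈ uc y, e v < Y then {y} else ∅) := by
          split_ifs
          · rwa [mem_singleton]
          · rwa [mem_singleton]
          · exact notMem_empty z
        constructor
        · rintro ⟨h2, h3, h4, h5⟩
          exact Or.inl ⟨h2, h3, fun h => h4 ((D.FD_oth H h3 z1 z2).2 h),
            fun h => h5 ((D.GU_oth H z1 z2).2 h)⟩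
        · rintro (⟨h2, h3, h4, h5⟩ | h)
          · exact ⟨h2, h3, fun h => h4 ((D.FD_oth H h3 z1 z2).1 h),
              fun h => h5 ((D.GU_oth H z1 z2).1 h)⟩
          · exact absurd h h6
  unfold pL
  rw [h1, card_union_of_disjoint]
  · congr 1
    by_cases h2 : Y < Q
    · rw [if_pos h2, if_pos (Or.inl h2), card_singleton]
    · rw [if_neg h2]
      by_cases h3 : ∀ v ∈ uc y, e v < Y
      · rw [if_pos h3, if_pos (Or.inr h3), card_singleton]
      · rw [if_neg h3, if_neg (by tauto), card_empty]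
  · rw [disjoint_left]
    intro z hz hz'
    rw [mem_filter] at hz
    split_ifs at hz' with hk hk2
    · rw [mem_singleton] at hz'
      subst hz'
      exact hz.2.2.2 (D.GU0_p H)
    · rw [mem_singleton] at hz'
      subst hz'
      exact hz.2.2.2 (D.GU0_y H)
    · exact notMem_empty z hz'

open Classical in
lemma AL_eq : AL i (up2 y p Y Q e) = AL i e ∪ (uc y).filter (fun v => e v < Y) := by
  ext v
  rw [mem_union, NormD_mem_AL, NormD_mem_AL, mem_filter]
  constructor
  · rintro ⟨h1, h2⟩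
    rcases (D.FD_site H h1).1 h2 with h | h
    · exact Or.inl ⟨h1, h⟩
    · exact Or.inr h
  · rintro (⟨h1, h2⟩ | h)
    · exact ⟨h1, (D.FD_site H h1).2 (Or.inl h2)⟩
    · have l1 := lev_uc H h.1
      have l2 := D.ly
      exact ⟨by omega, (D.FD_site H (by omega)).2 (Or.inr h)⟩

/-- THE FACTOR of a near element and its private child -/
theorem Fe_low (S : Finset P) : Fe i (up2 y p Y Q e) S = Fe i e S * phiL e y Y Q S := by
  classical
  have h1 : chi (AL i (up2 y p Y Q e)) (AU i (up2 y p Y Q e)) S =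
      chi (AL i e) (AU i e) S * (if ∀ v ∈ uc y, e v < Y → v ∈ S then 1 else 0) := by
    rw [D.AL_eq H, D.AU_eq H]
    unfold chi
    have h2 : (AL i e ∪ (uc y).filter (fun v => e v < Y) ⊆ S ∧ Disjoint (AU i e) S) ↔
        ((AL i e ⊆ S ∧ Disjoint (AU i e) S) ∧ ∀ v ∈ uc y, e v < Y → v ∈ S) := by
      rw [union_subset_iff]
      constructor
      · rintro ⟨⟨h3, h4⟩, h5⟩
        exact ⟨⟨h3, h5⟩, fun v hv hlt => h4 (mem_filter.2 ⟨hv, hlt⟩)⟩
      · rintro ⟨⟨h3, h5⟩, h4⟩
        refine ⟨⟨h3, fun v hv => ?_⟩, h5⟩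
        rw [mem_filter] at hv
        exact h4 v hv.1 hv.2
    by_cases h3 : AL i e ⊆ S ∧ Disjoint (AU i e) S
    · by_cases h4 : ∀ v ∈ uc y, e v < Y → v ∈ S
      · rw [if_pos h3, if_pos h4, if_pos (h2.2 ⟨h3, h4⟩), mul_one]
      · rw [if_neg h4, if_neg (fun h => h4 (h2.1 h).2), mul_zero]
    · rw [if_neg h3, if_neg (fun h => h3 (h2.1 h).1), zero_mul]
  have h2 : cw i (up2 y p Y Q e) = cw i e *
      (if ∀ v ∈ uc y, e v < Y then (if Y < Q then xx * dd else dd) else
        (if Y < Q then 0 else 1)) := by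
    unfold cw
    rw [D.aL_eq H, D.aU_eq H, D.pL_eq H, D.pU_eq H, D.AdmU_iff H, D.AdmL_iff H]
    by_cases h3 : ∀ v ∈ uc y, e v < Y
    · rw [if_pos (Or.inr h3), if_pos h3]
      by_cases h4 : Y < Q
      · rw [if_pos h4, if_pos h4]
        by_cases h5 : AdmL i e ∧ AdmU i e
        · rw [if_pos h5, if_pos ⟨⟨h5.1, fun _ => h3⟩, h5.2⟩]
          ring
        · rw [if_neg h5, if_neg (fun h => h5 ⟨h.1.1, h.2⟩), zero_mul]
      · rw [if_neg h4, if_neg h4]
        by_cases h5 : AdmL i e ∧ AdmU i e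
        · rw [if_pos h5, if_pos ⟨⟨h5.1, fun _ => h3⟩, h5.2⟩]
          ring
        · rw [if_neg h5, if_neg (fun h => h5 ⟨h.1.1, h.2⟩), zero_mul]
    · rw [if_neg h3]
      by_cases h4 : Y < Q
      · rw [if_pos h4, if_pos h4, if_neg (fun h => h3 (h.1.2 h4)), mul_zero]
      · have h6 : ¬ (Y < Q ∨ ∀ v ∈ uc y, e v < Y) := by tauto
        rw [if_neg h4, if_neg h4, if_neg h6]
        by_cases h5 : AdmL i e ∧ AdmU i e
        · rw [if_pos h5, if_pos ⟨⟨h5.1, fun h => absurd h h4⟩, h5.2⟩]
          ring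
        · rw [if_neg h5, if_neg (fun h => h5 ⟨h.1.1, h.2⟩), zero_mul]
  unfold Fe phiL
  rw [h1, h2]
  ring

end LowD

end Pool.Agent.GaussPoset.Win.So
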