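import Pool.Agent.W_448so_h17.RfB
import Pool.Agent.W_448so_h17.TgB

/-!
S9, row 476 (C): the reflection `(y, p) ↔ (u, p')`, `u = psi y`: structures `RefL`, `RefU`, the map
`rho`, the factors, and `phiL + phiU ∈ Rk V 0`.
-/

namespace Pool.Agent.GaussPoset.Win.So

set_option linter.unusedSectionVars false

open Finset

universe u

variable {P : Type u} [Fintype P] [PartialOrder P] [DecidableEq P] {r i : ℕ}

variable {e : P → ℕ} {y p u p' : P} {Y Q : ℕ}

/-! ### the sum of the two factors -/

/-- a two term function in `Rk V 0` -/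
lemma Rk_pair {V E : Finset P} {a b : A} (hE : E ⊆ V)
    (h2 : E.card = 2 → dd ∣ b ∧ dd ^ 2 ∣ a + b) (h1 : E.card = 1 → dd ∣ a - b)
    (h3 : E.card ≤ 2) : Rk V 0 (fun S => a * chi E ∅ S + b * chi ∅ E S) := by
  classical
  refine ⟨fun T => (if E ⊆ T ∧ T ⊆ E ∪ ∅ then a * (-1) ^ (T.card - E.card) else 0) +
    (if ∅ ⊆ T ∧ T ⊆ ∅ ∪ E then b * (-1) ^ (T.card - (∅ : Finset P).card) else 0), ?_, ?_⟩
  · intro T _
    simp only [union_empty, empty_union, empty_subset, true_and, card_empty, Nat.sub_zero]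
    by_cases hT : T ⊆ E
    · rw [if_pos hT]
      have hc := card_le_card hT
      by_cases hT2 : E ⊆ T
      · have hTE : T = E := subset_antisymm hT hT2
        subst hTE
        rw [if_pos ⟨subset_rfl, subset_rfl⟩, Nat.sub_self, pow_zero, mul_one]
        interval_cases hcard : T.card
        · simp
        · have := h1 rfl
          rw [pow_one, pow_one, mul_neg, mul_one, ← sub_eq_add_neg]
          exact this
        · have := (h2 rfl).2
          simpa using this
      · rw [if_neg (fun h => hT2 h.1), zero_add]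
        have hlt : T.card < E.card := by
          refine lt_of_le_of_ne hc fun h => hT2 ?_
          rw [eq_of_subset_of_card_le hT (by omega)]
        rcases Nat.eq_zero_or_pos T.card with h0 | h0
        · rw [h0]
          simp
        · have h4 : T.card = 1 := by omega
          rw [h4, pow_one]
          exact Dvd.dvd.mul_right (h2 (by omega)).1 _
    · rw [if_neg hT, if_neg (fun h => hT h.2), add_zero]
      exact dvd_zero _
  · intro S _
    rw [Finset.sum_add_distrib, RkC_sum (disjoint_empty_right E) S a,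
      RkC_sum (disjoint_empty_left E) S b]

lemma phiL_eq (e : P → ℕ) (y : P) (Y Q : ℕ) (S : Finset P) [DecidablePred fun v => e v < Y] :
    phiL e y Y Q S =
      (if ∀ v ∈ uc y, e v < Y then (if Y < Q then xx * dd else dd) else
        (if Y < Q then 0 else 1)) * chi ((uc y).filter (fun v => e v < Y)) ∅ S := by
  classical
  unfold phiL chi
  congr 1
  · congr 1
  have h : (((uc y).filter (fun v => e v < Y)) ⊆ S ∧ Disjoint ∅ S) ↔
      (∀ v ∈ uc y, e v < Y → v ∈ S) := by
    constructor
    · rintro ⟨h1, -⟩ v hv hlt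
      exact h1 (mem_filter.2 ⟨hv, hlt⟩)
    · intro h1
      refine ⟨fun v hv => ?_, disjoint_empty_left _⟩
      rw [mem_filter] at hv
      exact h1 v hv.1 hv.2
  by_cases h1 : ∀ v ∈ uc y, e v < Y → v ∈ S
  · rw [if_pos h1, if_pos (h.2 h1)]
  · rw [if_neg h1, if_neg (fun h2 => h1 (h.1 h2))]

lemma phiU_eq (e : P → ℕ) (y : P) (Y Q : ℕ) (S : Finset P) [DecidablePred fun v => e v < Y] :
    phiU e y Y Q S =
      (if ∀ v ∈ dc y, e v < Y then (if Y < Q then xi ^ 2 * dd else xi * dd) else
        (if Y < Q then 0 else 1)) * chi ∅ ((dc y).filter (fun v => e v < Y)) S := by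
  classical
  unfold phiU chi
  congr 1
  · congr 1
  have h : (∅ ⊆ S ∧ Disjoint ((dc y).filter (fun v => e v < Y)) S) ↔
      (∀ v ∈ dc y, e v < Y → v ∉ S) := by
    constructor
    · rintro ⟨-, h1⟩ v hv hlt
      exact disjoint_left.1 h1 (mem_filter.2 ⟨hv, hlt⟩)
    · intro h1
      refine ⟨empty_subset _, disjoint_left.2 fun v hv => ?_⟩
      rw [mem_filter] at hv
      exact h1 v hv.1 hv.2
  by_cases h1 : ∀ v ∈ dc y, e v < Y → v ∉ S
  · rw [if_pos h1, if_pos (h.2 h1)]
  · rw [if_neg h1, if_neg (fun h2 => h1 (h.1 h2))]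

/-- THE SUM OF THE FACTORS of the two mirror images has no deficit -/
theorem Rk_phi {V : Finset P} (hV : uc y ⊆ V) (h2 : (uc y).card = 2) (hu : dc u = uc y) :
    Rk V 0 (fun S => phiL e y Y Q S + phiU e u Y Q S) := by
  classical
  have h3 : ∀ S, phiL e y Y Q S + phiU e u Y Q S =
      (if ∀ v ∈ uc y, e v < Y then (if Y < Q then xx * dd else dd) else
        (if Y < Q then 0 else 1)) * chi ((uc y).filter (fun v => e v < Y)) ∅ S +
      (if ∀ v ∈ uc y, e v < Y then (if Y < Q then xi ^ 2 * dd else xi * dd) else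
        (if Y < Q then 0 else 1)) * chi ∅ ((uc y).filter (fun v => e v < Y)) S := by
    intro S
    rw [phiL_eq, phiU_eq, hu]
  refine Rk_congr (fun S _ => (h3 S).symm) ?_
  have hd : (1 : A) + xi = dd * xi := I2.one_add_xi
  have hle : ((uc y).filter (fun v => e v < Y)).card ≤ 2 := by
    rw [← h2]
    exact card_le_card (filter_subset _ _)
  have hall : ((uc y).filter (fun v => e v < Y)).card = 2 ↔ ∀ v ∈ uc y, e v < Y := by
    constructor
    · intro h v hv
      have h4 := eq_of_subset_of_card_le (filter_subset (fun v => e v < Y) (uc y)) (by omega)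
      rw [← h4, mem_filter] at hv
      exact hv.2
    · intro h
      rw [filter_true_of_mem h, h2]
  refine Rk_pair ((filter_subset _ _).trans hV) (fun hc => ?_) (fun hc => ?_) hle
  · have h4 := hall.1 hc
    rw [if_pos h4, if_pos h4]
    by_cases h5 : Y < Q
    · rw [if_pos h5, if_pos h5]
      refine ⟨Dvd.intro_left _ rfl, ?_⟩
      have h6 : xx * dd + xi ^ 2 * dd = dd * (xi ^ 2 * (1 + xx ^ 3)) := by
        have h7 : xx * xi = 1 := xx_mul_xi
        linear_combination (-(xx * dd) * (xx * xi + 1)) * h7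
      rw [h6, pow_two]
      exact mul_dvd_mul_left _ (Dvd.dvd.mul_left (dd_dvd_xx (Or.inr rfl)) _)
    · rw [if_neg h5, if_neg h5]
      refine ⟨Dvd.intro_left _ rfl, ?_⟩
      have h6 : dd + xi * dd = dd ^ 2 * xi := by
        linear_combination dd * hd
      rw [h6]
      exact Dvd.intro _ rfl
  · have h4 : ¬ ∀ v ∈ uc y, e v < Y := fun h => by
      have := hall.2 h
      omega
    rw [if_neg h4, if_neg h4, sub_self]
    exact dvd_zero _

/-! ### the reflection -/

/-- the static data of a reflection -/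
structure RefD (r i : ℕ) (y p u p' : P) : Prop where
  ly : lev y = i + 1
  lu : lev u + 1 = i
  lr : lev u < r
  cp : uc p = {y}
  dp : dc p' = {u}
  yu : dc u = uc y
  two : (uc y).card = 2

/-- the pair `(y, p)` is excited and nothing else touches `y`, `p`, `u`, `p'` -/
structure RefL (e : P → ℕ) (y p u p' : P) : Prop where
  hy : 1 ≤ e y
  hp : 1 ≤ e p
  eu : e u = 0
  ch : ∀ z, z ⋖ y → z ≠ p → e z = 0
  chp : ∀ z, z ⋖ p → e z = 0
  ab : ∀ q, u ⋖ q → e q = 0
  abp : ∀ q, p' ⋖ q → e q = 0

/-- the pair `(u, p')` is excited and nothing else touches `y`, `p`, `u`, `p'` -/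
structure RefU (e : P → ℕ) (y p u p' : P) : Prop where
  hu : 1 ≤ e u
  hp : 1 ≤ e p'
  ey : e y = 0
  ab : ∀ q, u ⋖ q → q ≠ p' → e q = 0
  abp : ∀ q, p' ⋖ q → e q = 0
  ch : ∀ z, z ⋖ y → e z = 0
  chp : ∀ z, z ⋖ p → e z = 0

/-- the reflected configuration -/
def rho (y p u p' : P) (e : P → ℕ) : P → ℕ := fun z =>
  if z = y then e u else if z = p then e p' else if z = u then e y else if z = p' then e p else e z

namespace RefD

variable (H : Gr P r) (D : RefD r i y p u p')

include D

lemma py : p ⋖ y := mem_uc.1 (by rw [D.cp]; exact mem_singleton_self y)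

lemma up : u ⋖ p' := mem_dc.1 (by rw [D.dp]; exact mem_singleton_self u)

include H

lemma lp : lev p = i + 2 := by
  have h1 := lev_uc H (mem_uc.2 D.py)
  have := D.ly
  omega

lemma lp' : lev p' + 2 = i := by
  have h1 := lev_uc H (mem_uc.2 D.up)
  have := D.lu
  omega

lemma nes : y ≠ p ∧ y ≠ u ∧ y ≠ p' ∧ p ≠ u ∧ p ≠ p' ∧ u ≠ p' := by
  have h1 := D.ly
  have h2 := D.lp H
  have h3 := D.lu
  have h4 := D.lp' H
  refine ⟨?_, ?_, ?_, ?_, ?_, ?_⟩ <;> rintro rfl <;> omega

lemma rho_y (e : P → ℕ) : rho y p u p' e y = e u := by unfold rho; rw [if_pos rfl]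

lemma rho_p (e : P → ℕ) : rho y p u p' e p = e p' := by
  obtain ⟨h1, h2, h3, h4, h5, h6⟩ := D.nes H
  unfold rho; rw [if_neg h1.symm, if_pos rfl]

lemma rho_u (e : P → ℕ) : rho y p u p' e u = e y := by
  obtain ⟨h1, h2, h3, h4, h5, h6⟩ := D.nes H
  unfold rho; rw [if_neg h2.symm, if_neg h4.symm, if_pos rfl]

lemma rho_p' (e : P → ℕ) : rho y p u p' e p' = e p := by
  obtain ⟨h1, h2, h3, h4, h5, h6⟩ := D.nes H
  unfold rho; rw [if_neg h3.symm, if_neg h5.symm, if_neg h6.symm, if_pos rfl]

omit H D in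
lemma rho_ne {z : P} (e : P → ℕ) (h1 : z ≠ y) (h2 : z ≠ p) (h3 : z ≠ u) (h4 : z ≠ p') :
    rho y p u p' e z = e z := by
  unfold rho; rw [if_neg h1, if_neg h2, if_neg h3, if_neg h4]

lemma rho_rho (e : P → ℕ) : rho y p u p' (rho y p u p' e) = e := by
  funext z
  by_cases h1 : z = y
  · subst h1; rw [D.rho_y H, D.rho_u H]
  · by_cases h2 : z = p
    · subst h2; rw [D.rho_p H, D.rho_p' H]
    · by_cases h3 : z = u
      · subst h3; rw [D.rho_u H, D.rho_y H]
      · by_cases h4 : z = p'
        · subst h4; rw [D.rho_p' H, D.rho_p H]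
        · rw [rho_ne _ h1 h2 h3 h4, rho_ne _ h1 h2 h3 h4]

lemma rho_sum (e : P → ℕ) : ∑ z, rho y p u p' e z = ∑ z, e z := by
  obtain ⟨h1, h2, h3, h4, h5, h6⟩ := D.nes H
  have h : ∀ g : P → ℕ, ∑ z, g z = g y + (g p + (g u + (g p' +
      ∑ z ∈ (((univ.erase y).erase p).erase u).erase p', g z))) := by
    intro g
    rw [Finset.add_sum_erase _ _ (by simp only [mem_erase, mem_univ, and_true]; tauto),
      Finset.add_sum_erase _ _ (by simp only [mem_erase, mem_univ, and_true]; tauto),
      Finset.add_sum_erase _ _ (by simp only [mem_erase, mem_univ, and_true]; tauto),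
      Finset.add_sum_erase _ _ (mem_univ y)]
  rw [h, h e, D.rho_y H, D.rho_p H, D.rho_u H, D.rho_p' H]
  have h7 : ∑ z ∈ (((univ.erase y).erase p).erase u).erase p', rho y p u p' e z =
      ∑ z ∈ (((univ.erase y).erase p).erase u).erase p', e z := by
    refine Finset.sum_congr rfl fun z hz => ?_
    simp only [mem_erase, mem_univ, and_true] at hz
    exact rho_ne e hz.2.2.2 hz.2.2.1 hz.2.1 hz.1
  rw [h7]
  omega

/-- the reflection maps `RefL` to `RefU` -/
theorem LU (R : RefL e y p u p') : RefU (rho y p u p' e) y p u p' := by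
  obtain ⟨h1, h2, h3, h4, h5, h6⟩ := D.nes H
  have ly := D.ly
  have lp := D.lp H
  have lu := D.lu
  have lp' := D.lp' H
  refine ⟨by rw [D.rho_u H]; exact R.hy, by rw [D.rho_p' H]; exact R.hp,
    by rw [D.rho_y H]; exact R.eu, ?_, ?_, ?_, ?_⟩
  · intro q hq hq2
    have l1 := lev_uc H (mem_uc.2 hq)
    rw [rho_ne e (by rintro rfl; omega) (by rintro rfl; omega) (by rintro rfl; omega) hq2]
    exact R.ab q hq
  · intro q hq
    have l1 := lev_uc H (mem_uc.2 hq)
    rw [rho_ne e (by rintro rfl; omega) (by rintro rfl; omega) (by rintro rfl; omega)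
      (by rintro rfl; omega)]
    exact R.abp q hq
  · intro z hz
    have l1 := lev_uc H (mem_uc.2 hz)
    by_cases h : z = p
    · rw [h, D.rho_p H]
      exact R.ab p' D.up
    · rw [rho_ne e (by rintro rfl; omega) h (by rintro rfl; omega) (by rintro rfl; omega)]
      exact R.ch z hz h
  · intro z hz
    have l1 := lev_uc H (mem_uc.2 hz)
    rw [rho_ne e (by rintro rfl; omega) (by rintro rfl; omega) (by rintro rfl; omega)
      (by rintro rfl; omega)]
    exact R.chp z hz

/-- the reflection maps `RefU` to `RefL` -/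
theorem UL (R : RefU e y p u p') : RefL (rho y p u p' e) y p u p' := by
  obtain ⟨h1, h2, h3, h4, h5, h6⟩ := D.nes H
  have ly := D.ly
  have lp := D.lp H
  have lu := D.lu
  have lp' := D.lp' H
  refine ⟨by rw [D.rho_y H]; exact R.hu, by rw [D.rho_p H]; exact R.hp,
    by rw [D.rho_u H]; exact R.ey, ?_, ?_, ?_, ?_⟩
  · intro z hz hz2
    have l1 := lev_uc H (mem_uc.2 hz)
    rw [rho_ne e (by rintro rfl; omega) hz2 (by rintro rfl; omega) (by rintro rfl; omega)]
    exact R.ch z hz
  · intro z hz
    have l1 := lev_uc H (mem_uc.2 hz)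
    rw [rho_ne e (by rintro rfl; omega) (by rintro rfl; omega) (by rintro rfl; omega)
      (by rintro rfl; omega)]
    exact R.chp z hz
  · intro q hq
    have l1 := lev_uc H (mem_uc.2 hq)
    by_cases h : q = p'
    · rw [h, D.rho_p' H]
      exact R.ch p D.py
    · rw [rho_ne e (by rintro rfl; omega) (by rintro rfl; omega) (by rintro rfl; omega) h]
      exact R.ab q hq h
  · intro q hq
    have l1 := lev_uc H (mem_uc.2 hq)
    rw [rho_ne e (by rintro rfl; omega) (by rintro rfl; omega) (by rintro rfl; omega)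
      (by rintro rfl; omega)]
    exact R.abp q hq

end RefD

/-- the reduced configuration: all four labels zero -/
def red (y p : P) (e : P → ℕ) : P → ℕ := up2 y p 0 0 e

namespace RefL

variable (H : Gr P r) (D : RefD r i y p u p') (R : RefL e y p u p')

include H D R

lemma low : LowD i (red y p e) y p := by
  have hne := D.py.lt.ne
  refine ⟨D.ly, D.cp, ?_, ?_, ?_, ?_⟩
  · unfold red; rw [up2_y]
  · unfold red; rw [up2_p hne]
  · intro z hz
    unfold red
    by_cases h : z = p
    · rw [h, up2_p hne]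
    · rw [up2_ne hz.lt.ne h]
      exact R.ch z hz h
  · intro z hz
    unfold red
    rw [up2_ne (hz.lt.trans D.py.lt).ne hz.lt.ne]
    exact R.chp z hz

lemma upp : UpD r i (red y p e) u p' := by
  obtain ⟨h1, h2, h3, h4, h5, h6⟩ := D.nes H
  have ly := D.ly
  have lp := D.lp H
  have lu := D.lu
  have lp' := D.lp' H
  refine ⟨D.lu, D.lr, D.dp, ?_, ?_, ?_, ?_⟩
  · unfold red; rw [up2_ne h2.symm h4.symm]; exact R.eu
  · unfold red; rw [up2_ne h3.symm h5.symm]; exact R.ab p' D.up
  · intro z hz
    have l1 := lev_uc H (mem_uc.2 hz)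
    unfold red
    rw [up2_ne (by rintro rfl; omega) (by rintro rfl; omega)]
    exact R.ab z hz
  · intro z hz
    have l1 := lev_uc H (mem_uc.2 hz)
    unfold red
    rw [up2_ne (by rintro rfl; omega) (by rintro rfl; omega)]
    exact R.abp z hz

/-- the factor of the excited pair `(y, p)` -/
theorem Fe_eq (S : Finset P) :
    Fe i e S = Fe i (red y p e) S * phiL (red y p e) y (e y) (e p) S := by
  have h1 := (R.low H D).Fe_low H (Y := e y) (Q := e p) S
  have h2 : up2 y p (e y) (e p) (red y p e) = e := by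
    funext z
    by_cases h3 : z = y
    · rw [h3, up2_y]
    · by_cases h4 : z = p
      · rw [h4, up2_p D.py.lt.ne]
      · rw [up2_ne h3 h4]
        unfold red
        rw [up2_ne h3 h4]
  rw [h2] at h1
  exact h1

/-- the factor of the mirror image -/
theorem Fe_rho (S : Finset P) :
    Fe i (rho y p u p' e) S = Fe i (red y p e) S * phiU (red y p e) u (e y) (e p) S := by
  have h1 := (R.upp H D).Fe_upp H (Y := e y) (Q := e p) S
  have h2 : up2 u p' (e y) (e p) (red y p e) = rho y p u p' e := by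
    obtain ⟨n1, n2, n3, n4, n5, n6⟩ := D.nes H
    funext z
    by_cases z1 : z = y
    · rw [z1, D.rho_y H, up2_ne n2 n3]
      unfold red
      rw [up2_y, R.eu]
    · by_cases z2 : z = p
      · rw [z2, D.rho_p H, up2_ne n4 n5]
        unfold red
        rw [up2_p n1.symm, R.ab p' D.up]
      · by_cases z3 : z = u
        · rw [z3, D.rho_u H, up2_y]
        · by_cases z4 : z = p'
          · rw [z4, D.rho_p' H, up2_p n6.symm]
          · rw [RefD.rho_ne e z1 z2 z3 z4, up2_ne z3 z4]
            unfold red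
            rw [up2_ne z1 z2]
  rw [h2] at h1
  exact h1

/-- the sum of the two functions is the reduced function times a function without deficit -/
theorem pair_eq (S : Finset P) :
    Fe i e S + Fe i (rho y p u p' e) S = Fe i (red y p e) S *
      (phiL (red y p e) y (e y) (e p) S + phiU (red y p e) u (e y) (e p) S) := by
  rw [R.Fe_eq H D, R.Fe_rho H D]
  ring

theorem pair_Rk {V : Finset P} (hV : uc y ⊆ V) :
    Rk V 0 (fun S => phiL (red y p e) y (e y) (e p) S + phiU (red y p e) u (e y) (e p) S) :=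
  Rk_phi hV D.two D.yu

omit R in
/-- admissibility gives the upper conditions -/
theorem mk' (hir : i ≤ r) (hA : AdmL i e) (hB : AdmU i e) (hp : 1 ≤ e p) (eu : e u = 0)
    (ch : ∀ z, z ⋖ y → z ≠ p → e z = 0) (chp : ∀ z, z ⋖ p → e z = 0) : RefL e y p u p' := by
  have lp := D.lp H
  have lp' := D.lp' H
  have lu := D.lu
  have ab : ∀ q, u ⋖ q → e q = 0 := by
    intro q hq
    have l1 := lev_uc H (mem_uc.2 hq)
    by_contra h
    have := pos_dn H hir hB (by omega) (by omega : 0 < e q) hq
    omega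
  refine ⟨pos_up H hA (by omega) hp D.py, hp, eu, ch, chp, ab, ?_⟩
  intro q hq
  have l1 := lev_uc H (mem_uc.2 hq)
  have h0 := ab p' D.up
  by_contra h
  have := pos_dn H hir hB (by omega) (by omega : 0 < e q) hq
  omega

end RefL

/-- admissibility gives the lower conditions -/
theorem RefU.mk' (H : Gr P r) (D : RefD r i y p u p') (hir : i ≤ r) (hA : AdmL i e)
    (hB : AdmU i e) (hp : 1 ≤ e p') (ey : e y = 0) (ab : ∀ q, u ⋖ q → q ≠ p' → e q = 0)
    (abp : ∀ q, p' ⋖ q → e q = 0) : RefU e y p u p' := by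
  have lp := D.lp H
  have lp' := D.lp' H
  have ly := D.ly
  have ch : ∀ z, z ⋖ y → e z = 0 := by
    intro z hz
    have l1 := lev_uc H (mem_uc.2 hz)
    by_contra h
    have := pos_up H hA (by omega) (by omega : 0 < e z) hz
    omega
  refine ⟨pos_dn H hir hB (by omega) hp D.up, hp, ey, ab, abp, ch, ?_⟩
  intro z hz
  have l1 := lev_uc H (mem_uc.2 hz)
  have h0 := ch p D.py
  by_contra h
  have := pos_up H hA (by omega) (by omega : 0 < e z) hz
  omega

end Pool.Agent.GaussPoset.Win.So
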