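import Pool.Agent.W_448so_h17.RfC

/-!
S9, row 476: the touched elements, the free near elements (`Rst`), the cores and the weights `wt`
are invariant under the toggle and under the reflection.
-/

namespace Pool.Agent.GaussPoset.Win.So

set_option linter.unusedSectionVars false

open Finset

universe u

variable {P : Type u} [Fintype P] [PartialOrder P] [DecidableEq P] {r i : ℕ}

variable {e f : P → ℕ} {psi : P → P}

/-! ### weights -/

/-- the weights depend on the labels of the sites only -/
lemma wt_congr (H : Gr P r) (h : ∀ v, lev v = i → e v = f v) {x : P} (hx : x ∈ near P i) (a : ℕ)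
    (S : Finset P) : wt i e x a S = wt i f x a S := by
  unfold wt
  rcases mem_near.1 hx with h1 | h1
  · rw [if_pos h1, if_pos h1]
    unfold wtL
    have key : ∀ v ∈ uc x, e v = f v := by
      intro v hv
      have := lev_uc H hv
      exact h v (by omega)
    have k1 : (∀ v ∈ uc x, e v < a) ↔ ∀ v ∈ uc x, f v < a :=
      forall₂_congr fun v hv => by rw [key v hv]
    have k2 : (∀ v ∈ uc x, e v < a → v ∈ S) ↔ ∀ v ∈ uc x, f v < a → v ∈ S :=
      forall₂_congr fun v hv => by rw [key v hv]
    simp only [k1, k2]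
  · have h2 : ¬ lev x = i + 1 := by omega
    rw [if_neg h2, if_neg h2]
    unfold wtU
    have key : ∀ v ∈ dc x, e v = f v := by
      intro v hv
      have := lev_dc H hv
      exact h v (by omega)
    have k1 : (∀ v ∈ dc x, e v < a) ↔ ∀ v ∈ dc x, f v < a :=
      forall₂_congr fun v hv => by rw [key v hv]
    have k2 : (∀ v ∈ dc x, e v < a → v ∉ S) ↔ ∀ v ∈ dc x, f v < a → v ∉ S :=
      forall₂_congr fun v hv => by rw [key v hv]
    simp only [k1, k2]

/-- `x` is near and has nothing to do with the site `s` -/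
def Far (s x : P) : Prop := s ∉ uc x ∧ s ∉ dc x

/-- the weights of elements which are not adjacent to `s` do not see the label of `s` -/
lemma wt_congr_far (H : Gr P r) {s : P} (h : ∀ v, lev v = i → v ≠ s → e v = f v) {x : P}
    (hx : x ∈ near P i) (hf : Far s x) (a : ℕ)
    (S : Finset P) : wt i e x a S = wt i f x a S := by
  unfold wt
  rcases mem_near.1 hx with h1 | h1
  · rw [if_pos h1, if_pos h1]
    unfold wtL
    have key : ∀ v ∈ uc x, e v = f v := by
      intro v hv
      have := lev_uc H hv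
      exact h v (by omega) (by rintro rfl; exact hf.1 hv)
    have k1 : (∀ v ∈ uc x, e v < a) ↔ ∀ v ∈ uc x, f v < a :=
      forall₂_congr fun v hv => by rw [key v hv]
    have k2 : (∀ v ∈ uc x, e v < a → v ∈ S) ↔ ∀ v ∈ uc x, f v < a → v ∈ S :=
      forall₂_congr fun v hv => by rw [key v hv]
    simp only [k1, k2]
  · have h2 : ¬ lev x = i + 1 := by omega
    rw [if_neg h2, if_neg h2]
    unfold wtU
    have key : ∀ v ∈ dc x, e v = f v := by
      intro v hv
      have := lev_dc H hv
      exact h v (by omega) (by rintro rfl; exact hf.2 hv)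
    have k1 : (∀ v ∈ dc x, e v < a) ↔ ∀ v ∈ dc x, f v < a :=
      forall₂_congr fun v hv => by rw [key v hv]
    have k2 : (∀ v ∈ dc x, e v < a → v ∉ S) ↔ ∀ v ∈ dc x, f v < a → v ∉ S :=
      forall₂_congr fun v hv => by rw [key v hv]
    simp only [k1, k2]

/-- the weights of elements which are not adjacent to `s` do not see `s` -/
lemma wt_insert {s x : P} (hf : Far s x) (a : ℕ) (S : Finset P) :
    wt i e x a (insert s S) = wt i e x a S := by
  unfold wt
  split_ifs
  · unfold wtL
    have k2 : (∀ v ∈ uc x, e v < a → v ∈ insert s S) ↔ ∀ v ∈ uc x, e v < a → v ∈ S :=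
      forall₂_congr fun v hv => by
        rw [mem_insert]
        have : v ≠ s := by rintro rfl; exact hf.1 hv
        tauto
    simp only [k2]
  · unfold wtU
    have k2 : (∀ v ∈ dc x, e v < a → v ∉ insert s S) ↔ ∀ v ∈ dc x, e v < a → v ∉ S :=
      forall₂_congr fun v hv => by
        rw [mem_insert]
        have : v ≠ s := by rintro rfl; exact hf.2 hv
        tauto
    simp only [k2]

/-! ### touched elements under the toggle -/

section toggle

variable {w x x' a s c : P}

lemma TogL.Tch_eq (H : Gr P r) (T : TogL i e w x x' a s c) :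
    Tch i (So.tg w s e) = Tch i e := by
  ext z
  rw [mem_Tch, mem_Tch]
  have hw := T.hw
  have lw := T.lw
  have ls := T.ls H
  have key : ∀ z', (lev z' = i + 2 ∨ lev z' + 2 = i) → (0 < So.tg w s e z' ↔ 0 < e z') := by
    intro z' hz'
    by_cases h : z' = w
    · rw [h, tg_w]
      omega
    · rw [tg_ne h (by rintro rfl; omega)]
  constructor
  · rintro (⟨h1, z', h2, h3⟩ | ⟨h1, z', h2, h3⟩)
    · have l1 := lev_uc H (mem_uc.2 h2)
      exact Or.inl ⟨h1, z', h2, (key z' (by omega)).1 h3⟩
    · have l1 := lev_uc H (mem_uc.2 h2)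
      exact Or.inr ⟨h1, z', h2, (key z' (by omega)).1 h3⟩
  · rintro (⟨h1, z', h2, h3⟩ | ⟨h1, z', h2, h3⟩)
    · have l1 := lev_uc H (mem_uc.2 h2)
      exact Or.inl ⟨h1, z', h2, (key z' (by omega)).2 h3⟩
    · have l1 := lev_uc H (mem_uc.2 h2)
      exact Or.inr ⟨h1, z', h2, (key z' (by omega)).2 h3⟩

lemma TogL.Rst_eq (H : Gr P r) (T : TogL i e w x x' a s c) (K : Finset P) :
    Rst i K psi (So.tg w s e) = Rst i K psi e := by
  unfold Rst
  rw [T.Tch_eq H]

lemma TogL.core_iff (H : Gr P r) (T : TogL i e w x x' a s c) (K : Finset P) :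
    IsCore i K psi (So.tg w s e) ↔ IsCore i K psi e := by
  unfold IsCore
  rw [T.Rst_eq H]
  refine forall₂_congr fun z hz => ?_
  have h1 := (mem_Rst.1 hz).1
  rw [T.ne H]
  · rcases mem_near.1 h1 with h | h <;> omega
  · rcases mem_near.1 h1 with h | h <;> omega

/-- the free near elements are not adjacent to the toggled site -/
lemma TogL.far (H : Gr P r) (T : TogL i e w x x' a s c) (hM : Mat P i ∅ psi) {z : P}
    (hz : z ∈ Rst i ∅ psi e) : Far s z := by
  have lx := T.lx H
  have lx' := T.lx' H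
  have ls := T.ls H
  have hw := T.hw
  have tx : x ∈ Tch i e := mem_Tch.2 (Or.inl ⟨lx, w, T.wx, by omega⟩)
  have tx' : x' ∈ Tch i e := mem_Tch.2 (Or.inl ⟨lx', w, T.wx', by omega⟩)
  obtain ⟨z1, z2, z3, z4⟩ := mem_Rst.1 hz
  constructor
  · intro h
    have h1 : z ∈ dc s := mem_dc.2 (mem_uc.1 h)
    rw [T.ds, mem_insert, mem_singleton] at h1
    rcases h1 with rfl | rfl
    · exact z3 tx
    · exact z3 tx'
  · intro h
    have h1 : z ∈ uc s := mem_uc.2 (mem_dc.1 h)
    have dx : x ∈ dbL P i := mem_dbL.2 ⟨lx, by rw [T.ux, card_pair T.as]⟩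
    have dx' : x' ∈ dbL P i := mem_dbL.2 ⟨lx', by rw [T.ux', card_pair T.sc]⟩
    obtain ⟨m1, m2⟩ := hM.low x dx (notMem_empty x)
    obtain ⟨m1', m2'⟩ := hM.low x' dx' (notMem_empty x')
    have hne : psi x ≠ psi x' := by
      intro hp
      rw [← hp, m2] at m2'
      have : a ∈ uc x' := by
        rw [← m2', T.ux]
        exact mem_insert_self _ _
      have hx'a : x' ⋖ a := mem_uc.1 this
      rw [T.ux', mem_insert, mem_singleton] at this
      rcases this with h2 | h2
      · exact T.as h2
      · -- two elements with the same covers `a, s`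
        have h3 : c ∈ uc x := by rw [← h2, T.ux]; exact mem_insert_self _ _
        have h4 := (hM.invol x (mem_union_left _ dx) (notMem_empty x)).1
        have h5 := (hM.invol x' (mem_union_left _ dx') (notMem_empty x')).1
        rw [← hp, h4] at h5
        exact T.xx' h5
    have us : uc s = {psi x, psi x'} := by
      symm
      apply Finset.eq_of_subset_of_card_le
      · intro q hq
        rw [mem_insert, mem_singleton] at hq
        rcases hq with rfl | rfl
        · refine mem_uc.2 (mem_dc.1 ?_)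
          rw [m2, T.ux]
          exact mem_insert_of_mem (mem_singleton_self s)
        · refine mem_uc.2 (mem_dc.1 ?_)
          rw [m2', T.ux']
          exact mem_insert_self _ _
      · rw [card_pair hne]
        exact uc_card_le H s
    rw [us, mem_insert, mem_singleton] at h1
    apply z4
    rcases h1 with rfl | rfl
    · exact ⟨mem_union_right _ m1, by
        rw [(hM.invol x (mem_union_left _ dx) (notMem_empty x)).1]; exact tx⟩
    · exact ⟨mem_union_right _ m1', by
        rw [(hM.invol x' (mem_union_left _ dx') (notMem_empty x')).1]; exact tx'⟩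

end toggle

/-! ### touched elements under the reflection -/

section reflection

variable {y p u p' : P}

lemma RefL.mem_Tch_iff (H : Gr P r) (D : RefD r i y p u p') (R : RefL e y p u p') {z : P}
    (h1 : z ≠ y) (h2 : z ≠ u) : z ∈ Tch i (rho y p u p' e) ↔ z ∈ Tch i e := by
  rw [mem_Tch, mem_Tch]
  have ly := D.ly
  have lp := D.lp H
  have lu := D.lu
  have lp' := D.lp' H
  have k1 : lev z = i + 1 → ∀ z', z' ⋖ z → rho y p u p' e z' = e z' := by
    intro hz z' hz'
    have l1 := lev_uc H (mem_uc.2 hz')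
    refine RefD.rho_ne e (by rintro rfl; omega) ?_ (by rintro rfl; omega) (by rintro rfl; omega)
    rintro rfl
    have h3 := mem_uc.2 hz'
    rw [D.cp, mem_singleton] at h3
    exact h1 h3
  have k2 : lev z + 1 = i → ∀ z', z ⋖ z' → rho y p u p' e z' = e z' := by
    intro hz z' hz'
    have l1 := lev_uc H (mem_uc.2 hz')
    refine RefD.rho_ne e (by rintro rfl; omega) (by rintro rfl; omega) (by rintro rfl; omega) ?_
    rintro rfl
    have h3 := mem_dc.2 hz'
    rw [D.dp, mem_singleton] at h3
    exact h2 h3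
  constructor
  · rintro (⟨h3, z', h4, h5⟩ | ⟨h3, z', h4, h5⟩)
    · rw [k1 h3 z' h4] at h5
      exact Or.inl ⟨h3, z', h4, h5⟩
    · rw [k2 h3 z' h4] at h5
      exact Or.inr ⟨h3, z', h4, h5⟩
  · rintro (⟨h3, z', h4, h5⟩ | ⟨h3, z', h4, h5⟩)
    · exact Or.inl ⟨h3, z', h4, by rw [k1 h3 z' h4]; exact h5⟩
    · exact Or.inr ⟨h3, z', h4, by rw [k2 h3 z' h4]; exact h5⟩

lemma RefL.y_Tch (D : RefD r i y p u p') (R : RefL e y p u p') : y ∈ Tch i e :=
  mem_Tch.2 (Or.inl ⟨D.ly, p, D.py, by have := R.hp; omega⟩)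

lemma RefU.u_Tch (D : RefD r i y p u p') (R : RefU e y p u p') : u ∈ Tch i e :=
  mem_Tch.2 (Or.inr ⟨D.lu, p', D.up, by have := R.hp; omega⟩)

lemma RefD.dy (D : RefD r i y p u p') : y ∈ dbL P i := mem_dbL.2 ⟨D.ly, D.two⟩

lemma RefD.du (D : RefD r i y p u p') : u ∈ dbU P i := mem_dbU.2 ⟨D.lu, by rw [D.yu]; exact D.two⟩

/-- `psi y = u` gives `psi u = y` -/
lemma RefD.psi_u (D : RefD r i y p u p') (hM : Mat P i ∅ psi) (hp : psi y = u) : psi u = y := by
  have := (hM.invol y (mem_union_left _ D.dy) (notMem_empty y)).1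
  rwa [hp] at this

lemma RefL.y_Rst (D : RefD r i y p u p') (R : RefL e y p u p')
    (hM : Mat P i ∅ psi) (hp : psi y = u) : y ∉ Rst i ∅ psi e ∧ u ∉ Rst i ∅ psi e := by
  constructor
  · intro h
    exact (mem_Rst.1 h).2.2.1 (R.y_Tch D)
  · intro h
    apply (mem_Rst.1 h).2.2.2
    refine ⟨mem_union_right _ D.du, ?_⟩
    rw [D.psi_u hM hp]
    exact R.y_Tch D

lemma RefU.y_Rst (D : RefD r i y p u p') (R : RefU e y p u p')
    (hp : psi y = u) : y ∉ Rst i ∅ psi e ∧ u ∉ Rst i ∅ psi e := by
  constructor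
  · intro h
    apply (mem_Rst.1 h).2.2.2
    refine ⟨mem_union_left _ D.dy, ?_⟩
    rw [hp]
    exact R.u_Tch D
  · intro h
    exact (mem_Rst.1 h).2.2.1 (R.u_Tch D)

lemma RefL.Rst_eq (H : Gr P r) (D : RefD r i y p u p') (R : RefL e y p u p')
    (hM : Mat P i ∅ psi) (hp : psi y = u) :
    Rst i ∅ psi (rho y p u p' e) = Rst i ∅ psi e := by
  have hpu := D.psi_u hM hp
  have r1 := R.y_Rst D hM hp
  have r2 := (D.LU H R).y_Rst D hp
  ext z
  by_cases h1 : z = y
  · subst h1
    exact ⟨fun h => absurd h r2.1, fun h => absurd h r1.1⟩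
  · by_cases h2 : z = u
    · subst h2
      exact ⟨fun h => absurd h r2.2, fun h => absurd h r1.2⟩
    · rw [mem_Rst, mem_Rst, R.mem_Tch_iff H D h1 h2]
      have key : z ∈ dbL P i ∪ dbU P i →
          (psi z ∈ Tch i (rho y p u p' e) ↔ psi z ∈ Tch i e) := by
        intro hz
        have h3 := (hM.invol z hz (notMem_empty z)).1
        apply R.mem_Tch_iff H D
        · intro h
          rw [h, hp] at h3
          exact h2 h3.symm
        · intro h
          rw [h, hpu] at h3
          exact h1 h3.symm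
      constructor
      · rintro ⟨a1, a2, a3, a4⟩
        exact ⟨a1, a2, a3, fun h => a4 ⟨h.1, (key h.1).2 h.2⟩⟩
      · rintro ⟨a1, a2, a3, a4⟩
        exact ⟨a1, a2, a3, fun h => a4 ⟨h.1, (key h.1).1 h.2⟩⟩

lemma RefL.core_iff (H : Gr P r) (D : RefD r i y p u p') (R : RefL e y p u p')
    (hM : Mat P i ∅ psi) (hp : psi y = u) :
    IsCore i ∅ psi (rho y p u p' e) ↔ IsCore i ∅ psi e := by
  unfold IsCore
  rw [R.Rst_eq H D hM hp]
  have r1 := R.y_Rst D hM hp
  have lp := D.lp H
  have lp' := D.lp' H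
  refine forall₂_congr fun z hz => ?_
  have h1 := (mem_Rst.1 hz).1
  rw [RefD.rho_ne e (by rintro rfl; exact r1.1 hz) ?_ (by rintro rfl; exact r1.2 hz) ?_]
  · rintro rfl
    rcases mem_near.1 h1 with h | h <;> omega
  · rintro rfl
    rcases mem_near.1 h1 with h | h <;> omega

/-- the labels of the sites are unchanged -/
lemma RefD.rho_site (H : Gr P r) (D : RefD r i y p u p') {v : P} (hv : lev v = i) :
    rho y p u p' e v = e v := by
  have ly := D.ly
  have lp := D.lp H
  have lu := D.lu
  have lp' := D.lp' H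
  exact RefD.rho_ne e (by rintro rfl; omega) (by rintro rfl; omega) (by rintro rfl; omega)
    (by rintro rfl; omega)

lemma RefD.red_site (H : Gr P r) (D : RefD r i y p u p') {v : P} (hv : lev v = i) :
    red y p e v = e v := by
  have ly := D.ly
  have lp := D.lp H
  unfold red
  exact up2_ne (by rintro rfl; omega) (by rintro rfl; omega) 0 0 e

end reflection

end Pool.Agent.GaussPoset.Win.So
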