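import Pool.Agent.W_448so_h17.TgC

/-!
S9, row 476: the same invariances for the upper toggle.
-/

namespace Pool.Agent.GaussPoset.Win.So

set_option linter.unusedSectionVars false

open Finset

universe u

variable {P : Type u} [Fintype P] [PartialOrder P] [DecidableEq P] {r i : ℕ}

variable {e f : P → ℕ} {psi : P → P}

section toggle

variable {w x x' a s c : P}

lemma TogU.Tch_eq (H : Gr P r) (T : TogU i e w x x' a s c) :
    Tch i (So.tg w s e) = Tch i e := by
  ext z
  rw [mem_Tch, mem_Tch]
  have hw := T.hw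
  have lw := T.lw
  have ls := T.ls H
  have key : ∀ z', (lev z' = i + 2 ∨ lev z' + 2 = i) → (0 < So.tg w s e z' ↔ 0 < e z') := by
    intro z' hz'
    by_cases h : z' = w
    · rw [h, tg_w]
      omega
    · rw [tg_ne h (by rintro rfl; omega)]
  constructor
  · rintro (⟨h1, z', h2, h3⟩ | ⟨h1, z', h2, h3⟩)
    · have l1 := lev_uc H (mem_uc.2 h2)
      exact Or.inl ⟨h1, z', h2, (key z' (by omega)).1 h3⟩
    · have l1 := lev_uc H (mem_uc.2 h2)
      exact Or.inr ⟨h1, z', h2, (key z' (by omega)).1 h3⟩
  · rintro (⟨h1, z', h2, h3⟩ | ⟨h1, z', h2, h3⟩)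
    · have l1 := lev_uc H (mem_uc.2 h2)
      exact Or.inl ⟨h1, z', h2, (key z' (by omega)).2 h3⟩
    · have l1 := lev_uc H (mem_uc.2 h2)
      exact Or.inr ⟨h1, z', h2, (key z' (by omega)).2 h3⟩

lemma TogU.Rst_eq (H : Gr P r) (T : TogU i e w x x' a s c) (K : Finset P) :
    Rst i K psi (So.tg w s e) = Rst i K psi e := by
  unfold Rst
  rw [T.Tch_eq H]

lemma TogU.core_iff (H : Gr P r) (T : TogU i e w x x' a s c) (K : Finset P) :
    IsCore i K psi (So.tg w s e) ↔ IsCore i K psi e := by
  unfold IsCore
  rw [T.Rst_eq H]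
  refine forall₂_congr fun z hz => ?_
  have h1 := (mem_Rst.1 hz).1
  rw [T.ne H]
  · rcases mem_near.1 h1 with h | h <;> omega
  · rcases mem_near.1 h1 with h | h <;> omega

/-- the free near elements are not adjacent to the toggled site -/
lemma TogU.far (H : Gr P r) (T : TogU i e w x x' a s c) (hM : Mat P i ∅ psi) {z : P}
    (hz : z ∈ Rst i ∅ psi e) : Far s z := by
  have lx := T.lx H
  have lx' := T.lx' H
  have ls := T.ls H
  have hw := T.hw
  have tx : x ∈ Tch i e := mem_Tch.2 (Or.inr ⟨lx, w, T.wx, by omega⟩)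
  have tx' : x' ∈ Tch i e := mem_Tch.2 (Or.inr ⟨lx', w, T.wx', by omega⟩)
  obtain ⟨z1, z2, z3, z4⟩ := mem_Rst.1 hz
  show s ∉ uc z ∧ s ∉ dc z
  refine And.symm ⟨?_, ?_⟩
  · intro h
    have h1 : z ∈ uc s := mem_uc.2 (mem_dc.1 h)
    rw [T.ds, mem_insert, mem_singleton] at h1
    rcases h1 with rfl | rfl
    · exact z3 tx
    · exact z3 tx'
  · intro h
    have h1 : z ∈ dc s := mem_dc.2 (mem_uc.1 h)
    have dx : x ∈ dbU P i := mem_dbU.2 ⟨lx, by rw [T.ux, card_pair T.as]⟩
    have dx' : x' ∈ dbU P i := mem_dbU.2 ⟨lx', by rw [T.ux', card_pair T.sc]⟩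
    obtain ⟨m1, m2⟩ := hM.upp x dx (notMem_empty x)
    obtain ⟨m1', m2'⟩ := hM.upp x' dx' (notMem_empty x')
    have hne : psi x ≠ psi x' := by
      intro hp
      rw [← hp, m2] at m2'
      have : a ∈ dc x' := by
        rw [← m2', T.ux]
        exact mem_insert_self _ _
      have hx'a : a ⋖ x' := mem_dc.1 this
      rw [T.ux', mem_insert, mem_singleton] at this
      rcases this with h2 | h2
      · exact T.as h2
      · -- two elements with the same covers `a, s`
        have h3 : c ∈ dc x := by rw [← h2, T.ux]; exact mem_insert_self _ _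
        have h4 := (hM.invol x (mem_union_right _ dx) (notMem_empty x)).1
        have h5 := (hM.invol x' (mem_union_right _ dx') (notMem_empty x')).1
        rw [← hp, h4] at h5
        exact T.xx' h5
    have us : dc s = {psi x, psi x'} := by
      symm
      apply Finset.eq_of_subset_of_card_le
      · intro q hq
        rw [mem_insert, mem_singleton] at hq
        rcases hq with rfl | rfl
        · refine mem_dc.2 (mem_uc.1 ?_)
          rw [m2, T.ux]
          exact mem_insert_of_mem (mem_singleton_self s)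
        · refine mem_dc.2 (mem_uc.1 ?_)
          rw [m2', T.ux']
          exact mem_insert_self _ _
      · rw [card_pair hne]
        exact dc_card_le H s
    rw [us, mem_insert, mem_singleton] at h1
    apply z4
    rcases h1 with rfl | rfl
    · exact ⟨mem_union_left _ m1, by
        rw [(hM.invol x (mem_union_right _ dx) (notMem_empty x)).1]; exact tx⟩
    · exact ⟨mem_union_left _ m1', by
        rw [(hM.invol x' (mem_union_right _ dx') (notMem_empty x')).1]; exact tx'⟩

end toggle

end Pool.Agent.GaussPoset.Win.So
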